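import Pool.Agent.Lib.MP_83d6ff_an.Kernel

/-!
Averages over spheres of the majorant of the logarithmic kernel.
-/

namespace Pool.Agent.QCurv

open MeasureTheory Real Set Metric
open scoped ENNReal NNReal

variable {m : ℕ}

lemma int_one {δ : ℝ} (hδ1 : δ < 1) : Integrable (fun t : ℝ => |t| ^ (-δ) * Real.exp (-|t|)) := by
  have h := (integrable_fun_norm_addHaar (volume : Measure ℝ)
    (f := fun t : ℝ => t ^ (-δ) * Real.exp (-t))).mpr ?_
  · simpa [Real.norm_eq_abs] using h
  · have := Real.GammaIntegral_convergent (s := 1 - δ) (by linarith)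
    refine this.congr_fun ?_ measurableSet_Ioi
    intro x _
    simp only [Module.finrank_self, Nat.sub_self, pow_zero, one_smul]
    rw [show (1 - δ - 1 : ℝ) = -δ by ring]
    ring

lemma int_exp : Integrable (fun t : ℝ => Real.exp (-|t|)) := by
  have := int_one (δ := 0) (by norm_num)
  simpa using this

lemma int_coord {δ : ℝ} (hδ1 : δ < 1) :
    Integrable (fun y : Ed m => |y 1| ^ (-δ) * Real.exp (-∑ i, |y i|)) := by
  rw [← (PiLp.volume_preserving_toLp (Fin (m + 2))).integrable_comp_emb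
    (MeasurableEquiv.toLp 2 _).measurableEmbedding]
  have h := Integrable.fintype_prod (ι := Fin (m + 2))
    (μ := fun _ => (volume : Measure ℝ))
    (f := fun (i : Fin (m + 2)) (t : ℝ) =>
      (if i = 1 then |t| ^ (-δ) else 1) * Real.exp (-|t|)) (𝕜 := ℝ) (by
        intro i
        by_cases hi : i = 1
        · simpa [hi] using int_one hδ1
        · simpa [hi] using int_exp)
  refine (h.congr (Filter.Eventually.of_forall ?_))
  intro x
  simp only [Function.comp_apply]
  rw [Finset.prod_mul_distrib, ← Real.exp_sum, Finset.sum_neg_distrib]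
  simp

lemma lint_ball {δ : ℝ} (hδ0 : 0 ≤ δ) (hδ1 : δ < 1) :
    ∫⁻ y : Ed m, ENNReal.ofReal (qf δ y) * (if ‖y‖ < 1 then 1 else 0) < ∞ := by
  have h := (int_coord (m := m) hδ1).const_mul (Real.exp (m + 2))
  have h2 := h.lintegral_lt_top
  refine lt_of_le_of_lt (lintegral_mono (fun y => ?_)) h2
  by_cases hy : ‖y‖ < 1
  · rw [if_pos hy, mul_one]
    apply ENNReal.ofReal_le_ofReal
    unfold qf sn
    have h3 : (|y 1| / ‖y‖) ^ (-δ) ≤ |y 1| ^ (-δ) := by
      rw [Real.div_rpow (abs_nonneg _) (norm_nonneg _)]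
      rw [Real.rpow_neg (norm_nonneg _), div_inv_eq_mul]
      have h4 : ‖y‖ ^ δ ≤ 1 := Real.rpow_le_one (norm_nonneg _) hy.le hδ0
      have h5 : 0 ≤ |y 1| ^ (-δ) := Real.rpow_nonneg (abs_nonneg _) _
      nlinarith
    have h6 : 1 ≤ Real.exp (m + 2) * Real.exp (-∑ i, |y i|) := by
      rw [← Real.exp_add]
      apply Real.one_le_exp
      have : ∑ i, |y i| ≤ ∑ i : Fin (m + 2), (1 : ℝ) :=
        Finset.sum_le_sum (fun i _ => le_trans (coord_le y i) hy.le)
      simp at this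
      linarith
    have h5 : 0 ≤ |y 1| ^ (-δ) := Real.rpow_nonneg (abs_nonneg _) _
    nlinarith
  · rw [if_neg hy, mul_zero]
    exact bot_le

lemma measurable_sn : Measurable (sn : Ed m → ℝ) := by
  unfold sn
  have : Measurable (fun y : Ed m => y 1) := by fun_prop
  fun_prop

lemma measurable_qf (δ : ℝ) : Measurable (qf δ : Ed m → ℝ) := by
  unfold qf
  exact measurable_sn.pow_const _

lemma sn_smul {c : ℝ} (hc : 0 < c) (y : Ed m) : sn (c • y) = sn y := by
  unfold sn
  simp only [PiLp.smul_apply, smul_eq_mul, abs_mul, norm_smul, Real.norm_eq_abs]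
  have : 0 < |c| := abs_pos.mpr hc.ne'
  rw [mul_div_mul_left _ _ this.ne']

/-- polar coordinates for products of a homogeneous and a radial function -/
lemma lint_polar {q : Ed m → ℝ≥0∞} (hq : Measurable q)
    (hh : ∀ (c : ℝ) (y : Ed m), 0 < c → q (c • y) = q y)
    {F : ℝ → ℝ≥0∞} (hF : Measurable F) :
    ∫⁻ y : Ed m, q y * F ‖y‖ =
      (∫⁻ ω, q (ω : sphere (0 : Ed m) 1) ∂(volume : Measure (Ed m)).toSphere) *
        ∫⁻ r, F (r : Ioi (0 : ℝ)) ∂(Measure.volumeIoiPow (Module.finrank ℝ (Ed m) - 1)) := by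
  have mp := (volume : Measure (Ed m)).measurePreserving_homeomorphUnitSphereProd
  have h1 : ∫⁻ y : Ed m, q y * F ‖y‖ = ∫⁻ y in ({0}ᶜ : Set (Ed m)), q y * F ‖y‖ := by
    rw [restrict_compl_singleton]
  have h2 := lintegral_prod_mul (μ := (volume : Measure (Ed m)).toSphere)
    (ν := Measure.volumeIoiPow (Module.finrank ℝ (Ed m) - 1))
    (f := fun ω => q (ω : Ed m)) (g := fun r => F (r : ℝ))
    (hq.comp measurable_subtype_coe).aemeasurable
    (hF.comp measurable_subtype_coe).aemeasurable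
  rw [h1, ← lintegral_subtype_comap (measurableSet_singleton _).compl, ← h2,
    ← mp.lintegral_comp_emb (Homeomorph.measurableEmbedding _)]
  apply lintegral_congr
  intro y
  simp only [homeomorphUnitSphereProd_apply_snd_coe,
    homeomorphUnitSphereProd_apply_fst_coe]
  congr 1
  rw [hh]
  have : 0 < ‖(y : Ed m)‖ := norm_pos_iff.mpr y.2
  positivity

/-- The averaging lemma. -/
lemma exists_avg {δ : ℝ} (hδ0 : 0 ≤ δ) (hδ1 : δ < 1) :
    ∃ B : ℝ≥0, ∀ F : ℝ → ℝ≥0∞, Measurable F →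
      ∫⁻ y : Ed m, ENNReal.ofReal (qf δ y) * F ‖y‖ = B * ∫⁻ y : Ed m, F ‖y‖ := by
  set Q := ∫⁻ ω, ENNReal.ofReal (qf δ ((ω : sphere (0 : Ed m) 1) : Ed m))
    ∂(volume : Measure (Ed m)).toSphere with hQ
  set S := ∫⁻ ω : sphere (0 : Ed m) 1, (1 : ℝ≥0∞) ∂(volume : Measure (Ed m)).toSphere with hS
  have hS0 : S ≠ 0 := by
    rw [hS, lintegral_one]
    exact (Measure.measure_univ_ne_zero).mpr (Measure.toSphere_ne_zero _)
  have hS1 : S ≠ ∞ := by
    rw [hS, lintegral_one]
    exact measure_ne_top _ _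
  have hq : ∀ F : ℝ → ℝ≥0∞, Measurable F → ∫⁻ y : Ed m, ENNReal.ofReal (qf δ y) * F ‖y‖ =
      Q * ∫⁻ r, F (r : Ioi (0 : ℝ)) ∂(Measure.volumeIoiPow (Module.finrank ℝ (Ed m) - 1)) := by
    intro F hF
    apply lint_polar (measurable_qf δ).ennreal_ofReal _ hF
    intro c y hc
    unfold qf
    rw [sn_smul hc]
  have h1 : ∀ F : ℝ → ℝ≥0∞, Measurable F → ∫⁻ y : Ed m, F ‖y‖ =
      S * ∫⁻ r, F (r : Ioi (0 : ℝ)) ∂(Measure.volumeIoiPow (Module.finrank ℝ (Ed m) - 1)) := by
    intro F hF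
    have := lint_polar (q := fun _ : Ed m => 1) measurable_const (fun _ _ _ => rfl) hF
    simpa only [one_mul] using this
  have hQ1 : Q ≠ ∞ := by
    have h2 := lint_ball (m := m) hδ0 hδ1
    have h3 := hq (fun r => if r < 1 then 1 else 0)
      (Measurable.ite measurableSet_Iio measurable_const measurable_const)
    rw [h3] at h2
    intro hQt
    rw [hQt] at h2
    have h4 : ∫⁻ r, (if ((r : Ioi (0 : ℝ)) : ℝ) < 1 then (1 : ℝ≥0∞) else 0)
        ∂(Measure.volumeIoiPow (Module.finrank ℝ (Ed m) - 1)) ≠ 0 := by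
      have e : (fun r : Ioi (0 : ℝ) => if (r : ℝ) < 1 then (1 : ℝ≥0∞) else 0) =
          (Iio (⟨1, mem_Ioi.mpr one_pos⟩ : Ioi (0 : ℝ))).indicator 1 := by
        ext r
        simp only [Set.indicator, mem_Iio, Pi.one_apply, ← Subtype.coe_lt_coe]
      rw [e, lintegral_indicator_one measurableSet_Iio, Measure.volumeIoiPow_apply_Iio]
      simp only [one_pow]
      rw [ne_eq, ENNReal.ofReal_eq_zero, not_le]
      positivity
    rw [ENNReal.top_mul h4] at h2
    exact lt_irrefl _ h2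
  refine ⟨(Q / S).toNNReal, fun F hF => ?_⟩
  rw [hq F hF, h1 F hF, ENNReal.coe_toNNReal (ENNReal.div_ne_top hQ1 hS0), ← mul_assoc,
    ENNReal.div_mul_cancel hS0 hS1]

end Pool.Agent.QCurv
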