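import Pool.Agent.Lib.MP_83d6ff_an.Pot

/-!
Concentration near the unit sphere of the weights, and their integrability.
-/

namespace Pool.Agent.QCurv

open MeasureTheory Real Set Metric Filter
open scoped ENNReal NNReal Topology

variable {m : ℕ}

lemma laplace {X : Type*} [MeasurableSpace X] {μ : Measure X} {w h L : X → ℝ} (hw : Measurable w)
    (hw0 : ∀ x, 0 ≤ w x) (hh0 : ∀ x, 0 ≤ h x) (hL0 : ∀ x, 0 ≤ L x) {N : ℝ} (hN : 0 < N)
    (hi : Integrable (fun x => h x * Real.exp (-(N * w x))) μ)
    (Li : Integrable (fun x => L x * Real.exp (-(N * w x))) μ)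
    {τ κ κ' : ℝ} (hτ : 0 < τ) (hκ : κ < κ')
    (hle : ∀ x, w x ≤ κ' → h x ≤ τ / 2 * L x)
    (hc : 0 < ∫ x in {x | w x ≤ κ}, L x * Real.exp (-(N * w x)) ∂μ) :
    ∃ l : ℝ, 1 ≤ l ∧ ∫ x, h x * Real.exp (-(N * l * w x)) ∂μ ≤
      τ * ∫ x, L x * Real.exp (-(N * l * w x)) ∂μ := by
  set M := ∫ x, h x * Real.exp (-(N * w x)) ∂μ with hM
  set c := ∫ x in {x | w x ≤ κ}, L x * Real.exp (-(N * w x)) ∂μ with hcd
  have hM0 : 0 ≤ M := integral_nonneg fun x => mul_nonneg (hh0 x) (Real.exp_nonneg _)
  -- choice of l
  have ht : Tendsto (fun l : ℝ => M * Real.exp (-(N * (κ' - κ) * l))) atTop (𝓝 (M * 0)) := by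
    apply Tendsto.const_mul
    apply Real.tendsto_exp_neg_atTop_nhds_zero.comp
    exact tendsto_id.const_mul_atTop (mul_pos hN (sub_pos.mpr hκ))
  rw [mul_zero] at ht
  have hpos : 0 < τ / 2 * c := by positivity
  obtain ⟨l, hl1, hl2⟩ := ((ht.eventually (gt_mem_nhds hpos)).and (eventually_ge_atTop 0)).exists
  refine ⟨l + 1, by linarith, ?_⟩
  have mono : ∀ x, Real.exp (-(N * (l + 1) * w x)) ≤ Real.exp (-(N * w x)) := by
    intro x
    apply Real.exp_le_exp.mpr
    have := mul_nonneg (mul_nonneg hN.le hl2) (hw0 x)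
    nlinarith
  have wm : Measurable (fun x => Real.exp (-(N * (l + 1) * w x))) := by fun_prop
  have aux : ∀ {f : X → ℝ}, (∀ x, 0 ≤ f x) → Integrable (fun x => f x * Real.exp (-(N * w x))) μ →
      Integrable (fun x => f x * Real.exp (-(N * (l + 1) * w x))) μ := by
    intro f hf0 hf
    have e : (fun x => f x * Real.exp (-(N * (l + 1) * w x))) =
        fun x => (f x * Real.exp (-(N * w x))) * Real.exp (-(N * l * w x)) := by
      ext x
      have : Real.exp (-(N * (l + 1) * w x)) =
          Real.exp (-(N * w x)) * Real.exp (-(N * l * w x)) := by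
        rw [← Real.exp_add]
        congr 1
        ring
      rw [this]
      ring
    have mm : Measurable (fun x => Real.exp (-(N * l * w x))) := by fun_prop
    refine hf.mono ?_ (Eventually.of_forall fun x => ?_)
    · rw [e]
      exact hf.aestronglyMeasurable.mul mm.aestronglyMeasurable
    · rw [norm_mul, norm_mul, Real.norm_eq_abs, Real.norm_eq_abs, Real.norm_eq_abs, Real.abs_exp,
        Real.abs_exp]
      exact mul_le_mul_of_nonneg_left (mono x) (abs_nonneg _)
  have hi' := aux hh0 hi
  have Li' := aux hL0 Li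
  have h1 : ∫ x, h x * Real.exp (-(N * (l + 1) * w x)) ∂μ ≤
      ∫ x, (τ / 2 * (L x * Real.exp (-(N * (l + 1) * w x))) +
        Real.exp (-(N * l * κ')) * (h x * Real.exp (-(N * w x)))) ∂μ := by
    refine integral_mono hi' ((Li'.const_mul _).add (hi.const_mul _)) (fun x => ?_)
    have e1 := Real.exp_pos (-(N * (l + 1) * w x))
    have e2 : 0 ≤ Real.exp (-(N * l * κ')) * (h x * Real.exp (-(N * w x))) :=
      mul_nonneg (Real.exp_nonneg _) (mul_nonneg (hh0 x) (Real.exp_nonneg _))
    have e3 : 0 ≤ τ / 2 * (L x * Real.exp (-(N * (l + 1) * w x))) :=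
      mul_nonneg (by positivity) (mul_nonneg (hL0 x) e1.le)
    by_cases hx : w x ≤ κ'
    · have := mul_le_mul_of_nonneg_right (hle x hx) e1.le
      simp only
      linarith
    · push Not at hx
      have : Real.exp (-(N * (l + 1) * w x)) ≤
          Real.exp (-(N * l * κ')) * Real.exp (-(N * w x)) := by
        rw [← Real.exp_add]
        apply Real.exp_le_exp.mpr
        have := mul_le_mul_of_nonneg_left hx.le (mul_nonneg hN.le hl2)
        linarith
      have := mul_le_mul_of_nonneg_left this (hh0 x)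
      simp only
      linarith
  have h2 : Real.exp (-(N * l * κ)) * c ≤ ∫ x, L x * Real.exp (-(N * (l + 1) * w x)) ∂μ := by
    have hs : MeasurableSet {x | w x ≤ κ} := measurableSet_le hw measurable_const
    calc Real.exp (-(N * l * κ)) * c
        = ∫ x in {x | w x ≤ κ}, Real.exp (-(N * l * κ)) * (L x * Real.exp (-(N * w x))) ∂μ := by
          rw [integral_const_mul]
      _ ≤ ∫ x in {x | w x ≤ κ}, L x * Real.exp (-(N * (l + 1) * w x)) ∂μ := by
          refine setIntegral_mono_on (Li.integrableOn.const_mul _) Li'.integrableOn hs ?_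
          intro x hx
          have : Real.exp (-(N * l * κ)) * Real.exp (-(N * w x)) ≤
              Real.exp (-(N * (l + 1) * w x)) := by
            rw [← Real.exp_add]
            apply Real.exp_le_exp.mpr
            have := mul_le_mul_of_nonneg_left (show w x ≤ κ from hx) (mul_nonneg hN.le hl2)
            linarith
          have := mul_le_mul_of_nonneg_left this (hL0 x)
          linarith
      _ ≤ _ := setIntegral_le_integral Li'
          (Eventually.of_forall fun x => mul_nonneg (hL0 x) (Real.exp_nonneg _))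
  rw [integral_add (Li'.const_mul _) (hi.const_mul _), integral_const_mul, integral_const_mul,
    ← hM] at h1
  have h3 : Real.exp (-(N * l * κ')) * M ≤ τ / 2 * (Real.exp (-(N * l * κ)) * c) := by
    have e : Real.exp (-(N * l * κ')) = Real.exp (-(N * (κ' - κ) * l)) * Real.exp (-(N * l * κ)) := by
      rw [← Real.exp_add]
      congr 1
      ring
    rw [e]
    have := mul_le_mul_of_nonneg_right hl1.le (Real.exp_nonneg (-(N * l * κ)))
    linarith
  have h4 := mul_le_mul_of_nonneg_left h2 (by positivity : 0 ≤ τ / 2)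
  linarith

end Pool.Agent.QCurv
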