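import Pool.Agent.Lib.MP_83d6ff_an.Den

/-!
The contraction estimate.
-/

namespace Pool.Agent.QCurv

open MeasureTheory Real Set Metric Filter
open scoped ENNReal NNReal Topology

variable {m : ℕ}

lemma abs_exp_sub_exp_le (x y : ℝ) :
    |Real.exp x - Real.exp y| ≤ |x - y| * (Real.exp x + Real.exp y) := by
  wlog h : y ≤ x generalizing x y
  · have := this y x (by linarith [not_le.mp h])
    rw [abs_sub_comm, abs_sub_comm x y]
    linarith
  have h1 : 0 ≤ x - y := by linarith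
  rw [abs_of_nonneg h1, abs_of_nonneg (by linarith [Real.exp_le_exp.mpr h])]
  have h2 : Real.exp x - Real.exp y = Real.exp x * (1 - Real.exp (y - x)) := by
    rw [mul_sub, ← Real.exp_add]
    ring_nf
  have h3 := Real.add_one_le_exp (y - x)
  have h4 := Real.exp_pos x
  have h5 := Real.exp_pos y
  rw [h2]
  nlinarith [mul_nonneg h1 h5.le]

section

variable {δ : ℝ} (hδ : 0 < δ) (hδ1 : δ < 1) {N a b l ε : ℝ} (hN : 0 < N) (hb : 0 < b)
include hδ hδ1 hN hb

lemma contr (hε : 0 ≤ ε) (hl : 1 ≤ l) (h : N * b * ε + δ < m + 2 + a) {τ : ℝ} (hτ : 0 < τ)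
    (hlam : ∫ x : Ed m, Real.exp (N * b * (Real.log 3 + avg m δ / δ)) *
        ((th δ ‖x‖ + (if ‖x‖ < 1 / 2 then 1 else 0)) * wU a (N * b * ε) ‖x‖) *
        Real.exp (-(N * l * (‖x‖ ^ 2 - 1) ^ 2)) ≤
      τ * ∫ x : Ed m, ‖x‖ ^ a * (1 + ‖x‖) ^ (-(N * b)) * Real.exp (-(N * l * (‖x‖ ^ 2 - 1) ^ 2)))
    {F₁ F₂ : ℝ → ℝ} (h₁ : Adm m ε F₁) (h₂ : Adm m ε F₂) :
    ∫ x : Ed m, |den m N a b l F₁ ‖x‖ / (∫ x : Ed m, den m N a b l F₁ ‖x‖) -
        den m N a b l F₂ ‖x‖ / (∫ x : Ed m, den m N a b l F₂ ‖x‖)| ≤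
      4 * N * b * (avg m δ / δ) * τ * ∫ y : Ed m, |F₁ ‖y‖ - F₂ ‖y‖| := by
  set D := ∫ y : Ed m, |F₁ ‖y‖ - F₂ ‖y‖| with hD
  set A : ℝ := avg m δ / δ with hA
  have hA0 : 0 ≤ A := div_nonneg (NNReal.coe_nonneg _) hδ.le
  have hD0 : 0 ≤ D := integral_nonneg fun _ => abs_nonneg _
  set c := b * (pot m F₁ 1 - pot m F₂ 1) with hc
  set G₁ : Ed m → ℝ := fun x => den m N a b l F₁ ‖x‖ with hG₁
  set G₂ : Ed m → ℝ := fun x => Real.exp (N * c) * den m N a b l F₂ ‖x‖ with hG₂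
  set Z₁ := ∫ x, G₁ x with hZ₁
  set Z₂ := ∫ x, G₂ x with hZ₂
  have iG₁ : Integrable G₁ := int_den' hδ hδ1 hN hb hε hl h h₁
  have iG₂' : Integrable (fun x : Ed m => den m N a b l F₂ ‖x‖) :=
    int_den' hδ hδ1 hN hb hε hl h h₂
  have iG₂ : Integrable G₂ := iG₂'.const_mul _
  have hZ₂e : Z₂ = Real.exp (N * c) * ∫ x : Ed m, den m N a b l F₂ ‖x‖ := by
    rw [hZ₂, hG₂, integral_const_mul]
  have Z₁pos : 0 < Z₁ := den_mass_pos hδ hδ1 hN hb hε hl h h₁
  have Z₂'pos := den_mass_pos hδ hδ1 hN hb hε hl h h₂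
  have Z₂pos : 0 < Z₂ := by
    rw [hZ₂e]
    positivity
  have G₁nn : ∀ x, 0 ≤ G₁ x := fun x => den_nonneg (norm_nonneg x)
  have G₂nn : ∀ x, 0 ≤ G₂ x := fun x => mul_nonneg (Real.exp_nonneg _) (den_nonneg (norm_nonneg x))
  -- the concentration estimate
  have conc : ∀ {F : ℝ → ℝ}, Adm m ε F → ∫ x : Ed m, th δ ‖x‖ * den m N a b l F ‖x‖ ≤
      τ * ∫ x : Ed m, den m N a b l F ‖x‖ := by
    intro F hF
    refine le_trans ?_ (conc_den hδ hδ1 hN hb hε hl h hτ hlam hF)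
    have i0 := int_den (a := a) (l := l) hδ hδ1 hN hb hε hl h hF
    have key : ∀ x : Ed m, 0 ≤ (if ‖x‖ < 1 / 2 then (1 : ℝ) else 0) := by
      intro x
      split_ifs <;> norm_num
    have key' : ∀ x : Ed m, (if ‖x‖ < 1 / 2 then (1 : ℝ) else 0) ≤ 1 := by
      intro x
      split_ifs <;> norm_num
    refine integral_mono (i0.mono' ?_ ?_) (i0.mono' ?_ ?_) ?_
    · exact (((measurable_th δ).comp measurable_norm).mul
        ((measurable_den hF.meas).comp measurable_norm)).aestronglyMeasurable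
    · refine Eventually.of_forall fun x => ?_
      have h3 := th_nonneg' (δ := δ) (norm_nonneg x)
      have h4 := den_nonneg (m := m) (N := N) (a := a) (b := b) (l := l) (F := F) (norm_nonneg x)
      rw [Real.norm_eq_abs, abs_of_nonneg (by positivity)]
      apply mul_le_mul_of_nonneg_right _ h4
      linarith
    · apply Measurable.aestronglyMeasurable
      exact (Measurable.add ((measurable_th δ).comp measurable_norm)
        (Measurable.ite (measurableSet_lt measurable_norm measurable_const) measurable_const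
          measurable_const)).mul ((measurable_den hF.meas).comp measurable_norm)
    · refine Eventually.of_forall fun x => ?_
      have h3 := th_nonneg' (δ := δ) (norm_nonneg x)
      have h4 := den_nonneg (m := m) (N := N) (a := a) (b := b) (l := l) (F := F) (norm_nonneg x)
      have h6 := key x
      have h7 := key' x
      rw [Real.norm_eq_abs, abs_of_nonneg (by positivity)]
      apply mul_le_mul_of_nonneg_right _ h4
      linarith
    · intro x
      have h4 := den_nonneg (m := m) (N := N) (a := a) (b := b) (l := l) (F := F) (norm_nonneg x)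
      exact mul_le_mul_of_nonneg_right (by linarith [key x]) h4
  have ithG : ∀ {F : ℝ → ℝ}, Adm m ε F →
      Integrable (fun x : Ed m => th δ ‖x‖ * den m N a b l F ‖x‖) := by
    intro F hF
    refine (int_den (a := a) (l := l) hδ hδ1 hN hb hε hl h hF).mono' ?_
      (Eventually.of_forall fun x => ?_)
    · exact (((measurable_th δ).comp measurable_norm).mul
        ((measurable_den hF.meas).comp measurable_norm)).aestronglyMeasurable
    · have h3 := th_nonneg' (δ := δ) (norm_nonneg x)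
      have h4 := den_nonneg (m := m) (N := N) (a := a) (b := b) (l := l) (F := F) (norm_nonneg x)
      rw [Real.norm_eq_abs, abs_of_nonneg (by positivity)]
      apply mul_le_mul_of_nonneg_right _ h4
      linarith
  -- pointwise difference
  have hne : ∀ᵐ x : Ed m, x ≠ 0 := by
    rw [ae_iff]
    simp
  have pw : ∀ᵐ x : Ed m, |G₁ x - G₂ x| ≤ N * b * A * D *
      (th δ ‖x‖ * den m N a b l F₁ ‖x‖ + Real.exp (N * c) * (th δ ‖x‖ * den m N a b l F₂ ‖x‖)) := by
    filter_upwards [hne] with x hx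
    have hr : 0 < ‖x‖ := norm_pos_iff.mpr hx
    have hd := pot_diff hδ hδ1 h₁.meas h₁.int h₂.meas h₂.int hr
    rw [← hD, ← hA] at hd
    set P := l * (2 * ‖x‖ ^ 2 - ‖x‖ ^ 4)
    have e1 : G₁ x = ‖x‖ ^ a * Real.exp (N * (b * pot m F₁ ‖x‖ + P)) := rfl
    have e2 : G₂ x = ‖x‖ ^ a * Real.exp (N * (b * pot m F₂ ‖x‖ + P) + N * c) := by
      simp only [hG₂, den]
      rw [Real.exp_add]
      ring
    have hra : 0 ≤ ‖x‖ ^ a := Real.rpow_nonneg hr.le _
    have h3 := abs_exp_sub_exp_le (N * (b * pot m F₁ ‖x‖ + P)) (N * (b * pot m F₂ ‖x‖ + P) + N * c)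
    have h4 : |N * (b * pot m F₁ ‖x‖ + P) - (N * (b * pot m F₂ ‖x‖ + P) + N * c)| ≤
        N * b * A * D * th δ ‖x‖ := by
      have e3 : N * (b * pot m F₁ ‖x‖ + P) - (N * (b * pot m F₂ ‖x‖ + P) + N * c) =
          (N * b) * ((pot m F₁ ‖x‖ - pot m F₂ ‖x‖) - (pot m F₁ 1 - pot m F₂ 1)) := by
        rw [hc]
        ring
      rw [e3, abs_mul, abs_of_pos (mul_pos hN hb)]
      have := mul_le_mul_of_nonneg_left hd (mul_pos hN hb).le
      linarith
    calc |G₁ x - G₂ x| = ‖x‖ ^ a * |Real.exp (N * (b * pot m F₁ ‖x‖ + P)) -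
          Real.exp (N * (b * pot m F₂ ‖x‖ + P) + N * c)| := by
          rw [e1, e2, ← mul_sub, abs_mul, abs_of_nonneg hra]
      _ ≤ ‖x‖ ^ a * (N * b * A * D * th δ ‖x‖ * (Real.exp (N * (b * pot m F₁ ‖x‖ + P)) +
          Real.exp (N * (b * pot m F₂ ‖x‖ + P) + N * c))) := by
          apply mul_le_mul_of_nonneg_left _ hra
          refine le_trans h3 ?_
          exact mul_le_mul_of_nonneg_right h4 (by positivity)
      _ = N * b * A * D * (th δ ‖x‖ * G₁ x + th δ ‖x‖ * G₂ x) := by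
          rw [e1, e2]
          ring
      _ = _ := by
          simp only [hG₁, hG₂]
          ring
  have hdiff : ∫ x, |G₁ x - G₂ x| ≤ N * b * A * D * (τ * (Z₁ + Z₂)) := by
    have i1 := ithG h₁
    have i2 := (ithG h₂).const_mul (Real.exp (N * c))
    calc ∫ x, |G₁ x - G₂ x| ≤ ∫ x, N * b * A * D * (th δ ‖x‖ * den m N a b l F₁ ‖x‖ +
          Real.exp (N * c) * (th δ ‖x‖ * den m N a b l F₂ ‖x‖)) :=
          integral_mono_ae (iG₁.sub iG₂).abs ((i1.add i2).const_mul _) pw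
      _ = N * b * A * D * ((∫ x : Ed m, th δ ‖x‖ * den m N a b l F₁ ‖x‖) +
          Real.exp (N * c) * ∫ x : Ed m, th δ ‖x‖ * den m N a b l F₂ ‖x‖) := by
          rw [integral_const_mul, integral_add i1 i2, integral_const_mul]
      _ ≤ N * b * A * D * (τ * Z₁ + Real.exp (N * c) * (τ *
          ∫ x : Ed m, den m N a b l F₂ ‖x‖)) := by
          apply mul_le_mul_of_nonneg_left _ (by positivity)
          exact add_le_add (conc h₁) (mul_le_mul_of_nonneg_left (conc h₂) (Real.exp_nonneg _))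
      _ = _ := by
          rw [hZ₂e]
          ring
  -- normalisation
  have hZd : |Z₂ - Z₁| ≤ ∫ x, |G₁ x - G₂ x| := by
    rw [abs_sub_comm, hZ₁, hZ₂, ← integral_sub iG₁ iG₂]
    exact abs_integral_le_integral_abs
  have e2 : ∀ x, den m N a b l F₂ ‖x‖ / (∫ x : Ed m, den m N a b l F₂ ‖x‖) = G₂ x / Z₂ := by
    intro x
    rw [hZ₂e]
    simp only [hG₂]
    rw [mul_div_mul_left _ _ (Real.exp_pos _).ne']
  have hfin : (Z₁ + Z₂) * ∫ x, |G₁ x / Z₁ - G₂ x / Z₂| ≤ 4 * (N * b * A * D * (τ * (Z₁ + Z₂))) := by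
    have j1 : Integrable (fun x => 2 * |G₁ x - G₂ x|) := (iG₁.sub iG₂).abs.const_mul 2
    have j2 : Integrable (fun x => |Z₂ - Z₁| * (G₁ x / Z₁ + G₂ x / Z₂)) :=
      ((iG₁.div_const _).add (iG₂.div_const _)).const_mul _
    calc (Z₁ + Z₂) * ∫ x, |G₁ x / Z₁ - G₂ x / Z₂|
        = ∫ x, (Z₁ + Z₂) * |G₁ x / Z₁ - G₂ x / Z₂| := by rw [integral_const_mul]
      _ ≤ ∫ x, (2 * |G₁ x - G₂ x| + |Z₂ - Z₁| * (G₁ x / Z₁ + G₂ x / Z₂)) := by
          refine integral_mono (((iG₁.div_const _).sub (iG₂.div_const _)).abs.const_mul _)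
            (j1.add j2) (fun x => ?_)
          have e : (Z₁ + Z₂) * (G₁ x / Z₁ - G₂ x / Z₂) =
              2 * (G₁ x - G₂ x) + (Z₂ - Z₁) * (G₁ x / Z₁ + G₂ x / Z₂) := by
            field_simp
            ring
          have p1 : 0 ≤ G₁ x / Z₁ + G₂ x / Z₂ :=
            add_nonneg (div_nonneg (G₁nn x) Z₁pos.le) (div_nonneg (G₂nn x) Z₂pos.le)
          calc (Z₁ + Z₂) * |G₁ x / Z₁ - G₂ x / Z₂| = |(Z₁ + Z₂) * (G₁ x / Z₁ - G₂ x / Z₂)| := by
                rw [abs_mul, abs_of_pos (by positivity : 0 < Z₁ + Z₂)]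
            _ = |2 * (G₁ x - G₂ x) + (Z₂ - Z₁) * (G₁ x / Z₁ + G₂ x / Z₂)| := by rw [e]
            _ ≤ |2 * (G₁ x - G₂ x)| + |(Z₂ - Z₁) * (G₁ x / Z₁ + G₂ x / Z₂)| := abs_add_le _ _
            _ = _ := by
                rw [abs_mul, abs_mul, abs_of_nonneg p1, abs_of_pos (by norm_num : (0 : ℝ) < 2)]
      _ = 2 * (∫ x, |G₁ x - G₂ x|) + |Z₂ - Z₁| * 2 := by
          rw [integral_add j1 j2, integral_const_mul, integral_const_mul,
            integral_add (iG₁.div_const _) (iG₂.div_const _), integral_div, integral_div,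
            ← hZ₁, ← hZ₂, div_self Z₁pos.ne', div_self Z₂pos.ne']
          norm_num
      _ ≤ _ := by linarith
  have hpos : 0 < Z₁ + Z₂ := by positivity
  have : (Z₁ + Z₂) * ∫ x, |G₁ x / Z₁ - G₂ x / Z₂| ≤ (Z₁ + Z₂) * (4 * N * b * A * τ * D) := by
    linarith
  have := le_of_mul_le_mul_left this hpos
  simp_rw [e2]
  exact this

end

end Pool.Agent.QCurv
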