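import Pool.Agent.Lib.MP_83d6ff_an.Fund

/-!
Weighted integrability of `𝓕⁻ (‖ξ‖ ^ n 𝓕 φ)` for odd `n ≥ 5`.
-/

namespace Pool.Agent.QCurv

open MeasureTheory Real Set Filter FourierTransform
open scoped ENNReal NNReal Topology InnerProductSpace SchwartzMap

variable {V : Type*} [NormedAddCommGroup V] [InnerProductSpace ℝ V] [FiniteDimensional ℝ V]
  [MeasurableSpace V] [BorelSpace V]

lemma fourier_swap {f g : V → ℂ} (hf : Integrable f) (hg : Integrable g) :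
    ∫ ξ, 𝓕 f ξ * g ξ = ∫ x, f x * 𝓕 g x := by
  simpa using! VectorFourier.integral_bilin_fourierIntegral_eq_flip (ContinuousLinearMap.mul ℂ ℂ)
    (L := innerₗ V) Real.continuous_fourierChar continuous_inner hf hg

lemma conv_inv {b c : V → ℂ} (hb : Integrable b) (hc : Integrable c) (x : V) :
    𝓕⁻ (fun ξ => b ξ * 𝓕 c ξ) x = ∫ y, c y * 𝓕⁻ b (x - y) := by
  set bx : V → ℂ := fun ξ => 𝐞 (inner ℝ ξ x) • b ξ with hbx
  have hbxi : Integrable bx := by
    have := (Real.fourierIntegral_convergent_iff (μ := volume) (f := b) (-x)).mpr hb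
    refine this.congr (Eventually.of_forall fun ξ => ?_)
    simp [hbx]
  have h1 : 𝓕⁻ (fun ξ => b ξ * 𝓕 c ξ) x = ∫ ξ, bx ξ * 𝓕 c ξ := by
    rw [Real.fourierInv_eq]
    apply integral_congr_ae
    refine Eventually.of_forall fun ξ => ?_
    simp only [hbx, smul_mul_assoc]
  rw [h1, ← fourier_swap hbxi hc]
  apply integral_congr_ae
  refine Eventually.of_forall fun y => ?_
  simp only
  rw [mul_comm]
  congr 1
  rw [Real.fourier_eq, Real.fourierInv_eq]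
  apply integral_congr_ae
  refine Eventually.of_forall fun ξ => ?_
  simp only [hbx]
  rw [smul_smul, ← AddChar.map_add_eq_mul, inner_sub_right]
  congr 2
  ring

/-- the weight -/
noncomputable def wt (x : V) : ℝ≥0∞ := (1 + ‖x‖ₑ) ^ 4

omit [InnerProductSpace ℝ V] [FiniteDimensional ℝ V] [MeasurableSpace V] [BorelSpace V] in
lemma wt_le (x y : V) : wt x ≤ wt (x - y) * wt y := by
  unfold wt
  rw [← mul_pow]
  apply pow_le_pow_left₀ bot_le
  have h : ‖x‖ₑ ≤ ‖x - y‖ₑ + ‖y‖ₑ := by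
    have := enorm_add_le (x - y) y
    rwa [sub_add_cancel] at this
  calc 1 + ‖x‖ₑ ≤ 1 + (‖x - y‖ₑ + ‖y‖ₑ) := by gcongr
    _ ≤ (1 + ‖x - y‖ₑ) * (1 + ‖y‖ₑ) := by
      ring_nf
      rw [add_assoc, add_assoc, add_assoc]
      gcongr
      exact le_add_self

omit [InnerProductSpace ℝ V] [FiniteDimensional ℝ V] in
lemma measurable_wt : Measurable (wt : V → ℝ≥0∞) := by
  unfold wt
  fun_prop

lemma lint_conv_le {k c : V → ℂ} (hk : AEStronglyMeasurable k) (hc : AEStronglyMeasurable c) :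
    ∫⁻ x, wt x * ‖∫ y, c y * k (x - y)‖ₑ ≤ (∫⁻ x, wt x * ‖k x‖ₑ) * ∫⁻ x, wt x * ‖c x‖ₑ := by
  have hm : AEMeasurable (Function.uncurry fun (x y : V) =>
      (wt (x - y) * ‖k (x - y)‖ₑ) * (wt y * ‖c y‖ₑ)) (volume.prod volume) := by
    have h1 : AEMeasurable (fun z : V => wt z * ‖k z‖ₑ) :=
      measurable_wt.aemeasurable.mul hk.enorm
    have h2 : AEMeasurable (fun z : V => wt z * ‖c z‖ₑ) :=
      measurable_wt.aemeasurable.mul hc.enorm
    have h3 : AEMeasurable (fun p : V × V => wt (p.1 - p.2) * ‖k (p.1 - p.2)‖ₑ)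
        (volume.prod volume) :=
      h1.comp_quasiMeasurePreserving (quasiMeasurePreserving_sub volume volume)
    exact h3.mul h2.comp_snd
  calc ∫⁻ x, wt x * ‖∫ y, c y * k (x - y)‖ₑ
      ≤ ∫⁻ x, ∫⁻ y, (wt (x - y) * ‖k (x - y)‖ₑ) * (wt y * ‖c y‖ₑ) := by
        refine lintegral_mono fun x => ?_
        calc wt x * ‖∫ y, c y * k (x - y)‖ₑ ≤ wt x * ∫⁻ y, ‖c y * k (x - y)‖ₑ := by
              gcongr
              exact enorm_integral_le_lintegral_enorm _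
          _ = ∫⁻ y, wt x * ‖c y * k (x - y)‖ₑ := by
              rw [lintegral_const_mul' _ _ (by simp [wt])]
          _ ≤ _ := by
              refine lintegral_mono fun y => ?_
              rw [enorm_mul]
              calc wt x * (‖c y‖ₑ * ‖k (x - y)‖ₑ)
                  ≤ (wt (x - y) * wt y) * (‖c y‖ₑ * ‖k (x - y)‖ₑ) := by
                    gcongr
                    exact wt_le x y
                _ = _ := by ring
    _ = ∫⁻ y, ∫⁻ x, (wt (x - y) * ‖k (x - y)‖ₑ) * (wt y * ‖c y‖ₑ) := lintegral_lintegral_swap hm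
    _ = ∫⁻ y, (∫⁻ x, wt x * ‖k x‖ₑ) * (wt y * ‖c y‖ₑ) := by
        apply lintegral_congr
        intro y
        rw [lintegral_mul_const' _ _ (by simp [wt, ENNReal.mul_eq_top])]
        congr 1
        exact lintegral_sub_right_eq_self (fun x => wt x * ‖k x‖ₑ) y
    _ = _ := by
        rw [lintegral_const_mul'']
        exact measurable_wt.aemeasurable.mul hc.enorm

omit [FiniteDimensional ℝ V] [MeasurableSpace V] [BorelSpace V] in
lemma wt_smul_le {t : ℝ} (ht : 0 < t) (z : V) :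
    wt (t • z) ≤ ENNReal.ofReal (max 1 t) ^ 4 * wt z := by
  unfold wt
  rw [← mul_pow]
  apply pow_le_pow_left₀ bot_le
  rw [enorm_smul, mul_add, mul_one]
  have h1 : (1 : ℝ≥0∞) ≤ ENNReal.ofReal (max 1 t) := by
    rw [← ENNReal.ofReal_one]
    exact ENNReal.ofReal_le_ofReal (le_max_left _ _)
  have h2 : ‖t‖ₑ ≤ ENNReal.ofReal (max 1 t) := by
    rw [Real.enorm_of_nonneg ht.le]
    exact ENNReal.ofReal_le_ofReal (le_max_right _ _)
  gcongr

lemma fourierInv_scale (b : V → ℂ) {t : ℝ} (ht : 0 < t) (x : V) :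
    𝓕⁻ (fun ξ => b (t • ξ)) x = ((t ^ Module.finrank ℝ V)⁻¹ : ℝ) • 𝓕⁻ b (t⁻¹ • x) := by
  rw [Real.fourierInv_eq, Real.fourierInv_eq]
  have h := Measure.integral_comp_smul (volume : Measure V)
    (fun η => 𝐞 (inner ℝ η (t⁻¹ • x)) • b η) t
  rw [abs_of_nonneg (by positivity)] at h
  rw [← h]
  apply integral_congr_ae
  refine Eventually.of_forall fun ξ => ?_
  simp only
  rw [inner_smul_left, inner_smul_right]
  congr 2
  simp only [conj_trivial]
  field_simp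

lemma lint_scale_le (b : V → ℂ) {t : ℝ} (ht : 0 < t) :
    ∫⁻ x, wt x * ‖𝓕⁻ (fun ξ => b (t • ξ)) x‖ₑ ≤
      ENNReal.ofReal (max 1 t) ^ 4 * ∫⁻ x, wt x * ‖𝓕⁻ b x‖ₑ := by
  set d := Module.finrank ℝ V
  set G : V → ℝ≥0∞ := fun z => wt (t • z) * ‖((t ^ d)⁻¹ : ℝ) • 𝓕⁻ b z‖ₑ with hG
  have h1 : ∀ x, wt x * ‖𝓕⁻ (fun ξ => b (t • ξ)) x‖ₑ = G (t⁻¹ • x) := by
    intro x
    simp only [hG]
    rw [fourierInv_scale b ht, smul_smul, mul_inv_cancel₀ ht.ne', one_smul]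
  simp_rw [h1]
  have hemb : MeasurableEmbedding (fun x : V => t⁻¹ • x) :=
    (Homeomorph.smulOfNeZero (t⁻¹) (inv_ne_zero ht.ne')).measurableEmbedding
  have h2 : ∫⁻ x, G (t⁻¹ • x) = ENNReal.ofReal (t ^ d) * ∫⁻ z, G z := by
    rw [← hemb.lintegral_map, Measure.map_addHaar_smul volume (inv_ne_zero ht.ne'),
      lintegral_smul_measure, smul_eq_mul]
    congr 2
    rw [inv_pow, inv_inv, abs_of_nonneg (by positivity)]
  rw [h2]
  have h3 : ENNReal.ofReal (t ^ d) * ∫⁻ z, G z ≤ ENNReal.ofReal (t ^ d) *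
      ∫⁻ z, ENNReal.ofReal ((t ^ d)⁻¹) * (ENNReal.ofReal (max 1 t) ^ 4 * (wt z * ‖𝓕⁻ b z‖ₑ)) := by
    gcongr with z
    simp only [hG]
    rw [enorm_smul, Real.enorm_of_nonneg (by positivity : 0 ≤ (t ^ d)⁻¹)]
    calc wt (t • z) * (ENNReal.ofReal ((t ^ d)⁻¹) * ‖𝓕⁻ b z‖ₑ)
        ≤ (ENNReal.ofReal (max 1 t) ^ 4 * wt z) * (ENNReal.ofReal ((t ^ d)⁻¹) * ‖𝓕⁻ b z‖ₑ) := by
          gcongr
          exact wt_smul_le ht z
      _ = _ := by ring
  refine le_trans h3 (le_of_eq ?_)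
  rw [lintegral_const_mul' _ _ ENNReal.ofReal_ne_top, lintegral_const_mul' _ _ (by simp),
    ← mul_assoc, ← ENNReal.ofReal_mul (by positivity), mul_inv_cancel₀ (by positivity),
    ENNReal.ofReal_one, one_mul]

lemma wt_lint_schwartz (f : 𝓢(V, ℂ)) : ∫⁻ x, wt x * ‖f x‖ₑ < ∞ := by
  have h0 := f.integrable (μ := (volume : Measure V))
  have h4 := f.integrable_pow_mul (volume : Measure V) 4
  have h : Integrable (fun x : V => 8 * ‖f x‖ + 8 * (‖x‖ ^ 4 * ‖f x‖)) :=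
    (h0.norm.const_mul 8).add (h4.const_mul 8)
  refine lt_of_le_of_lt (lintegral_mono fun x => ?_) h.lintegral_lt_top
  have e : wt x * ‖f x‖ₑ = ENNReal.ofReal ((1 + ‖x‖) ^ 4 * ‖f x‖) := by
    unfold wt
    rw [ENNReal.ofReal_mul (by positivity), ENNReal.ofReal_pow (by positivity),
      ENNReal.ofReal_add (by norm_num) (norm_nonneg _), ENNReal.ofReal_one, ofReal_norm,
      ofReal_norm]
  rw [e]
  apply ENNReal.ofReal_le_ofReal
  have h1 : (1 + ‖x‖) ^ 4 ≤ 8 + 8 * ‖x‖ ^ 4 := by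
    nlinarith [sq_nonneg (‖x‖ - 1), sq_nonneg (‖x‖ ^ 2 - 1), norm_nonneg x,
      mul_nonneg (norm_nonneg x) (sq_nonneg (‖x‖ - 1)), sq_nonneg (‖x‖ ^ 2 - ‖x‖)]
  calc (1 + ‖x‖) ^ 4 * ‖f x‖ ≤ (8 + 8 * ‖x‖ ^ 4) * ‖f x‖ := by gcongr
    _ = _ := by ring

end Pool.Agent.QCurv
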