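import Pool.Agent.Lib.MP_83d6ff_an.Decay

/-!
Weighted integrability of `𝓕⁻ (‖ξ‖ ^ n 𝓕 φ)` for odd `n ≥ 5`.
-/

namespace Pool.Agent.QCurv

open MeasureTheory Real Set Filter FourierTransform
open scoped ENNReal NNReal Topology InnerProductSpace SchwartzMap ContDiff

variable {V : Type*} [NormedAddCommGroup V] [InnerProductSpace ℝ V] [FiniteDimensional ℝ V]
  [MeasurableSpace V] [BorelSpace V]

/-- cutoff -/
noncomputable def hcut (r : ℝ) : ℝ := Real.smoothTransition (2 - r ^ 2)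

lemma hcut_nonneg (r : ℝ) : 0 ≤ hcut r := Real.smoothTransition.nonneg _

lemma hcut_le_one (r : ℝ) : hcut r ≤ 1 := Real.smoothTransition.le_one _

lemma hcut_zero {r : ℝ} (h : 2 ≤ r) : hcut r = 0 :=
  Real.smoothTransition.zero_of_nonpos (by nlinarith)

lemma hcut_one {r : ℝ} (h0 : 0 ≤ r) (h : r ≤ 1) : hcut r = 1 :=
  Real.smoothTransition.one_of_one_le (by nlinarith)

lemma continuous_hcut : Continuous hcut := by
  unfold hcut
  exact Real.smoothTransition.continuous.comp (by fun_prop)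

/-- cutoff symbol -/
noncomputable def chiF (k : ℕ) (ξ : V) : ℂ := (((‖ξ‖ ^ 2) ^ k * hcut ‖ξ‖ : ℝ) : ℂ)

omit [FiniteDimensional ℝ V] [MeasurableSpace V] [BorelSpace V] in
lemma contDiff_chiF (k : ℕ) : ContDiff ℝ ∞ (chiF k : V → ℂ) := by
  unfold chiF hcut
  have h1 : ContDiff ℝ ∞ (fun ξ : V => ‖ξ‖ ^ 2) := contDiff_norm_sq ℝ
  have h2 : ContDiff ℝ ∞ (fun ξ : V => Real.smoothTransition (2 - ‖ξ‖ ^ 2)) :=
    Real.smoothTransition.contDiff.comp (contDiff_const.sub h1)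
  exact Complex.ofRealCLM.contDiff.comp ((h1.pow k).mul h2)

omit [MeasurableSpace V] [BorelSpace V] in
lemma hasCompactSupport_chiF (k : ℕ) : HasCompactSupport (chiF k : V → ℂ) := by
  refine HasCompactSupport.intro (isCompact_closedBall 0 2) (fun ξ hξ => ?_)
  rw [mem_closedBall_zero_iff, not_le] at hξ
  unfold chiF
  rw [hcut_zero hξ.le]
  simp

/-- cutoff symbol as a Schwartz function -/
noncomputable def chi (k : ℕ) : 𝓢(V, ℂ) := (hasCompactSupport_chiF k).toSchwartzMap (contDiff_chiF k)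

omit [MeasurableSpace V] [BorelSpace V] in
lemma chi_apply (k : ℕ) (ξ : V) : (chi k : 𝓢(V, ℂ)) ξ = (((‖ξ‖ ^ 2) ^ k * hcut ‖ξ‖ : ℝ) : ℂ) := rfl

lemma exists_theta (k : ℕ) (φ : 𝓢(V, ℂ)) :
    ∃ Θ : 𝓢(V, ℂ), ∀ ξ, 𝓕 (Θ : V → ℂ) ξ = (((‖ξ‖ ^ 2) ^ k : ℝ) : ℂ) * 𝓕 (φ : V → ℂ) ξ := by
  have hg : (fun ξ : V => (((‖ξ‖ ^ 2) ^ k : ℝ) : ℂ)).HasTemperateGrowth := by
    fun_prop
  refine ⟨SchwartzMap.fourierMultiplierCLM ℂ (fun ξ : V => (((‖ξ‖ ^ 2) ^ k : ℝ) : ℂ)) φ, fun ξ => ?_⟩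
  rw [← SchwartzMap.fourier_coe, SchwartzMap.fourierMultiplierCLM_apply,
    FourierTransform.fourier_fourierInv_eq, SchwartzMap.smulLeftCLM_apply_apply hg,
    SchwartzMap.fourier_coe]
  rfl

/-- the truncated symbol -/
noncomputable def HH (k : ℕ) (φ : 𝓢(V, ℂ)) (t : ℝ) (x : V) : ℂ :=
  𝓕⁻ (fun ξ : V => ((hcut (t * ‖ξ‖) * (‖ξ‖ ^ 2) ^ k : ℝ) : ℂ) * 𝓕 (φ : V → ℂ) ξ) x

lemma HH_small (k : ℕ) (φ : 𝓢(V, ℂ)) : ∃ C : ℝ≥0∞, C ≠ ⊤ ∧ ∀ t : ℝ, 0 < t → t ≤ 1 →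
    ∫⁻ x, wt x * ‖HH k φ t x‖ₑ ≤ C := by
  obtain ⟨Θ, hΘ⟩ := exists_theta k φ
  refine ⟨(∫⁻ x, wt x * ‖𝓕⁻ ((chi 0 : 𝓢(V, ℂ)) : V → ℂ) x‖ₑ) * ∫⁻ x, wt x * ‖Θ x‖ₑ, ?_, ?_⟩
  · apply ENNReal.mul_ne_top
    · have := wt_lint_schwartz (𝓕⁻ (chi 0 : 𝓢(V, ℂ)))
      rw [SchwartzMap.fourierInv_coe] at this
      exact this.ne
    · exact (wt_lint_schwartz Θ).ne
  · intro t ht ht1
    have hb : Integrable (fun ξ : V => (chi 0 : 𝓢(V, ℂ)) (t • ξ)) :=
      (integrable_comp_smul_iff volume _ ht.ne').mpr (chi 0).integrable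
    have e : ∀ x, HH k φ t x = ∫ y, Θ y * 𝓕⁻ (fun ξ : V => (chi 0 : 𝓢(V, ℂ)) (t • ξ)) (x - y) := by
      intro x
      rw [← conv_inv hb Θ.integrable]
      unfold HH
      have e1 : (fun ξ : V => ((hcut (t * ‖ξ‖) * (‖ξ‖ ^ 2) ^ k : ℝ) : ℂ) * 𝓕 (φ : V → ℂ) ξ) =
          fun ξ => (chi 0 : 𝓢(V, ℂ)) (t • ξ) * 𝓕 (Θ : V → ℂ) ξ := by
        funext ξ
        rw [hΘ, chi_apply, norm_smul, Real.norm_eq_abs, abs_of_pos ht]
        push_cast
        ring
      rw [e1]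
    simp_rw [e]
    refine le_trans (lint_conv_le ?_ Θ.continuous.aestronglyMeasurable) ?_
    · have : Continuous (𝓕⁻ (fun ξ : V => (chi 0 : 𝓢(V, ℂ)) (t • ξ))) := by
        have h : (fun x => 𝓕⁻ (fun ξ : V => (chi 0 : 𝓢(V, ℂ)) (t • ξ)) x) =
            fun x => ((t ^ Module.finrank ℝ V)⁻¹ : ℝ) • 𝓕⁻ ((chi 0 : 𝓢(V, ℂ)) : V → ℂ) (t⁻¹ • x) := by
          ext x
          exact fourierInv_scale _ ht x
        change Continuous (fun x => 𝓕⁻ (fun ξ : V => (chi 0 : 𝓢(V, ℂ)) (t • ξ)) x)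
        rw [h, ← SchwartzMap.fourierInv_coe]
        have h2 : Continuous (fun x : V => (𝓕⁻ (chi 0 : 𝓢(V, ℂ))) (t⁻¹ • x)) :=
          (𝓕⁻ (chi 0 : 𝓢(V, ℂ))).continuous.comp (continuous_const_smul t⁻¹)
        exact h2.const_smul ((t ^ Module.finrank ℝ V)⁻¹ : ℝ)
      exact this.aestronglyMeasurable
    · refine mul_le_mul' ?_ le_rfl
      refine le_trans (lint_scale_le _ ht) ?_
      rw [max_eq_left ht1]
      simp

lemma HH_large (k : ℕ) (φ : 𝓢(V, ℂ)) : ∃ C : ℝ≥0∞, C ≠ ⊤ ∧ ∀ t : ℝ, 1 ≤ t →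
    ∫⁻ x, wt x * ‖HH k φ t x‖ₑ ≤ ENNReal.ofReal ((t ^ (2 * k))⁻¹ * t ^ 4) * C := by
  refine ⟨(∫⁻ x, wt x * ‖𝓕⁻ ((chi k : 𝓢(V, ℂ)) : V → ℂ) x‖ₑ) * ∫⁻ x, wt x * ‖φ x‖ₑ, ?_, ?_⟩
  · apply ENNReal.mul_ne_top
    · have := wt_lint_schwartz (𝓕⁻ (chi k : 𝓢(V, ℂ)))
      rw [SchwartzMap.fourierInv_coe] at this
      exact this.ne
    · exact (wt_lint_schwartz φ).ne
  · intro t ht1
    have ht : 0 < t := by linarith
    have hb : Integrable (fun ξ : V => (chi k : 𝓢(V, ℂ)) (t • ξ)) :=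
      (integrable_comp_smul_iff volume _ ht.ne').mpr (chi k).integrable
    have e : ∀ x, HH k φ t x = ((t ^ (2 * k))⁻¹ : ℝ) •
        ∫ y, φ y * 𝓕⁻ (fun ξ : V => (chi k : 𝓢(V, ℂ)) (t • ξ)) (x - y) := by
      intro x
      rw [← conv_inv hb φ.integrable]
      unfold HH
      rw [Real.fourierInv_eq, Real.fourierInv_eq, ← integral_smul]
      apply integral_congr_ae
      refine Eventually.of_forall fun ξ => ?_
      simp only
      rw [chi_apply, norm_smul, Real.norm_eq_abs, abs_of_pos ht, smul_comm]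
      congr 1
      rw [Complex.real_smul, ← mul_assoc, ← Complex.ofReal_mul]
      congr 2
      rw [mul_pow, mul_pow, ← pow_mul, ← pow_mul]
      field_simp
    have e2 : ∀ x, wt x * ‖HH k φ t x‖ₑ = ENNReal.ofReal ((t ^ (2 * k))⁻¹) *
        (wt x * ‖∫ y, φ y * 𝓕⁻ (fun ξ : V => (chi k : 𝓢(V, ℂ)) (t • ξ)) (x - y)‖ₑ) := by
      intro x
      rw [e, enorm_smul, Real.enorm_of_nonneg (by positivity)]
      ring
    simp_rw [e2]
    rw [lintegral_const_mul' _ _ ENNReal.ofReal_ne_top, ENNReal.ofReal_mul (by positivity),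
      mul_assoc]
    gcongr
    refine le_trans (lint_conv_le ?_ φ.continuous.aestronglyMeasurable) ?_
    · have : Continuous (𝓕⁻ (fun ξ : V => (chi k : 𝓢(V, ℂ)) (t • ξ))) := by
        have h : (fun x => 𝓕⁻ (fun ξ : V => (chi k : 𝓢(V, ℂ)) (t • ξ)) x) =
            fun x => ((t ^ Module.finrank ℝ V)⁻¹ : ℝ) • 𝓕⁻ ((chi k : 𝓢(V, ℂ)) : V → ℂ) (t⁻¹ • x) := by
          ext x
          exact fourierInv_scale _ ht x
        change Continuous (fun x => 𝓕⁻ (fun ξ : V => (chi k : 𝓢(V, ℂ)) (t • ξ)) x)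
        rw [h, ← SchwartzMap.fourierInv_coe]
        have h2 : Continuous (fun x : V => (𝓕⁻ (chi k : 𝓢(V, ℂ))) (t⁻¹ • x)) :=
          (𝓕⁻ (chi k : 𝓢(V, ℂ))).continuous.comp (continuous_const_smul t⁻¹)
        exact h2.const_smul ((t ^ Module.finrank ℝ V)⁻¹ : ℝ)
      exact this.aestronglyMeasurable
    · rw [← mul_assoc]
      refine mul_le_mul' ?_ le_rfl
      refine le_trans (lint_scale_le _ ht) ?_
      rw [max_eq_right ht1, ENNReal.ofReal_pow ht.le]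

lemma measurable_HH (k : ℕ) (φ : 𝓢(V, ℂ)) :
    StronglyMeasurable (fun p : V × ℝ => HH k φ p.2 p.1) := by
  unfold HH
  simp_rw [Real.fourierInv_eq]
  refine StronglyMeasurable.integral_prod_right
    (f := fun (p : V × ℝ) (ξ : V) => 𝐞 (inner ℝ ξ p.1) •
      (((hcut (p.2 * ‖ξ‖) * (‖ξ‖ ^ 2) ^ k : ℝ) : ℂ) * 𝓕 (φ : V → ℂ) ξ)) ?_
  apply Continuous.stronglyMeasurable
  have h1 : Continuous (𝓕 (φ : V → ℂ)) := by
    rw [← SchwartzMap.fourier_coe]
    exact (𝓕 φ).continuous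
  have h2 : Continuous (fun q : (V × ℝ) × V => 𝐞 (inner ℝ q.2 q.1.1)) :=
    Real.continuous_fourierChar.comp (by fun_prop)
  have h3 : Continuous (fun q : (V × ℝ) × V => ((hcut (q.1.2 * ‖q.2‖) * (‖q.2‖ ^ 2) ^ k : ℝ) : ℂ)) := by
    apply Complex.continuous_ofReal.comp
    exact (continuous_hcut.comp (by fun_prop)).mul (by fun_prop)
  exact h2.smul (h3.mul (h1.comp continuous_snd))

lemma int_hcut : IntegrableOn hcut (Ioi 0) ∧ 0 < ∫ t in Ioi (0 : ℝ), hcut t := by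
  have hs : HasCompactSupport hcut := by
    refine HasCompactSupport.intro (isCompact_closedBall 0 2) (fun r hr => ?_)
    rw [mem_closedBall_zero_iff, not_le, Real.norm_eq_abs] at hr
    have : hcut r = hcut |r| := by
      unfold hcut
      rw [sq_abs]
    rw [this, hcut_zero hr.le]
  have hi : Integrable hcut := continuous_hcut.integrable_of_hasCompactSupport hs
  refine ⟨hi.integrableOn, ?_⟩
  have h1 : ∫ t in Ioc (0 : ℝ) 1, (1 : ℝ) ≤ ∫ t in Ioc (0 : ℝ) 1, hcut t := by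
    refine setIntegral_mono_on (integrableOn_const (hs := by simp)) hi.integrableOn
      measurableSet_Ioc ?_
    intro t ht
    rw [hcut_one ht.1.le ht.2]
  have h2 : ∫ t in Ioc (0 : ℝ) 1, hcut t ≤ ∫ t in Ioi (0 : ℝ), hcut t :=
    setIntegral_mono_set hi.integrableOn (Eventually.of_forall fun t => hcut_nonneg t)
      (Ioc_subset_Ioi_self).eventuallyLE
  simp at h1
  linarith

/-- Weighted integrability. -/
theorem wt_lint_odd [Nontrivial V] {k : ℕ} (hk : 3 ≤ k) (φ : 𝓢(V, ℂ)) :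
    ∫⁻ x : V, wt x * ‖𝓕⁻ (fun ξ : V => ((‖ξ‖ ^ (2 * k - 1) : ℝ) : ℂ) * 𝓕 (φ : V → ℂ) ξ) x‖ₑ < ⊤ := by
  obtain ⟨hci, hcp⟩ := int_hcut
  set Ch := ∫ t in Ioi (0 : ℝ), hcut t with hCh
  obtain ⟨C1, hC1, h1⟩ := HH_small k φ
  obtain ⟨C2, hC2, h2⟩ := HH_large k φ
  set N : ℝ → ℝ≥0∞ := fun t => ∫⁻ x, wt x * ‖HH k φ t x‖ₑ with hN
  -- the total is finite
  have hNint : ∫⁻ t in Ioi (0 : ℝ), N t < ⊤ := by
    rw [← Ioc_union_Ioi_eq_Ioi (zero_le_one' ℝ)]
    refine lt_of_le_of_lt (lintegral_union_le _ _ _) (ENNReal.add_lt_top.mpr ⟨?_, ?_⟩)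
    · refine lt_of_le_of_lt (setLIntegral_mono' measurableSet_Ioc
        (g := fun _ => C1) (fun t ht => h1 t ht.1 ht.2)) ?_
      rw [setLIntegral_const]
      simp only [Real.volume_Ioc]
      exact ENNReal.mul_lt_top hC1.lt_top ENNReal.ofReal_lt_top
    · refine lt_of_le_of_lt (setLIntegral_mono' measurableSet_Ioi
        (g := fun t => ENNReal.ofReal (t ^ (-2 : ℝ)) * C2) (fun t ht => ?_)) ?_
      · have ht : (1 : ℝ) < t := ht
        refine le_trans (h2 t ht.le) ?_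
        gcongr
        have e1 : t ^ (2 * k) = t ^ 6 * t ^ (2 * k - 6) := by
          rw [← pow_add]
          congr 1
          omega
        have e2 : 1 ≤ t ^ (2 * k - 6) := one_le_pow₀ ht.le
        have e3 : t ^ (-2 : ℝ) = (t ^ 2)⁻¹ := by
          rw [Real.rpow_neg (by linarith)]
          norm_num
        rw [e3, e1]
        have ht0 : 0 < t := by linarith
        rw [mul_inv, mul_assoc, mul_comm (t ^ (2 * k - 6))⁻¹, ← mul_assoc]
        calc (t ^ 6)⁻¹ * t ^ 4 * (t ^ (2 * k - 6))⁻¹ ≤ (t ^ 6)⁻¹ * t ^ 4 * 1 := by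
              gcongr
              exact inv_le_one_of_one_le₀ e2
          _ = (t ^ 2)⁻¹ := by
              field_simp
      · rw [lintegral_mul_const' _ _ hC2]
        apply ENNReal.mul_lt_top _ hC2.lt_top
        have := integrableOn_Ioi_rpow_of_lt (a := -2) (by norm_num) (zero_lt_one' ℝ)
        exact this.lintegral_lt_top
  -- the representation
  set ψ : V → ℂ := 𝓕⁻ (fun ξ : V => ((‖ξ‖ ^ (2 * k - 1) : ℝ) : ℂ) * 𝓕 (φ : V → ℂ) ξ) with hψ
  have hφc : Continuous (𝓕 (φ : V → ℂ)) := by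
    rw [← SchwartzMap.fourier_coe]
    exact (𝓕 φ).continuous
  have hφi : Integrable (fun ξ : V => ‖ξ‖ ^ (2 * k - 1) * ‖𝓕 (φ : V → ℂ) ξ‖) := by
    have := (𝓕 φ).integrable_pow_mul (volume : Measure V) (2 * k - 1)
    rw [SchwartzMap.fourier_coe] at this
    exact this
  have hin : ∀ ξ : V, ξ ≠ 0 → IntegrableOn (fun t : ℝ => hcut (t * ‖ξ‖) * (‖ξ‖ ^ 2) ^ k) (Ioi 0) ∧
      ∫ t in Ioi (0 : ℝ), hcut (t * ‖ξ‖) * (‖ξ‖ ^ 2) ^ k = Ch * ‖ξ‖ ^ (2 * k - 1) := by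
    intro ξ hξ
    have hξ' : 0 < ‖ξ‖ := norm_pos_iff.mpr hξ
    constructor
    · apply Integrable.mul_const
      have := (integrableOn_Ioi_comp_mul_right_iff hcut 0 hξ').mpr (by simpa using hci)
      exact this
    · rw [integral_mul_const, integral_comp_mul_right_Ioi hcut 0 hξ', zero_mul, smul_eq_mul, ← hCh,
        ← pow_mul]
      have : ‖ξ‖ ^ (2 * k) = ‖ξ‖ * ‖ξ‖ ^ (2 * k - 1) := by
        rw [← pow_succ']
        congr 1
        omega
      rw [this]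
      field_simp
  have hrep : ∀ x, (Ch : ℂ) * ψ x = ∫ t in Ioi (0 : ℝ), HH k φ t x := by
    intro x
    set f : V → ℝ → ℂ := fun ξ t => 𝐞 (inner ℝ ξ x) •
      (((hcut (t * ‖ξ‖) * (‖ξ‖ ^ 2) ^ k : ℝ) : ℂ) * 𝓕 (φ : V → ℂ) ξ) with hf
    have hfi : Integrable (Function.uncurry f) (volume.prod (volume.restrict (Ioi (0 : ℝ)))) := by
      rw [integrable_prod_iff]
      · constructor
        · filter_upwards [ae_ne_zero] with ξ hξ
          have h5 := ((hin ξ hξ).1.ofReal (𝕜 := ℂ)).mul_const (𝓕 (φ : V → ℂ) ξ)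
          exact h5.smul ((𝐞 (inner ℝ ξ x) : Circle) : ℂ)
        · refine (hφi.const_mul Ch).congr ?_
          filter_upwards [ae_ne_zero] with ξ hξ
          have h4 : ∀ t : ℝ, ‖Function.uncurry f (ξ, t)‖ =
              hcut (t * ‖ξ‖) * (‖ξ‖ ^ 2) ^ k * ‖𝓕 (φ : V → ℂ) ξ‖ := by
            intro t
            have := hcut_nonneg (t * ‖ξ‖)
            simp only [Function.uncurry, hf]
            rw [Circle.norm_smul, norm_mul, Complex.norm_real, Real.norm_eq_abs,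
              abs_of_nonneg (by positivity)]
          simp_rw [h4]
          rw [integral_mul_const, (hin ξ hξ).2]
          ring
      · apply Continuous.aestronglyMeasurable
        have g2 : Continuous (fun q : V × ℝ => 𝐞 (inner ℝ q.1 x)) :=
          Real.continuous_fourierChar.comp (by fun_prop)
        have g3 : Continuous (fun q : V × ℝ =>
            ((hcut (q.2 * ‖q.1‖) * (‖q.1‖ ^ 2) ^ k : ℝ) : ℂ)) := by
          apply Complex.continuous_ofReal.comp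
          exact (continuous_hcut.comp (by fun_prop)).mul (by fun_prop)
        exact g2.smul (g3.mul (hφc.comp continuous_fst))
    have e1 : ∫ t in Ioi (0 : ℝ), HH k φ t x = ∫ t in Ioi (0 : ℝ), ∫ ξ, f ξ t := by
      apply integral_congr_ae
      refine Eventually.of_forall fun t => ?_
      simp only [HH, hf]
      rw [Real.fourierInv_eq]
    rw [e1, ← integral_integral_swap hfi, hψ, Real.fourierInv_eq, ← integral_const_mul]
    apply integral_congr_ae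
    filter_upwards [ae_ne_zero] with ξ hξ
    simp only [hf, Circle.smul_def, smul_eq_mul]
    rw [integral_const_mul, integral_mul_const, integral_complex_ofReal, (hin ξ hξ).2]
    push_cast
    ring
  have hle : ∀ x, wt x * ‖ψ x‖ₑ ≤ ‖Ch⁻¹‖ₑ * ∫⁻ t in Ioi (0 : ℝ), wt x * ‖HH k φ t x‖ₑ := by
    intro x
    have e : ψ x = ((Ch⁻¹ : ℝ) : ℂ) * ∫ t in Ioi (0 : ℝ), HH k φ t x := by
      rw [← hrep x, ← mul_assoc, ← Complex.ofReal_mul, inv_mul_cancel₀ hcp.ne', Complex.ofReal_one,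
        one_mul]
    rw [lintegral_const_mul' _ _ (by simp [wt]), e, enorm_mul]
    have e2 : ‖((Ch⁻¹ : ℝ) : ℂ)‖ₑ = ‖Ch⁻¹‖ₑ := by
      rw [← ofReal_norm, ← ofReal_norm, Complex.norm_real]
    rw [e2]
    calc wt x * (‖Ch⁻¹‖ₑ * ‖∫ t in Ioi (0 : ℝ), HH k φ t x‖ₑ)
        ≤ wt x * (‖Ch⁻¹‖ₑ * ∫⁻ t in Ioi (0 : ℝ), ‖HH k φ t x‖ₑ) := by
          gcongr
          exact enorm_integral_le_lintegral_enorm _
      _ = _ := by ring
  refine lt_of_le_of_lt (lintegral_mono hle) ?_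
  rw [lintegral_const_mul' _ _ (by simp)]
  apply ENNReal.mul_lt_top (by simp)
  rw [lintegral_lintegral_swap]
  · exact hNint
  · exact (measurable_wt.comp measurable_fst).aemeasurable.mul
      (measurable_HH k φ).measurable.enorm.aemeasurable

end Pool.Agent.QCurv
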