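import Pool.Agent.Lib.MP_83d6ff_an.Weight

/-!
The map on radial probability densities whose fixed point gives the solution: estimates.
-/

namespace Pool.Agent.QCurv

open MeasureTheory Real Set Metric Filter
open scoped ENNReal NNReal Topology

variable {m : ℕ}

lemma stronglyMeasurable_pot {F : ℝ → ℝ} (hF : Measurable F) : StronglyMeasurable (pot m F) := by
  unfold pot
  refine StronglyMeasurable.integral_prod_right
    (f := fun (r : ℝ) (y : Ed m) => ker (r • e0) y * F ‖y‖) ?_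
  apply Measurable.stronglyMeasurable
  unfold ker
  have h1 : Measurable (fun p : ℝ × Ed m => F ‖p.2‖) := hF.comp (measurable_norm.comp measurable_snd)
  have h2 : Measurable (fun p : ℝ × Ed m => Real.log ((1 + ‖p.2‖) / ‖p.1 • (e0 : Ed m) - p.2‖)) := by
    fun_prop
  exact h2.mul h1

/-- Rotation invariance of the potential of a radial density. -/
lemma pot_norm (F : ℝ → ℝ) (x : Ed m) : pot m F ‖x‖ = ∫ y : Ed m, ker x y * F ‖y‖ := by
  have hv : ‖(‖x‖ • (e0 : Ed m))‖ = ‖x‖ := by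
    rw [norm_smul, norm_e0, mul_one, norm_norm]
  set R := (Submodule.span ℝ {(‖x‖ • (e0 : Ed m)) - x})ᗮ.reflection with hR
  have hRv : R (‖x‖ • (e0 : Ed m)) = x := Submodule.reflection_sub hv
  unfold pot
  rw [← R.measurePreserving.integral_comp R.toHomeomorph.measurableEmbedding
    (fun y => ker x y * F ‖y‖)]
  apply integral_congr_ae
  refine Eventually.of_forall fun y => ?_
  simp only [LinearIsometryEquiv.norm_map]
  congr 1
  unfold ker
  have : x - R y = R (‖x‖ • (e0 : Ed m) - y) := by rw [map_sub, hRv]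
  rw [this, LinearIsometryEquiv.norm_map, LinearIsometryEquiv.norm_map]

/-- admissible radial densities -/
structure Adm (m : ℕ) (ε : ℝ) (F : ℝ → ℝ) : Prop where
  meas : Measurable F
  int : Integrable (fun y : Ed m => F ‖y‖)
  nonneg : ∀ᵐ y : Ed m, 0 ≤ F ‖y‖
  mass : ∫ y : Ed m, F ‖y‖ = 1
  small : ∫ y : Ed m, (if ‖y‖ < 1 / 2 then F ‖y‖ else 0) ≤ ε

/-- the unnormalised new density -/
noncomputable def den (m : ℕ) (N a b l : ℝ) (F : ℝ → ℝ) (r : ℝ) : ℝ :=
  r ^ a * Real.exp (N * (b * pot m F r + l * (2 * r ^ 2 - r ^ 4)))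

lemma den_nonneg {N a b l : ℝ} {F : ℝ → ℝ} {r : ℝ} (hr : 0 ≤ r) : 0 ≤ den m N a b l F r := by
  unfold den
  positivity

lemma measurable_den {N a b l : ℝ} {F : ℝ → ℝ} (hF : Measurable F) :
    Measurable (den m N a b l F) := by
  unfold den
  have h := (stronglyMeasurable_pot (m := m) hF).measurable
  exact (measurable_id.pow_const _).mul (by fun_prop)

section

variable {δ : ℝ} (hδ : 0 < δ) (hδ1 : δ < 1) {N a b l ε : ℝ} (hN : 0 < N) (hb : 0 < b)
include hδ hδ1 hN hb

lemma den_le {F : ℝ → ℝ} (hF : Adm m ε F) {r : ℝ} (hr : 0 < r) :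
    den m N a b l F r ≤ Real.exp (N * l) * (Real.exp (N * b * (Real.log 3 + avg m δ / δ)) *
      wU a (N * b * ε) r * Real.exp (-(N * l * (r ^ 2 - 1) ^ 2))) := by
  have h1 := pot_le hδ hδ1 hF.meas hF.int hF.nonneg hF.mass hF.small hr
  have hpos : 0 < 1 + 1 / r := by positivity
  have e1 : (1 + 1 / r) ^ (N * b * ε) = Real.exp (N * b * (ε * Real.log (1 + 1 / r))) := by
    rw [Real.rpow_def_of_pos hpos]
    congr 1
    ring
  have e2 : Real.exp (N * l) * (Real.exp (N * b * (Real.log 3 + avg m δ / δ)) *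
      (r ^ a * (1 + 1 / r) ^ (N * b * ε)) * Real.exp (-(N * l * (r ^ 2 - 1) ^ 2))) =
      r ^ a * Real.exp (N * l + N * b * (Real.log 3 + avg m δ / δ) +
        N * b * (ε * Real.log (1 + 1 / r)) + -(N * l * (r ^ 2 - 1) ^ 2)) := by
    rw [e1, Real.exp_add, Real.exp_add, Real.exp_add]
    ring
  unfold wU den
  rw [e2]
  apply mul_le_mul_of_nonneg_left _ (Real.rpow_nonneg hr.le _)
  apply Real.exp_le_exp.mpr
  have h2 := mul_le_mul_of_nonneg_left h1 (mul_pos hN hb).le
  nlinarith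

lemma le_den {F : ℝ → ℝ} (hF : Adm m ε F) {r : ℝ} (hr : 0 < r) :
    Real.exp (N * l) * (r ^ a * (1 + r) ^ (-(N * b)) * Real.exp (-(N * l * (r ^ 2 - 1) ^ 2))) ≤
      den m N a b l F r := by
  have h1 := pot_ge hδ hδ1 hF.meas hF.int hF.nonneg hF.mass hr
  have hpos : 0 < 1 + r := by positivity
  have e1 : (1 + r) ^ (-(N * b)) = Real.exp (N * b * (-Real.log (1 + r))) := by
    rw [Real.rpow_def_of_pos hpos]
    congr 1
    ring
  have e2 : Real.exp (N * l) * (r ^ a * (1 + r) ^ (-(N * b)) *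
      Real.exp (-(N * l * (r ^ 2 - 1) ^ 2))) =
      r ^ a * Real.exp (N * l + N * b * (-Real.log (1 + r)) + -(N * l * (r ^ 2 - 1) ^ 2)) := by
    rw [e1, Real.exp_add, Real.exp_add]
    ring
  unfold den
  rw [e2]
  apply mul_le_mul_of_nonneg_left _ (Real.rpow_nonneg hr.le _)
  apply Real.exp_le_exp.mpr
  have h2 := mul_le_mul_of_nonneg_left h1 (mul_pos hN hb).le
  nlinarith

lemma int_den (hε : 0 ≤ ε) (hl : 1 ≤ l) (h : N * b * ε + δ < m + 2 + a) {F : ℝ → ℝ}
    (hF : Adm m ε F) :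
    Integrable (fun x : Ed m => (1 + th δ ‖x‖) * den m N a b l F ‖x‖) := by
  have hp : 0 ≤ N * b * ε := by positivity
  have h1 := (int_weight (m := m) (a := a) hδ hp hN h).const_mul
    (Real.exp (N * l) * Real.exp (N * b * (Real.log 3 + avg m δ / δ)))
  refine h1.mono' ?_ ?_
  · apply Measurable.aestronglyMeasurable
    exact (measurable_const.add ((measurable_th δ).comp measurable_norm)).mul
      ((measurable_den hF.meas).comp measurable_norm)
  · have hne : ∀ᵐ x : Ed m, x ≠ 0 := by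
      rw [ae_iff]
      simp
    filter_upwards [hne] with x hx
    have hx : 0 < ‖x‖ := norm_pos_iff.mpr hx
    have h2 := den_le (l := l) (a := a) hδ hδ1 hN hb hF hx
    have h3 := th_nonneg (δ := δ) hx
    have h4 := den_nonneg (m := m) (N := N) (a := a) (b := b) (l := l) (F := F) hx.le
    have h5 := wU_nonneg (a := a) (p := N * b * ε) hx.le
    rw [Real.norm_eq_abs, abs_of_nonneg (by positivity)]
    have h6 : Real.exp (-(N * l * (‖x‖ ^ 2 - 1) ^ 2)) ≤ Real.exp (-(N * (‖x‖ ^ 2 - 1) ^ 2)) := by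
      apply Real.exp_le_exp.mpr
      have := mul_le_mul_of_nonneg_right hl (mul_nonneg hN.le (sq_nonneg (‖x‖ ^ 2 - 1)))
      nlinarith
    calc (1 + th δ ‖x‖) * den m N a b l F ‖x‖
        ≤ (1 + th δ ‖x‖) * (Real.exp (N * l) * (Real.exp (N * b * (Real.log 3 + avg m δ / δ)) *
      wU a (N * b * ε) ‖x‖ * Real.exp (-(N * l * (‖x‖ ^ 2 - 1) ^ 2)))) := by gcongr
      _ ≤ (1 + th δ ‖x‖) * (Real.exp (N * l) * (Real.exp (N * b * (Real.log 3 + avg m δ / δ)) *
      wU a (N * b * ε) ‖x‖ * Real.exp (-(N * (‖x‖ ^ 2 - 1) ^ 2)))) := by gcongr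
      _ = _ := by ring

lemma int_den' (hε : 0 ≤ ε) (hl : 1 ≤ l) (h : N * b * ε + δ < m + 2 + a) {F : ℝ → ℝ}
    (hF : Adm m ε F) :
    Integrable (fun x : Ed m => den m N a b l F ‖x‖) := by
  refine (int_den (a := a) hδ hδ1 hN hb hε hl h hF).mono' ?_ (Eventually.of_forall fun x => ?_)
  · exact ((measurable_den hF.meas).comp measurable_norm).aestronglyMeasurable
  · have h3 := th_nonneg' (δ := δ) (norm_nonneg x)
    have h4 := den_nonneg (m := m) (N := N) (a := a) (b := b) (l := l) (F := F) (norm_nonneg x)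
    rw [Real.norm_eq_abs, abs_of_nonneg h4]
    nlinarith

lemma den_mass_pos (hε : 0 ≤ ε) (hl : 1 ≤ l) (h : N * b * ε + δ < m + 2 + a) {F : ℝ → ℝ}
    (hF : Adm m ε F) : 0 < ∫ x : Ed m, den m N a b l F ‖x‖ := by
  rw [integral_pos_iff_support_of_nonneg (fun x => den_nonneg (norm_nonneg x))
    (int_den' hδ hδ1 hN hb hε hl h hF)]
  have hopen : IsOpen {x : Ed m | x ≠ 0} := isOpen_ne
  refine lt_of_lt_of_le (hopen.measure_pos volume ⟨e0, ?_⟩) (measure_mono ?_)
  · intro h
    have := norm_e0 (m := m)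
    rw [h] at this
    simp at this
  · intro x hx
    have : 0 < ‖x‖ := norm_pos_iff.mpr hx
    rw [Function.mem_support]
    unfold den
    positivity

/-- The mass and the variation are small compared with the total mass. -/
lemma conc_den (hε : 0 ≤ ε) (hl : 1 ≤ l) (h : N * b * ε + δ < m + 2 + a) {τ : ℝ} (hτ : 0 < τ)
    (hlam : ∫ x : Ed m, Real.exp (N * b * (Real.log 3 + avg m δ / δ)) *
        ((th δ ‖x‖ + (if ‖x‖ < 1 / 2 then 1 else 0)) * wU a (N * b * ε) ‖x‖) *
        Real.exp (-(N * l * (‖x‖ ^ 2 - 1) ^ 2)) ≤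
      τ * ∫ x : Ed m, ‖x‖ ^ a * (1 + ‖x‖) ^ (-(N * b)) * Real.exp (-(N * l * (‖x‖ ^ 2 - 1) ^ 2)))
    {F : ℝ → ℝ} (hF : Adm m ε F) :
    ∫ x : Ed m, (th δ ‖x‖ + (if ‖x‖ < 1 / 2 then 1 else 0)) * den m N a b l F ‖x‖ ≤
      τ * ∫ x : Ed m, den m N a b l F ‖x‖ := by
  have hne : ∀ᵐ x : Ed m, x ≠ 0 := by
    rw [ae_iff]
    simp
  have hp : 0 ≤ N * b * ε := by positivity
  have i1 : Integrable (fun x : Ed m => (th δ ‖x‖ + (if ‖x‖ < 1 / 2 then 1 else 0)) *
      den m N a b l F ‖x‖) := by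
    refine (int_den (a := a) (l := l) hδ hδ1 hN hb hε hl h hF).mono' ?_
      (Eventually.of_forall fun x => ?_)
    · apply Measurable.aestronglyMeasurable
      exact (Measurable.add ((measurable_th δ).comp measurable_norm)
        (Measurable.ite (measurableSet_lt measurable_norm measurable_const) measurable_const
          measurable_const)).mul ((measurable_den hF.meas).comp measurable_norm)
    · have h3 := th_nonneg' (δ := δ) (norm_nonneg x)
      have h4 := den_nonneg (m := m) (N := N) (a := a) (b := b) (l := l) (F := F) (norm_nonneg x)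
      have h6 : (0 : ℝ) ≤ (if ‖x‖ < 1 / 2 then 1 else 0) := by split_ifs <;> norm_num
      have h7 : (if ‖x‖ < 1 / 2 then 1 else 0) ≤ (1 : ℝ) := by split_ifs <;> norm_num
      rw [Real.norm_eq_abs, abs_of_nonneg (by positivity)]
      apply mul_le_mul_of_nonneg_right _ h4
      linarith
  have i2 : Integrable (fun x : Ed m => Real.exp (N * b * (Real.log 3 + avg m δ / δ)) *
        ((th δ ‖x‖ + (if ‖x‖ < 1 / 2 then 1 else 0)) * wU a (N * b * ε) ‖x‖) *
        Real.exp (-(N * l * (‖x‖ ^ 2 - 1) ^ 2))) := by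
    have h1 := (int_weight (m := m) (a := a) (N := N * l) hδ hp (by positivity) h).const_mul
      (Real.exp (N * b * (Real.log 3 + avg m δ / δ)))
    refine h1.mono' ?_ (Eventually.of_forall fun x => ?_)
    · apply Measurable.aestronglyMeasurable
      refine Measurable.mul (measurable_const.mul (Measurable.mul (Measurable.add ?_ ?_) ?_)) ?_
      · exact (measurable_th δ).comp measurable_norm
      · exact Measurable.ite (measurableSet_lt measurable_norm measurable_const) measurable_const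
          measurable_const
      · exact (measurable_wU _ _).comp measurable_norm
      · fun_prop
    · have h2 := th_nonneg' (δ := δ) (norm_nonneg x)
      have h3 := wU_nonneg (a := a) (p := N * b * ε) (norm_nonneg x)
      have h6 : (0 : ℝ) ≤ (if ‖x‖ < 1 / 2 then 1 else 0) := by split_ifs <;> norm_num
      have h7 : (if ‖x‖ < 1 / 2 then 1 else 0) ≤ (1 : ℝ) := by split_ifs <;> norm_num
      rw [Real.norm_eq_abs, abs_of_nonneg (by positivity)]
      calc Real.exp (N * b * (Real.log 3 + avg m δ / δ)) *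
            ((th δ ‖x‖ + (if ‖x‖ < 1 / 2 then 1 else 0)) * wU a (N * b * ε) ‖x‖) *
            Real.exp (-(N * l * (‖x‖ ^ 2 - 1) ^ 2))
          ≤ Real.exp (N * b * (Real.log 3 + avg m δ / δ)) *
            ((th δ ‖x‖ + 1) * wU a (N * b * ε) ‖x‖) *
            Real.exp (-(N * l * (‖x‖ ^ 2 - 1) ^ 2)) := by gcongr
        _ = _ := by ring
  have i3 : Integrable (fun x : Ed m => ‖x‖ ^ a * (1 + ‖x‖) ^ (-(N * b)) *
      Real.exp (-(N * l * (‖x‖ ^ 2 - 1) ^ 2))) :=
    int_lower (by positivity) (by positivity) (by linarith)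
  calc ∫ x : Ed m, (th δ ‖x‖ + (if ‖x‖ < 1 / 2 then 1 else 0)) * den m N a b l F ‖x‖
      ≤ ∫ x : Ed m, Real.exp (N * l) * (Real.exp (N * b * (Real.log 3 + avg m δ / δ)) *
        ((th δ ‖x‖ + (if ‖x‖ < 1 / 2 then 1 else 0)) * wU a (N * b * ε) ‖x‖) *
        Real.exp (-(N * l * (‖x‖ ^ 2 - 1) ^ 2))) := by
        refine integral_mono_ae i1 (i2.const_mul _) ?_
        filter_upwards [hne] with x hx
        have hx : 0 < ‖x‖ := norm_pos_iff.mpr hx
        have h2 := den_le (l := l) (a := a) hδ hδ1 hN hb hF hx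
        have h3 := th_nonneg (δ := δ) hx
        have h6 : (0 : ℝ) ≤ (if ‖x‖ < 1 / 2 then 1 else 0) := by split_ifs <;> norm_num
        have := mul_le_mul_of_nonneg_left h2 (add_nonneg h3 h6)
        calc _ ≤ _ := this
          _ = _ := by ring
    _ ≤ Real.exp (N * l) * (τ * ∫ x : Ed m, ‖x‖ ^ a * (1 + ‖x‖) ^ (-(N * b)) *
          Real.exp (-(N * l * (‖x‖ ^ 2 - 1) ^ 2))) := by
        rw [integral_const_mul]
        exact mul_le_mul_of_nonneg_left hlam (Real.exp_nonneg _)
    _ = τ * ∫ x : Ed m, Real.exp (N * l) * (‖x‖ ^ a * (1 + ‖x‖) ^ (-(N * b)) *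
          Real.exp (-(N * l * (‖x‖ ^ 2 - 1) ^ 2))) := by
        rw [integral_const_mul]
        ring
    _ ≤ _ := by
        apply mul_le_mul_of_nonneg_left _ hτ.le
        refine integral_mono_ae (i3.const_mul _) (int_den' hδ hδ1 hN hb hε hl h hF) ?_
        filter_upwards [hne] with x hx
        exact le_den hδ hδ1 hN hb hF (norm_pos_iff.mpr hx)

end

end Pool.Agent.QCurv
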