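import Pool.Agent.Lib.MP_83d6ff_an.Lap

/-!
For even `n` the multiplier of symbol `(2 π |ξ|) ^ n` is the polyharmonic operator.
-/

namespace Pool.Agent.QCurv

open MeasureTheory Real Set Filter FourierTransform
open scoped ENNReal NNReal Topology InnerProductSpace SchwartzMap ContDiff Laplacian

variable {V : Type*} [NormedAddCommGroup V] [InnerProductSpace ℝ V] [FiniteDimensional ℝ V]
  [MeasurableSpace V] [BorelSpace V]

lemma fourier_laplacian (f : 𝓢(V, ℂ)) (ξ : V) :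
    𝓕 ((Δ f : 𝓢(V, ℂ)) : V → ℂ) ξ = (((-1) * (2 * π * ‖ξ‖) ^ 2 : ℝ) : ℂ) * 𝓕 (f : V → ℂ) ξ := by
  have hg : (fun ξ : V => ‖ξ‖ ^ 2).HasTemperateGrowth := by fun_prop
  have h1 : 𝓕 (Δ f : 𝓢(V, ℂ)) = -(2 * π) ^ 2 •
      SchwartzMap.smulLeftCLM ℂ (fun ξ : V => ‖ξ‖ ^ 2) (𝓕 f) := by
    rw [SchwartzMap.laplacian_eq_fourierMultiplierCLM, FourierTransform.fourier_smul,
      SchwartzMap.fourierMultiplierCLM_apply, FourierTransform.fourier_fourierInv_eq]
  have h2 := DFunLike.congr_fun h1 ξ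
  rw [← SchwartzMap.fourier_coe, h2, ← SchwartzMap.fourier_coe]
  rw [_root_.smul_apply, SchwartzMap.smulLeftCLM_apply_apply hg]
  simp only [Complex.real_smul]
  push_cast
  ring

lemma fourier_laplacian_iterate (k : ℕ) (f : 𝓢(V, ℂ)) (ξ : V) :
    𝓕 (((Laplacian.laplacian : 𝓢(V, ℂ) → 𝓢(V, ℂ))^[k] f : 𝓢(V, ℂ)) : V → ℂ) ξ =
      (((-1) ^ k * (2 * π * ‖ξ‖) ^ (2 * k) : ℝ) : ℂ) * 𝓕 (f : V → ℂ) ξ := by
  induction k with
  | zero => simp
  | succ k ih =>
    rw [Function.iterate_succ_apply', fourier_laplacian, ih]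
    push_cast
    ring

omit [MeasurableSpace V] [BorelSpace V] in
lemma coe_laplacian_iterate {F : Type*} [NormedAddCommGroup F] [NormedSpace ℝ F] (k : ℕ)
    (f : 𝓢(V, F)) :
    (((Laplacian.laplacian : 𝓢(V, F) → 𝓢(V, F))^[k] f : 𝓢(V, F)) : V → F) =
      (Laplacian.laplacian : (V → F) → (V → F))^[k] (f : V → F) := by
  induction k with
  | zero => rfl
  | succ k ih =>
    rw [Function.iterate_succ_apply', Function.iterate_succ_apply', ← ih]
    ext x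
    exact SchwartzMap.laplacian_apply _ x

omit [MeasurableSpace V] [BorelSpace V] in
lemma laplacian_ofReal (f : 𝓢(V, ℝ)) :
    Δ (fun x => ((f x : ℝ) : ℂ)) = fun x => (((Δ f : 𝓢(V, ℝ)) x : ℝ) : ℂ) := by
  ext x
  have h := ContDiffAt.laplacian_CLM_comp_left (l := Complex.ofRealCLM) (f := (f : V → ℝ)) (x := x)
    ((f.smooth 2).contDiffAt)
  rw [SchwartzMap.laplacian_apply]
  exact h

omit [MeasurableSpace V] [BorelSpace V] in
lemma laplacian_iterate_ofReal (k : ℕ) (f : 𝓢(V, ℝ)) :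
    (Laplacian.laplacian : (V → ℂ) → (V → ℂ))^[k] (fun x => ((f x : ℝ) : ℂ)) =
      fun x => ((((Laplacian.laplacian : 𝓢(V, ℝ) → 𝓢(V, ℝ))^[k] f : 𝓢(V, ℝ)) x : ℝ) : ℂ) := by
  induction k with
  | zero => rfl
  | succ k ih =>
    rw [Function.iterate_succ_apply', ih, Function.iterate_succ_apply', laplacian_ofReal]

/-- complexification of a test function -/
noncomputable def cplx {φ : V → ℝ} (h1 : ContDiff ℝ ∞ φ) (h2 : HasCompactSupport φ) : 𝓢(V, ℂ) :=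
  HasCompactSupport.toSchwartzMap (f := fun x => ((φ x : ℝ) : ℂ))
    (h2.comp_left (g := fun t : ℝ => (t : ℂ)) Complex.ofReal_zero)
    (Complex.ofRealCLM.contDiff.comp h1)

lemma fracLap_cplx {n : ℕ} (hn : Even n) {φ : V → ℝ} (h1 : ContDiff ℝ ∞ φ)
    (h2 : HasCompactSupport φ) (x : V) :
    fracLap n (cplx h1 h2) x = ((evenLap n φ x : ℝ) : ℂ) := by
  obtain ⟨k, hk⟩ := hn
  have hk2 : n / 2 = k := by omega
  set f : 𝓢(V, ℂ) := cplx h1 h2 with hf
  set g : 𝓢(V, ℝ) := h2.toSchwartzMap h1 with hg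
  have e0 : (f : V → ℂ) = fun x => ((g x : ℝ) : ℂ) := rfl
  have e1 : ∀ x, (((Laplacian.laplacian : 𝓢(V, ℂ) → 𝓢(V, ℂ))^[k] f : 𝓢(V, ℂ))) x =
      ((((Laplacian.laplacian : (V → ℝ) → (V → ℝ))^[k] φ) x : ℝ) : ℂ) := by
    intro x
    have h3 := congrFun (coe_laplacian_iterate k f) x
    rw [h3, e0, laplacian_iterate_ofReal]
    simp only
    congr 1
    exact congrFun (coe_laplacian_iterate k g) x
  have e2 : ((Laplacian.laplacian : 𝓢(V, ℂ) → 𝓢(V, ℂ))^[k] f) x =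
      (((-1) ^ k : ℝ) : ℂ) * fracLap n f x := by
    have h1 : ((Laplacian.laplacian : 𝓢(V, ℂ) → 𝓢(V, ℂ))^[k] f) x =
        𝓕⁻ (𝓕 (((Laplacian.laplacian : 𝓢(V, ℂ) → 𝓢(V, ℂ))^[k] f : 𝓢(V, ℂ)) : V → ℂ)) x := by
      rw [← SchwartzMap.fourier_coe, ← SchwartzMap.fourierInv_coe,
        FourierTransform.fourierInv_fourier_eq]
    rw [h1, fracLap_eq, Real.fourierInv_eq, Real.fourierInv_eq, ← integral_const_mul]
    apply integral_congr_ae
    refine Eventually.of_forall fun ξ => ?_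
    simp only [symb]
    rw [fourier_laplacian_iterate, mul_smul_comm, ← mul_assoc, ← Complex.ofReal_mul]
    congr 5
    omega
  rw [e1] at e2
  unfold evenLap
  rw [hk2]
  push_cast
  rw [e2]
  push_cast
  rw [← mul_assoc, ← mul_pow]
  norm_num

end Pool.Agent.QCurv
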