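import Pool.Agent.Lib.MP_83d6ff_an.Contr

/-!
Existence of the fixed point.
-/

namespace Pool.Agent.QCurv

open MeasureTheory Real Set Metric Filter
open scoped ENNReal NNReal Topology

variable {m : ℕ}

/-- law of the norm -/
noncomputable def nu (m : ℕ) : Measure ℝ := Measure.map (fun x : Ed m => ‖x‖) volume

lemma int_nu {F : ℝ → ℝ} (hF : Measurable F) :
    Integrable F (nu m) ↔ Integrable (fun x : Ed m => F ‖x‖) :=
  integrable_map_measure hF.aestronglyMeasurable measurable_norm.aemeasurable

lemma integral_nu {F : ℝ → ℝ} (hF : Measurable F) :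
    ∫ r, F r ∂(nu m) = ∫ x : Ed m, F ‖x‖ :=
  integral_map measurable_norm.aemeasurable hF.aestronglyMeasurable

lemma ae_nu {p : ℝ → Prop} (hp : ∀ᵐ r ∂(nu m), p r) : ∀ᵐ x : Ed m, p ‖x‖ :=
  ae_of_ae_map measurable_norm.aemeasurable hp

/-- the closed set of admissible densities -/
def KS (m : ℕ) (ε : ℝ) : Set (ℝ →₁[nu m] ℝ) :=
  {f | ‖f‖ ≤ 1 ∧ ∫ r, f r ∂(nu m) = 1 ∧ ∫ r in Iio (1 / 2 : ℝ), f r ∂(nu m) ≤ ε}

lemma isClosed_KS (ε : ℝ) : IsClosed (KS m ε) := by
  apply IsClosed.inter
  · exact isClosed_le continuous_norm continuous_const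
  apply IsClosed.inter
  · exact isClosed_eq continuous_integral continuous_const
  · exact isClosed_le (continuous_setIntegral _) continuous_const

lemma integral_half {F : ℝ → ℝ} (hF : Measurable F) :
    ∫ r in Iio (1 / 2 : ℝ), F r ∂(nu m) = ∫ x : Ed m, (if ‖x‖ < 1 / 2 then F ‖x‖ else 0) := by
  rw [← integral_indicator measurableSet_Iio, integral_nu (hF.indicator measurableSet_Iio)]
  rfl

lemma adm_of_mem {ε : ℝ} {f : ℝ →₁[nu m] ℝ} (hf : f ∈ KS m ε) : Adm m ε f := by
  have hm : Measurable f := (Lp.stronglyMeasurable f).measurable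
  have hi : Integrable f (nu m) := L1.integrable_coeFn f
  obtain ⟨h1, h2, h3⟩ := hf
  refine ⟨hm, (int_nu hm).mp hi, ?_, ?_, ?_⟩
  · have h4 : ∫ r, (‖f r‖ - f r) ∂(nu m) = 0 := by
      apply le_antisymm
      · rw [integral_sub hi.norm hi, h2, ← L1.norm_eq_integral_norm]
        linarith
      · exact integral_nonneg fun r => sub_nonneg.mpr (Real.le_norm_self _)
    rw [integral_eq_zero_iff_of_nonneg (fun r => sub_nonneg.mpr (Real.le_norm_self _))
      (hi.norm.sub hi)] at h4
    refine ae_nu (p := fun r => 0 ≤ f r) ?_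
    filter_upwards [h4] with r hr
    have : ‖f r‖ = f r := sub_eq_zero.mp hr
    rw [← this]
    exact norm_nonneg _
  · rw [← integral_nu hm, h2]
  · rw [← integral_half hm]
    exact h3

lemma mem_of_adm {ε : ℝ} {F : ℝ → ℝ} (hF : Adm m ε F) (hi : Integrable F (nu m)) :
    hi.toL1 F ∈ KS m ε := by
  have hc := Integrable.coeFn_toL1 hi
  refine ⟨?_, ?_, ?_⟩
  · rw [L1.norm_eq_integral_norm]
    have h1 : ∫ r, ‖(hi.toL1 F) r‖ ∂(nu m) = ∫ r, ‖F r‖ ∂(nu m) := by
      apply integral_congr_ae
      filter_upwards [hc] with r hr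
      rw [hr]
    rw [h1, integral_nu hF.meas.norm, ← hF.mass]
    apply le_of_eq
    apply integral_congr_ae
    filter_upwards [hF.nonneg] with x hx
    rw [Real.norm_eq_abs, abs_of_nonneg hx]
  · rw [integral_congr_ae hc, integral_nu hF.meas, hF.mass]
  · rw [integral_congr_ae (ae_restrict_of_ae hc), integral_half hF.meas]
    exact hF.small

lemma exists_adm (m : ℕ) {ε : ℝ} (hε : 0 ≤ ε) : ∃ F : ℝ → ℝ, Adm m ε F := by
  set S : Set (Ed m) := {x | 1 < ‖x‖ ∧ ‖x‖ < 2} with hS
  have hopen : IsOpen S := (isOpen_lt continuous_const continuous_norm).inter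
    (isOpen_lt continuous_norm continuous_const)
  have hne : S.Nonempty := by
    refine ⟨(3 / 2 : ℝ) • e0, ?_⟩
    simp only [hS, mem_ofPred_eq, norm_smul, norm_e0]
    norm_num
  have hpos : 0 < volume S := hopen.measure_pos volume hne
  have hfin : volume S < ∞ := by
    refine lt_of_le_of_lt (measure_mono (fun x hx => ?_)) (measure_ball_lt_top (x := 0) (r := 2))
    rw [mem_ball_zero_iff]
    exact hx.2
  set V := (volume S).toReal with hV
  have hVpos : 0 < V := ENNReal.toReal_pos hpos.ne' hfin.ne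
  set F : ℝ → ℝ := (Ioo (1 : ℝ) 2).indicator (fun _ => 1 / V) with hF
  have hFS : (fun x : Ed m => F ‖x‖) = S.indicator (fun _ => 1 / V) := by
    ext x
    rfl
  have hFm : Measurable F := measurable_const.indicator measurableSet_Ioo
  have hFi : Integrable (fun x : Ed m => F ‖x‖) := by
    rw [hFS]
    exact (integrable_indicator_iff hopen.measurableSet).mpr
      (integrableOn_const (hs := hfin.ne))
  refine ⟨F, hFm, hFi, ?_, ?_, ?_⟩
  · refine Eventually.of_forall fun x => ?_
    exact indicator_nonneg (fun _ _ => by positivity) _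
  · rw [hFS, integral_indicator hopen.measurableSet]
    simp only [integral_const, MeasurableSet.univ, measureReal_restrict_apply, univ_inter,
      smul_eq_mul]
    rw [measureReal_def, ← hV]
    field_simp
  · refine le_trans (le_of_eq ?_) hε
    apply integral_eq_zero_of_ae
    refine Eventually.of_forall fun x => ?_
    simp only [Pi.zero_apply]
    split_ifs with hx
    · rw [hF, indicator_of_notMem]
      intro h
      linarith [h.1]
    · rfl

lemma log_le_th {δ : ℝ} (hδ : 0 < δ) (hδ1 : δ < 1) {r : ℝ} (hr : 0 < r) :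
    Real.log (1 + 1 / r) ≤ 2 ^ δ / δ * (1 + th δ r) := by
  have h1 := log_one_add_le hδ hδ1.le (t := 1 / r) (by positivity)
  have h2 : (1 / r) ^ δ ≤ 2 ^ δ * (1 + th δ r) := by
    rcases le_total r (1 / 2) with h | h
    · have h3 : 1 / r ≤ 2 * (|r - 1| / min r 1) := by
        rw [min_eq_left (by linarith), abs_of_nonpos (by linarith), ← mul_div_assoc]
        apply div_le_div_of_nonneg_right _ hr.le
        linarith
      have h4 : (1 / r) ^ δ ≤ (2 * (|r - 1| / min r 1)) ^ δ :=
        Real.rpow_le_rpow (by positivity) h3 hδ.le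
      have hm : 0 < min r 1 := lt_min hr one_pos
      rw [Real.mul_rpow (by norm_num) (by positivity)] at h4
      have h5 : (0 : ℝ) < 2 ^ δ := by positivity
      unfold th
      nlinarith
    · have h3 : 1 / r ≤ 2 := by
        rw [div_le_iff₀ hr]
        linarith
      have h4 : (1 / r) ^ δ ≤ 2 ^ δ := Real.rpow_le_rpow (by positivity) h3 hδ.le
      have h5 : (0 : ℝ) < 2 ^ δ := by positivity
      have h6 := th_nonneg (δ := δ) hr
      nlinarith
  calc Real.log (1 + 1 / r) ≤ (1 / r) ^ δ / δ := h1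
    _ ≤ (2 ^ δ * (1 + th δ r)) / δ := div_le_div_of_nonneg_right h2 hδ.le
    _ = _ := by ring

/-- The fixed point. -/
theorem exists_fixed (m : ℕ) {N a b : ℝ} (hN : 0 < N) (hb : 0 < b) (ha : 0 < m + 2 + a) :
    ∃ l : ℝ, ∃ F : ℝ → ℝ, Measurable F ∧ Integrable (fun y : Ed m => F ‖y‖) ∧
      Integrable (fun y : Ed m => Real.log (1 + 1 / ‖y‖) * F ‖y‖) ∧
      (∀ᵐ y : Ed m, 0 ≤ F ‖y‖) ∧ (∫ y : Ed m, F ‖y‖ = 1) ∧
      (0 < ∫ y : Ed m, den m N a b l F ‖y‖) ∧
      (∀ᵐ y : Ed m, F ‖y‖ = den m N a b l F ‖y‖ / ∫ y : Ed m, den m N a b l F ‖y‖) := by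
  set s := m + 2 + a with hs
  set δ := min (1 / 2 : ℝ) (s / 4) with hδd
  have hδ : 0 < δ := lt_min (by norm_num) (by positivity)
  have hδ1 : δ < 1 := lt_of_le_of_lt (min_le_left _ _) (by norm_num)
  set ε := s / (4 * (N * b)) with hεd
  have hε : 0 < ε := by positivity
  have hpe : N * b * ε = s / 4 := by
    rw [hεd]
    field_simp
  have h : N * b * ε + δ < m + 2 + a := by
    rw [hpe, ← hs]
    have := min_le_right (1 / 2 : ℝ) (s / 4)
    linarith
  set A : ℝ := avg m δ / δ with hA
  have hA0 : 0 ≤ A := div_nonneg (NNReal.coe_nonneg _) hδ.le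
  set τ := min ε (1 / (8 * (N * b * A) + 8)) with hτd
  have hNbA : 0 ≤ N * b * A := by positivity
  have hτ : 0 < τ := lt_min hε (by positivity)
  have hτε : τ ≤ ε := min_le_left _ _
  have hτ2 : 4 * N * b * A * τ ≤ 1 / 2 := by
    have h1 : τ ≤ 1 / (8 * (N * b * A) + 8) := min_le_right _ _
    have h2 : 4 * N * b * A * τ ≤ 4 * (N * b * A) * (1 / (8 * (N * b * A) + 8)) := by
      have := mul_le_mul_of_nonneg_left h1 (by positivity : 0 ≤ 4 * (N * b * A))
      linarith
    refine le_trans h2 ?_
    rw [mul_one_div, div_le_div_iff₀ (by positivity) (by norm_num)]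
    linarith
  obtain ⟨l, hl, hlam⟩ := exists_lam (m := m) (a := a) (p := N * b * ε) (q := N * b) (δ := δ)
    (N := N) (C := Real.exp (N * b * (Real.log 3 + avg m δ / δ))) (τ := τ) hδ (by positivity)
    (by positivity) hN h (Real.exp_nonneg _) hτ
  -- the map
  set nf : (ℝ → ℝ) → ℝ → ℝ := fun F r => den m N a b l F r / ∫ x : Ed m, den m N a b l F ‖x‖
    with hnf
  have nf_adm : ∀ {F : ℝ → ℝ}, Adm m ε F → Adm m ε (nf F) := by
    intro F hF
    have hZ := den_mass_pos (a := a) (l := l) hδ hδ1 hN hb hε.le hl h hF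
    have hi := int_den' (a := a) (l := l) hδ hδ1 hN hb hε.le hl h hF
    have hi1 := int_den (a := a) (l := l) hδ hδ1 hN hb hε.le hl h hF
    have hc := conc_den (a := a) (l := l) hδ hδ1 hN hb hε.le hl h hτ hlam hF
    refine ⟨(measurable_den hF.meas).div_const _, hi.div_const _,
      Eventually.of_forall fun x => div_nonneg (den_nonneg (norm_nonneg x)) hZ.le, ?_, ?_⟩
    · simp only [hnf]
      rw [integral_div, div_self hZ.ne']
    · have e : (fun y : Ed m => if ‖y‖ < 1 / 2 then nf F ‖y‖ else 0) =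
          fun y => (if ‖y‖ < 1 / 2 then den m N a b l F ‖y‖ else 0) /
            ∫ x : Ed m, den m N a b l F ‖x‖ := by
        ext y
        simp only [hnf]
        split_ifs <;> simp
      rw [e, integral_div, div_le_iff₀ hZ]
      have hm1 : Measurable (fun x : Ed m => den m N a b l F ‖x‖) :=
        (measurable_den hF.meas).comp measurable_norm
      calc ∫ y : Ed m, (if ‖y‖ < 1 / 2 then den m N a b l F ‖y‖ else 0)
          ≤ ∫ x : Ed m, (th δ ‖x‖ + (if ‖x‖ < 1 / 2 then 1 else 0)) * den m N a b l F ‖x‖ := by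
            refine integral_mono (hi1.mono' ?_ ?_) (hi1.mono' ?_ ?_) ?_
            · exact (Measurable.ite (measurableSet_lt measurable_norm measurable_const) hm1
                measurable_const).aestronglyMeasurable
            · refine Eventually.of_forall fun x => ?_
              have h3 := th_nonneg' (δ := δ) (norm_nonneg x)
              have h4 := den_nonneg (m := m) (N := N) (a := a) (b := b) (l := l) (F := F)
                (norm_nonneg x)
              rw [Real.norm_eq_abs]
              split_ifs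
              · rw [abs_of_nonneg h4]
                nlinarith
              · rw [abs_zero]
                positivity
            · apply Measurable.aestronglyMeasurable
              exact (Measurable.add ((measurable_th δ).comp measurable_norm)
                (Measurable.ite (measurableSet_lt measurable_norm measurable_const)
                  measurable_const measurable_const)).mul hm1
            · refine Eventually.of_forall fun x => ?_
              have h3 := th_nonneg' (δ := δ) (norm_nonneg x)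
              have h4 := den_nonneg (m := m) (N := N) (a := a) (b := b) (l := l) (F := F)
                (norm_nonneg x)
              have h6 : (0 : ℝ) ≤ (if ‖x‖ < 1 / 2 then 1 else 0) := by split_ifs <;> norm_num
              have h7 : (if ‖x‖ < 1 / 2 then 1 else 0) ≤ (1 : ℝ) := by split_ifs <;> norm_num
              rw [Real.norm_eq_abs, abs_of_nonneg (by positivity)]
              apply mul_le_mul_of_nonneg_right _ h4
              linarith
            · intro x
              have h3 := th_nonneg' (δ := δ) (norm_nonneg x)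
              have h4 := den_nonneg (m := m) (N := N) (a := a) (b := b) (l := l) (F := F)
                (norm_nonneg x)
              simp only
              split_ifs
              · nlinarith
              · rw [add_zero]
                positivity
        _ ≤ τ * ∫ x : Ed m, den m N a b l F ‖x‖ := hc
        _ ≤ ε * ∫ x : Ed m, den m N a b l F ‖x‖ := mul_le_mul_of_nonneg_right hτε hZ.le
  have nf_int : ∀ {F : ℝ → ℝ}, Adm m ε F → Integrable (nf F) (nu m) := by
    intro F hF
    exact (int_nu (nf_adm hF).meas).mpr (nf_adm hF).int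
  classical
  set T : (ℝ →₁[nu m] ℝ) → (ℝ →₁[nu m] ℝ) := fun f =>
    if hf : Integrable (nf f) (nu m) then hf.toL1 (nf f) else 0 with hT
  have T_eq : ∀ {f : ℝ →₁[nu m] ℝ} (hf : f ∈ KS m ε),
      T f = (nf_int (adm_of_mem hf)).toL1 (nf f) := by
    intro f hf
    simp only [hT]
    rw [dif_pos (nf_int (adm_of_mem hf))]
  have hmaps : MapsTo T (KS m ε) (KS m ε) := by
    intro f hf
    rw [T_eq hf]
    exact mem_of_adm (nf_adm (adm_of_mem hf)) _
  have hcontr : ContractingWith (1 / 2 : ℝ≥0) (hmaps.restrict T (KS m ε) (KS m ε)) := by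
    refine ⟨?_, LipschitzWith.of_dist_le_mul ?_⟩
    · rw [← NNReal.coe_lt_coe]
      norm_num
    · rintro ⟨f, hf⟩ ⟨g, hg⟩
      rw [Subtype.dist_eq, Subtype.dist_eq]
      change dist (T f) (T g) ≤ ((1 / 2 : ℝ≥0) : ℝ) * dist f g
      rw [T_eq hf, T_eq hg, L1.dist_eq_integral_dist, L1.dist_eq_integral_dist]
      have c1 := Integrable.coeFn_toL1 (nf_int (adm_of_mem hf))
      have c2 := Integrable.coeFn_toL1 (nf_int (adm_of_mem hg))
      have e1 : ∫ r, dist ((nf_int (adm_of_mem hf)).toL1 (nf f) r)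
          ((nf_int (adm_of_mem hg)).toL1 (nf g) r) ∂(nu m) =
          ∫ r, |nf f r - nf g r| ∂(nu m) := by
        apply integral_congr_ae
        filter_upwards [c1, c2] with r h1 h2
        rw [h1, h2, Real.dist_eq]
      have e2 : ∫ r, dist (f r) (g r) ∂(nu m) = ∫ r, |f r - g r| ∂(nu m) := by
        simp only [Real.dist_eq]
      have Af := adm_of_mem hf
      have Ag := adm_of_mem hg
      rw [e1, e2, integral_nu (F := fun r => |nf f r - nf g r|)
          ((nf_adm Af).meas.sub (nf_adm Ag).meas).abs,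
        integral_nu (F := fun r => |f r - g r|) (Af.meas.sub Ag.meas).abs]
      have hcon := contr (a := a) (l := l) hδ hδ1 hN hb hε.le hl h hτ hlam Af Ag
      refine le_trans hcon ?_
      have : (0 : ℝ) ≤ ∫ y : Ed m, |f ‖y‖ - g ‖y‖| := integral_nonneg fun _ => abs_nonneg _
      push_cast
      exact mul_le_mul_of_nonneg_right hτ2 this
  obtain ⟨F0, hF0⟩ := exists_adm m hε.le
  have hF0i : Integrable F0 (nu m) := (int_nu hF0.meas).mpr hF0.int
  obtain ⟨f, hfK, hfix, -⟩ := hcontr.exists_fixedPoint' (isClosed_KS ε).isComplete hmaps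
    (mem_of_adm hF0 hF0i) (edist_ne_top _ _)
  have Af := adm_of_mem hfK
  have hZ := den_mass_pos (a := a) (l := l) hδ hδ1 hN hb hε.le hl h Af
  have hFix : ∀ᵐ y : Ed m, f ‖y‖ = den m N a b l f ‖y‖ / ∫ y : Ed m, den m N a b l f ‖y‖ := by
    refine ae_nu (p := fun r => f r = den m N a b l f r / ∫ y : Ed m, den m N a b l f ‖y‖) ?_
    have hfix' : T f = f := hfix
    rw [T_eq hfK] at hfix'
    have c1 := Integrable.coeFn_toL1 (nf_int Af)
    rw [hfix'] at c1
    filter_upwards [c1] with r hr
    rw [hr]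
  refine ⟨l, f, Af.meas, Af.int, ?_, Af.nonneg, Af.mass, hZ, hFix⟩
  have hi1 := (int_den (a := a) (l := l) hδ hδ1 hN hb hε.le hl h Af).const_mul
    (2 ^ δ / δ / ∫ y : Ed m, den m N a b l f ‖y‖)
  have hne : ∀ᵐ x : Ed m, x ≠ 0 := by
    rw [ae_iff]
    simp
  refine hi1.mono' ?_ ?_
  · exact ((by fun_prop : Measurable fun y : Ed m => Real.log (1 + 1 / ‖y‖)).mul
      (Af.meas.comp measurable_norm)).aestronglyMeasurable
  · filter_upwards [hne, hFix] with x hx hf'
    have hr : 0 < ‖x‖ := norm_pos_iff.mpr hx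
    have h4 := den_nonneg (m := m) (N := N) (a := a) (b := b) (l := l) (F := f) hr.le
    have h5 : 0 ≤ Real.log (1 + 1 / ‖x‖) := Real.log_nonneg (by
      have : 0 < 1 / ‖x‖ := by positivity
      linarith)
    rw [hf', Real.norm_eq_abs, abs_of_nonneg (mul_nonneg h5 (div_nonneg h4 hZ.le))]
    calc Real.log (1 + 1 / ‖x‖) * (den m N a b l f ‖x‖ / ∫ y : Ed m, den m N a b l f ‖y‖)
        ≤ (2 ^ δ / δ * (1 + th δ ‖x‖)) *
          (den m N a b l f ‖x‖ / ∫ y : Ed m, den m N a b l f ‖y‖) :=
          mul_le_mul_of_nonneg_right (log_le_th hδ hδ1 hr) (div_nonneg h4 hZ.le)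
      _ = _ := by ring

end Pool.Agent.QCurv
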