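import Pool.Agent.Lib.MP_83d6ff_an.Even
import Pool.Agent.Lib.MP_83d6ff_an.Fix

/-!
Assembly.
-/

namespace Pool.Agent.QCurv

open MeasureTheory Real Set Filter FourierTransform Metric
open scoped ENNReal NNReal Topology InnerProductSpace SchwartzMap ContDiff

variable {m : ℕ}

/-- Rotation invariance. -/
lemma rot {H : Ed m → Ed m → ℝ} (hH : ∀ (R : Ed m ≃ₗᵢ[ℝ] Ed m) x y, H (R x) (R y) = H x y)
    (x : Ed m) : (Integrable (H (‖x‖ • e0)) → Integrable (H x)) ∧
      ∫ y, H x y = ∫ y, H (‖x‖ • e0) y := by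
  have hv : ‖(‖x‖ • (e0 : Ed m))‖ = ‖x‖ := by
    rw [norm_smul, norm_e0, mul_one, norm_norm]
  set R := (Submodule.span ℝ {(‖x‖ • (e0 : Ed m)) - x})ᗮ.reflection with hR
  have hRv : R (‖x‖ • (e0 : Ed m)) = x := Submodule.reflection_sub hv
  have e : ∀ y, H x (R y) = H (‖x‖ • e0) y := by
    intro y
    rw [← hH R (‖x‖ • e0) y, hRv]
  constructor
  · intro hi
    rw [← R.measurePreserving.integrable_comp_emb R.toHomeomorph.measurableEmbedding]
    refine hi.congr (Eventually.of_forall fun y => ?_)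
    exact (e y).symm
  · rw [← R.measurePreserving.integral_comp R.toHomeomorph.measurableEmbedding (H x)]
    exact integral_congr_ae (Eventually.of_forall e)

lemma ker_rot (R : Ed m ≃ₗᵢ[ℝ] Ed m) (x y : Ed m) : ker (R x) (R y) = ker x y := by
  unfold ker
  rw [← map_sub, LinearIsometryEquiv.norm_map, LinearIsometryEquiv.norm_map]

section

variable {F : ℝ → ℝ} (hF : Measurable F) (hFi : Integrable (fun y : Ed m => F ‖y‖))
include hF hFi

lemma integrable_ker' {x : Ed m} (hx : x ≠ 0) : Integrable (fun y : Ed m => ker x y * F ‖y‖) := by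
  refine (rot (H := fun x y => ker x y * F ‖y‖) (fun R x y => ?_) x).1 ?_
  · rw [ker_rot, LinearIsometryEquiv.norm_map]
  · exact integrable_ker (δ := 1 / 2) (by norm_num) (by norm_num) hF hFi (norm_pos_iff.mpr hx)

lemma int_abs_ker_le {x : Ed m} (hx : x ≠ 0) :
    ∫ y : Ed m, |ker x y * F ‖y‖| ≤ (Real.log (1 + ‖x‖) + Real.log (1 + 1 / ‖x‖) +
      avg m (1 / 2) / (1 / 2)) * ∫ y : Ed m, |F ‖y‖| := by
  have hr : 0 < ‖x‖ := norm_pos_iff.mpr hx
  rw [(rot (H := fun x y => |ker x y * F ‖y‖|) (fun R x y => by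
    rw [ker_rot, LinearIsometryEquiv.norm_map]) x).2]
  have i1 := integrable_ker (δ := 1 / 2) (by norm_num) (by norm_num) hF hFi hr
  have hq := integrable_qf (m := m) (δ := 1 / 2) (by norm_num) (by norm_num)
    (F := fun r => |F r|) hF.abs hFi.abs
  have hqi := integral_qf (m := m) (δ := 1 / 2) (by norm_num) (by norm_num)
    (F := fun r => |F r|) hF.abs hFi.abs (Eventually.of_forall fun _ => abs_nonneg _)
  calc ∫ y : Ed m, |ker (‖x‖ • e0) y * F ‖y‖|
      ≤ ∫ y : Ed m, ((Real.log (1 + ‖x‖) + Real.log (1 + 1 / ‖x‖)) * |F ‖y‖| +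
          (qf (1 / 2) y * |F ‖y‖|) / (1 / 2)) := by
        refine integral_mono_ae i1.abs ((hFi.abs.const_mul _).add (hq.div_const _)) ?_
        filter_upwards [ae_sn_pos] with y hy
        rw [abs_mul]
        have := mul_le_mul_of_nonneg_right (abs_ker_le (δ := 1 / 2) (by norm_num) hr hy)
          (abs_nonneg (F ‖y‖))
        calc _ ≤ _ := this
          _ = _ := by ring
    _ = _ := by
        rw [integral_add (hFi.abs.const_mul _) (hq.div_const _), integral_const_mul,
          integral_div, hqi]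
        ring

end

lemma log_one_add_inv_le {s : ℝ} (hs : 0 < s) : Real.log (1 + s) + Real.log (1 + 1 / s) ≤ LL s := by
  unfold LL
  have h1 := inv_le_LL hs
  have h2 : Real.log (1 + s) ≤ s := by
    have := Real.log_le_sub_one_of_pos (show 0 < 1 + s by positivity)
    linarith
  have h3 : Real.log (1 + 1 / s) ≤ s⁻¹ := by
    have := Real.log_le_sub_one_of_pos (show 0 < 1 + 1 / s by positivity)
    rw [one_div] at this ⊢
    linarith
  linarith

lemma measurable_LL : Measurable LL := by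
  unfold LL
  fun_prop

/-- The weak equation for the potential. -/
lemma pot_pairing {n : ℕ} (hn : 5 ≤ n) (hd : m + 2 = n) {F : ℝ → ℝ} (hF : Measurable F)
    (hFi : Integrable (fun y : Ed m => F ‖y‖)) (φ : 𝓢(Ed m, ℂ)) :
    Integrable (fun x : Ed m => ((pot m F ‖x‖ : ℝ) : ℂ) * fracLap n φ x) ∧
      2 * ∫ x : Ed m, ((pot m F ‖x‖ : ℝ) : ℂ) * fracLap n φ x =
        ((cst n * (2 * π) ^ n : ℝ) : ℂ) * ∫ y : Ed m, ((F ‖y‖ : ℝ) : ℂ) * φ y := by
  set ψ := fracLap n φ with hψ
  have hdim : Module.finrank ℝ (Ed m) = n := by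
    rw [← hd]
    simp
  have hψm : AEStronglyMeasurable ψ (volume : Measure (Ed m)) :=
    (continuous_fracLap n φ).aestronglyMeasurable
  have hw := wt_fracLap hn φ
  rw [← hψ] at hw
  have hψi := integrable_of_wt hψm hw
  have hψ0 : ∫ x, ψ x = 0 := integral_fracLap hn φ
  -- Fubini
  set f : Ed m → Ed m → ℂ := fun x y => ((ker x y * F ‖y‖ : ℝ) : ℂ) * ψ x with hf
  have hkm : Measurable (fun p : Ed m × Ed m => ker p.1 p.2 * F ‖p.2‖) := by
    unfold ker
    have h1 : Measurable (fun p : Ed m × Ed m => F ‖p.2‖) :=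
      hF.comp (measurable_norm.comp measurable_snd)
    have h2 : Measurable (fun p : Ed m × Ed m => Real.log ((1 + ‖p.2‖) / ‖p.1 - p.2‖)) := by
      fun_prop
    exact h2.mul h1
  have hmaj : Integrable (fun x : Ed m => ((LL ‖x‖ : ℝ) : ℂ) * ψ x) := by
    refine integrable_log_mul (by omega) hψm hw (norm_fracLap_le n φ) 0
      (g := fun x => LL ‖x‖) (measurable_LL.comp measurable_norm) (fun x hx => ?_)
    rw [sub_zero, abs_of_nonneg]
    unfold LL
    positivity
  have hfi : Integrable (Function.uncurry f) (volume.prod volume) := by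
    rw [integrable_prod_iff]
    · constructor
      · filter_upwards [ae_ne_zero] with x hx
        have h5 := ((integrable_ker' hF hFi hx).ofReal (𝕜 := ℂ)).mul_const (ψ x)
        exact h5
      · have hm2 := ((hmaj.norm.add (hψi.norm.const_mul (avg m (1 / 2) / (1 / 2)))).mul_const
          (∫ y : Ed m, |F ‖y‖|))
        refine hm2.mono' ?_ ?_
        · have h6 : AEStronglyMeasurable (Function.uncurry f)
              ((volume : Measure (Ed m)).prod (volume : Measure (Ed m))) :=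
            (Complex.measurable_ofReal.comp hkm).aestronglyMeasurable.mul hψm.comp_fst
          exact h6.norm.integral_prod_right'
        · filter_upwards [ae_ne_zero] with x hx
          have hr : 0 < ‖x‖ := norm_pos_iff.mpr hx
          have h4 : ∀ y, ‖Function.uncurry f (x, y)‖ = |ker x y * F ‖y‖| * ‖ψ x‖ := by
            intro y
            simp only [Function.uncurry, hf]
            rw [norm_mul, Complex.norm_real, Real.norm_eq_abs]
          simp_rw [h4]
          rw [integral_mul_const, norm_mul, norm_norm]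
          have h7 := int_abs_ker_le hF hFi hx
          have h8 : 0 ≤ ∫ y : Ed m, |ker x y * F ‖y‖| := integral_nonneg fun _ => abs_nonneg _
          have h9 : 0 ≤ ∫ y : Ed m, |F ‖y‖| := integral_nonneg fun _ => abs_nonneg _
          have h10 := log_one_add_inv_le hr
          rw [Real.norm_eq_abs, abs_of_nonneg h8]
          simp only [Pi.add_apply]
          rw [norm_mul, Complex.norm_real, Real.norm_eq_abs]
          have h11 := le_abs_self (LL ‖x‖)
          calc (∫ y : Ed m, |ker x y * F ‖y‖|) * ‖ψ x‖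
              ≤ ((|LL ‖x‖| + avg m (1 / 2) / (1 / 2)) * ∫ y : Ed m, |F ‖y‖|) * ‖ψ x‖ := by
                apply mul_le_mul_of_nonneg_right _ (norm_nonneg _)
                refine le_trans h7 ?_
                apply mul_le_mul_of_nonneg_right _ h9
                linarith
            _ = _ := by ring
    · exact (Complex.measurable_ofReal.comp hkm).aestronglyMeasurable.mul hψm.comp_fst
  have hx : ∀ x : Ed m, ∫ y, f x y = ((pot m F ‖x‖ : ℝ) : ℂ) * ψ x := by
    intro x
    simp only [hf]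
    rw [integral_mul_const, integral_complex_ofReal, pot_norm]
  have hI : Integrable (fun x : Ed m => ((pot m F ‖x‖ : ℝ) : ℂ) * ψ x) := by
    have := hfi.integral_prod_left
    refine this.congr (Eventually.of_forall fun x => ?_)
    exact hx x
  refine ⟨hI, ?_⟩
  have e1 : ∫ x : Ed m, ((pot m F ‖x‖ : ℝ) : ℂ) * ψ x = ∫ y : Ed m, ∫ x : Ed m, f x y := by
    rw [← integral_integral_swap hfi]
    exact integral_congr_ae (Eventually.of_forall fun x => (hx x).symm)
  rw [e1, ← integral_const_mul, ← integral_const_mul]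
  apply integral_congr_ae
  refine Eventually.of_forall fun y => ?_
  simp only
  have hlogi := integrable_log_mul (ψ := ψ) (by omega) hψm hw (norm_fracLap_le n φ) y
    (g := fun x => Real.log ‖x - y‖) (by fun_prop) (fun x _ => abs_log_le_LL (norm_nonneg _))
  have e2 : ∫ x : Ed m, f x y = ∫ x : Ed m, (((Real.log (1 + ‖y‖) * F ‖y‖ : ℝ) : ℂ) * ψ x +
      ((F ‖y‖ : ℝ) : ℂ) * (((-Real.log ‖x - y‖ : ℝ) : ℂ) * ψ x)) := by
    have hy : ∀ᵐ x : Ed m, x ≠ y := by
      rw [ae_iff]
      simp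
    apply integral_congr_ae
    filter_upwards [hy] with x hx
    have h1 : 0 < ‖x - y‖ := norm_pos_iff.mpr (sub_ne_zero.mpr hx)
    simp only [hf, ker]
    rw [Real.log_div (by positivity) h1.ne']
    push_cast
    ring
  have hlogi' : Integrable (fun x : Ed m => ((-Real.log ‖x - y‖ : ℝ) : ℂ) * ψ x) := by
    refine hlogi.neg.congr (Eventually.of_forall fun x => ?_)
    simp only [Pi.neg_apply]
    push_cast
    ring
  rw [e2, integral_add (hψi.const_mul _) (hlogi'.const_mul _), integral_const_mul,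
    integral_const_mul, hψ0, mul_zero, zero_add]
  have key := log_pairing (V := Ed m) hn hdim φ y
  rw [← hψ] at key
  calc 2 * (((F ‖y‖ : ℝ) : ℂ) * ∫ x : Ed m, ((-Real.log ‖x - y‖ : ℝ) : ℂ) * ψ x)
      = ((F ‖y‖ : ℝ) : ℂ) * (2 * ∫ x : Ed m, ((-Real.log ‖x - y‖ : ℝ) : ℂ) * ψ x) := by ring
    _ = _ := by
      rw [key]
      ring

/-- The polynomial part is killed. -/
lemma poly_pairing {n : ℕ} (hn : 5 ≤ n) (φ : 𝓢(Ed m, ℂ)) :
    (Integrable (fun x : Ed m => ((‖x‖ ^ 2 : ℝ) : ℂ) * fracLap n φ x) ∧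
      ∫ x : Ed m, ((‖x‖ ^ 2 : ℝ) : ℂ) * fracLap n φ x = 0) ∧
    (Integrable (fun x : Ed m => ((‖x‖ ^ 4 : ℝ) : ℂ) * fracLap n φ x) ∧
      ∫ x : Ed m, ((‖x‖ ^ 4 : ℝ) : ℂ) * fracLap n φ x = 0) := by
  set ψ := fracLap n φ with hψ
  have hψm : AEStronglyMeasurable ψ (volume : Measure (Ed m)) :=
    (continuous_fracLap n φ).aestronglyMeasurable
  have hw := wt_fracLap hn φ
  rw [← hψ] at hw
  have hmom := moments_fracLap hn φ
  rw [← hψ] at hmom
  have hint : ∀ (j : ℕ) (v : Ed m), j ≤ 4 →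
      Integrable (fun x : Ed m => (((inner ℝ x v) ^ j : ℝ) : ℂ) * ψ x) := by
    intro j v hj
    refine int_of_wt hψm hw (C := ‖v‖ ^ j) ?_ (fun x => ?_)
    · exact (by fun_prop : Measurable fun x : Ed m => (((inner ℝ x v) ^ j : ℝ) : ℂ)).aestronglyMeasurable
    · rw [Complex.norm_real, Real.norm_eq_abs, abs_pow]
      have h1 := abs_real_inner_le_norm x v
      calc |inner ℝ x v| ^ j ≤ (‖x‖ * ‖v‖) ^ j := pow_le_pow_left₀ (abs_nonneg _) h1 j
        _ = ‖v‖ ^ j * ‖x‖ ^ j := by ring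
        _ ≤ ‖v‖ ^ j * (1 + ‖x‖) ^ 4 := by
          apply mul_le_mul_of_nonneg_left _ (by positivity)
          calc ‖x‖ ^ j ≤ (1 + ‖x‖) ^ j := pow_le_pow_left₀ (norm_nonneg _) (by linarith) j
            _ ≤ (1 + ‖x‖) ^ 4 := pow_le_pow_right₀ (by linarith [norm_nonneg x]) hj
  set E : Fin (m + 2) → Ed m := fun i => EuclideanSpace.single i 1 with hE
  have hxi : ∀ (x : Ed m) (i : Fin (m + 2)), inner ℝ x (E i) = x i := by
    intro x i
    simp only [hE]
    rw [EuclideanSpace.inner_single_right]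
    simp
  have hnorm : ∀ x : Ed m, ‖x‖ ^ 2 = ∑ i, (inner ℝ x (E i)) ^ 2 := by
    intro x
    rw [EuclideanSpace.norm_sq_eq]
    simp only [hxi, Real.norm_eq_abs, sq_abs]
  constructor
  · have e : ∀ x : Ed m, ((‖x‖ ^ 2 : ℝ) : ℂ) * ψ x =
        ∑ i, (((inner ℝ x (E i)) ^ 2 : ℝ) : ℂ) * ψ x := by
      intro x
      rw [hnorm, ← Finset.sum_mul]
      push_cast
      rfl
    simp_rw [e]
    constructor
    · exact integrable_finsetSum _ fun i _ => hint 2 (E i) (by norm_num)
    · rw [integral_finsetSum _ fun i _ => hint 2 (E i) (by norm_num)]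
      exact Finset.sum_eq_zero fun i _ => (hmom (E i)).1
  · have e : ∀ x : Ed m, ((‖x‖ ^ 4 : ℝ) : ℂ) * ψ x = ∑ i, ∑ j,
        ((1 / 12 : ℂ) * ((((inner ℝ x (E i + E j)) ^ 4 : ℝ) : ℂ) * ψ x) +
        (1 / 12 : ℂ) * ((((inner ℝ x (E i - E j)) ^ 4 : ℝ) : ℂ) * ψ x) +
        (-1 / 6 : ℂ) * ((((inner ℝ x (E i)) ^ 4 : ℝ) : ℂ) * ψ x) +
        (-1 / 6 : ℂ) * ((((inner ℝ x (E j)) ^ 4 : ℝ) : ℂ) * ψ x)) := by
      intro x
      have h1 : ‖x‖ ^ 4 = ∑ i, ∑ j, ((inner ℝ x (E i)) ^ 2 * (inner ℝ x (E j)) ^ 2) := by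
        rw [← Finset.sum_mul_sum, ← hnorm]
        ring
      rw [h1]
      push_cast
      rw [Finset.sum_mul]
      apply Finset.sum_congr rfl
      intro i _
      rw [Finset.sum_mul]
      apply Finset.sum_congr rfl
      intro j _
      rw [inner_add_right, inner_sub_right]
      push_cast
      ring
    have hi : ∀ i j : Fin (m + 2), Integrable (fun x : Ed m =>
        ((1 / 12 : ℂ) * ((((inner ℝ x (E i + E j)) ^ 4 : ℝ) : ℂ) * ψ x) +
        (1 / 12 : ℂ) * ((((inner ℝ x (E i - E j)) ^ 4 : ℝ) : ℂ) * ψ x) +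
        (-1 / 6 : ℂ) * ((((inner ℝ x (E i)) ^ 4 : ℝ) : ℂ) * ψ x) +
        (-1 / 6 : ℂ) * ((((inner ℝ x (E j)) ^ 4 : ℝ) : ℂ) * ψ x))) := by
      intro i j
      exact ((((hint 4 _ le_rfl).const_mul _).add ((hint 4 _ le_rfl).const_mul _)).add
        ((hint 4 _ le_rfl).const_mul _)).add ((hint 4 _ le_rfl).const_mul _)
    simp_rw [e]
    constructor
    · exact integrable_finsetSum _ fun i _ => integrable_finsetSum _ fun j _ => hi i j
    · rw [integral_finsetSum _ fun i _ => integrable_finsetSum _ fun j _ => hi i j]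
      apply Finset.sum_eq_zero
      intro i _
      rw [integral_finsetSum _ fun j _ => hi i j]
      apply Finset.sum_eq_zero
      intro j _
      have i1 : Integrable (fun x : Ed m =>
          (1 / 12 : ℂ) * ((((inner ℝ x (E i + E j)) ^ 4 : ℝ) : ℂ) * ψ x) +
          (1 / 12 : ℂ) * ((((inner ℝ x (E i - E j)) ^ 4 : ℝ) : ℂ) * ψ x)) :=
        ((hint 4 _ le_rfl).const_mul _).add ((hint 4 _ le_rfl).const_mul _)
      have i2 : Integrable (fun x : Ed m =>
          (1 / 12 : ℂ) * ((((inner ℝ x (E i + E j)) ^ 4 : ℝ) : ℂ) * ψ x) +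
          (1 / 12 : ℂ) * ((((inner ℝ x (E i - E j)) ^ 4 : ℝ) : ℂ) * ψ x) +
          (-1 / 6 : ℂ) * ((((inner ℝ x (E i)) ^ 4 : ℝ) : ℂ) * ψ x)) :=
        i1.add ((hint 4 _ le_rfl).const_mul _)
      rw [integral_add i2 ((hint 4 _ le_rfl).const_mul _),
        integral_add i1 ((hint 4 _ le_rfl).const_mul _),
        integral_add ((hint 4 _ le_rfl).const_mul _) ((hint 4 _ le_rfl).const_mul _),
        integral_const_mul, integral_const_mul, integral_const_mul, integral_const_mul,
        (hmom _).2, (hmom _).2, (hmom _).2, (hmom _).2]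
      ring

end Pool.Agent.QCurv
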