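import Pool.Agent.Lib.MP_83d6ff_an.Gauss

/-!
The logarithm is a fundamental solution: Fourier side.
-/

namespace Pool.Agent.QCurv

open MeasureTheory Real Set Filter FourierTransform
open scoped ENNReal NNReal Topology InnerProductSpace

variable {V : Type*} [NormedAddCommGroup V] [InnerProductSpace ℝ V] [FiniteDimensional ℝ V]
  [MeasurableSpace V] [BorelSpace V]

lemma fourierInv_swap {f g : V → ℂ} (hf : Integrable f) (hg : Integrable g) :
    ∫ ξ, 𝓕⁻ f ξ * g ξ = ∫ x, f x * 𝓕⁻ g x := by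
  have h1 := VectorFourier.integral_bilin_fourierIntegral_eq_flip (ContinuousLinearMap.mul ℂ ℂ)
    (L := -innerₗ V) Real.continuous_fourierChar (by
      have : Continuous fun p : V × V => -(inner ℝ p.1 p.2) := by fun_prop
      exact this) hf hg
  have h2 : (-innerₗ V).flip = -innerₗ V := by
    ext x y
    simp [real_inner_comm]
  rw [h2] at h1
  exact h1

lemma gauss_int {t : ℝ} (ht : 0 < t) :
    Integrable (fun x : V => ((Real.exp (-(t * ‖x‖ ^ 2)) : ℝ) : ℂ)) := by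
  have := GaussianFourier.integrable_cexp_neg_mul_sq_norm_add (V := V) (b := (t : ℂ))
    (by simpa using ht) 0 0
  refine this.congr (Eventually.of_forall fun x => ?_)
  simp

lemma gauss_fourierInv {t : ℝ} (ht : 0 < t) (w : V) :
    𝓕⁻ (fun x : V => ((Real.exp (-(t * ‖x‖ ^ 2)) : ℝ) : ℂ)) w =
      (((π / t) ^ ((Module.finrank ℝ V : ℝ) / 2) * Real.exp (-(π ^ 2 * ‖w‖ ^ 2 / t)) : ℝ) : ℂ) := by
  have h := fourier_gaussian_innerProductSpace (V := V) (b := (t : ℂ)) (by simpa using ht) (-w)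
  rw [Real.fourierInv_eq_fourier_neg]
  have e : (fun v : V => Complex.exp (-(t : ℂ) * ‖v‖ ^ 2)) =
      fun x : V => ((Real.exp (-(t * ‖x‖ ^ 2)) : ℝ) : ℂ) := by
    ext x
    push_cast
    ring_nf
  rw [e] at h
  rw [h, norm_neg]
  push_cast
  congr 1
  · rw [Complex.ofReal_cpow (by positivity)]
    push_cast
    rfl
  · congr 1
    ring

/-- The Gaussian integral of an inverse Fourier transform. -/
lemma gauss_swap {a : V → ℂ} (ha : Integrable a) {t : ℝ} (ht : 0 < t) :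
    ∫ x : V, ((Real.exp (-(t * ‖x‖ ^ 2)) : ℝ) : ℂ) * 𝓕⁻ a x =
      ∫ ξ : V, (((π / t) ^ ((Module.finrank ℝ V : ℝ) / 2) *
        Real.exp (-(π ^ 2 * ‖ξ‖ ^ 2 / t)) : ℝ) : ℂ) * a ξ := by
  rw [← fourierInv_swap (gauss_int ht) ha]
  simp_rw [gauss_fourierInv ht]

variable [Nontrivial V]

lemma ae_ne_zero : ∀ᵐ x : V, x ≠ 0 := by
  rw [ae_iff]
  simp

/-- the constant of the fundamental solution -/
noncomputable def cst (d : ℝ) : ℝ := π ^ (-(d / 2)) * Real.Gamma (d / 2)

lemma log_pairing0 {a : V → ℂ} (ha : Integrable a)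
    (ha' : Integrable (fun ξ : V => ((‖ξ‖ ^ (-(Module.finrank ℝ V : ℝ)) : ℝ) : ℂ) * a ξ))
    (hψ : Integrable (𝓕⁻ a)) (h0 : ∫ x, 𝓕⁻ a x = 0)
    (hlog : Integrable (fun x : V => ((Real.log ‖x‖ : ℝ) : ℂ) * 𝓕⁻ a x)) :
    2 * ∫ x : V, ((-Real.log ‖x‖ : ℝ) : ℂ) * 𝓕⁻ a x = ((cst (Module.finrank ℝ V) : ℝ) : ℂ) *
      ∫ ξ : V, ((‖ξ‖ ^ (-(Module.finrank ℝ V : ℝ)) : ℝ) : ℂ) * a ξ := by
  set d : ℝ := (Module.finrank ℝ V : ℝ) with hd
  have hd0 : 0 < d := by
    rw [hd]
    exact_mod_cast Module.finrank_pos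
  -- first exchange
  set f : V → ℝ → ℂ := fun x t =>
    (((Real.exp (-(t * ‖x‖ ^ 2)) - Real.exp (-t)) / t : ℝ) : ℂ) * 𝓕⁻ a x with hf
  have hfx : ∀ x : V, x ≠ 0 → ∫ t in Ioi (0 : ℝ), f x t =
      2 * (((-Real.log ‖x‖ : ℝ) : ℂ) * 𝓕⁻ a x) := by
    intro x hx
    have hx' : 0 < ‖x‖ ^ 2 := by positivity
    have h1 := (frullani_log hx').2.1
    simp only [hf]
    rw [integral_mul_const, integral_complex_ofReal, h1, Real.log_pow]
    push_cast
    ring
  have hfi : Integrable (Function.uncurry f) (volume.prod (volume.restrict (Ioi (0 : ℝ)))) := by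
    rw [integrable_prod_iff]
    · constructor
      · filter_upwards [ae_ne_zero] with x hx
        have hx' : 0 < ‖x‖ ^ 2 := by positivity
        have h5 := ((frullani_log hx').1.ofReal (𝕜 := ℂ)).mul_const (𝓕⁻ a x)
        exact h5
      · have h2 : Integrable (fun x : V => 2 * ‖((Real.log ‖x‖ : ℝ) : ℂ) * 𝓕⁻ a x‖) :=
          hlog.norm.const_mul 2
        refine h2.congr ?_
        filter_upwards [ae_ne_zero] with x hx
        have hx' : 0 < ‖x‖ ^ 2 := by positivity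
        have h3 := (frullani_log hx').2.2
        have h4 : ∀ t : ℝ, ‖Function.uncurry f (x, t)‖ =
            |(Real.exp (-(t * ‖x‖ ^ 2)) - Real.exp (-t)) / t| * ‖𝓕⁻ a x‖ := by
          intro t
          simp only [Function.uncurry, hf, norm_mul, Complex.norm_real, Real.norm_eq_abs]
        simp_rw [h4]
        rw [integral_mul_const, h3, Real.log_pow, norm_mul, Complex.norm_real, Real.norm_eq_abs,
          abs_mul]
        norm_num
        ring
    · have m1 : Measurable (fun p : V × ℝ =>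
          (((Real.exp (-(p.2 * ‖p.1‖ ^ 2)) - Real.exp (-p.2)) / p.2 : ℝ) : ℂ)) := by
        fun_prop
      exact m1.aestronglyMeasurable.mul hψ.aestronglyMeasurable.comp_fst
  have e1 : 2 * ∫ x : V, ((-Real.log ‖x‖ : ℝ) : ℂ) * 𝓕⁻ a x =
      ∫ x : V, ∫ t in Ioi (0 : ℝ), f x t := by
    rw [← integral_const_mul]
    apply integral_congr_ae
    filter_upwards [ae_ne_zero] with x hx
    rw [hfx x hx]
  rw [e1, integral_integral_swap hfi]
  -- the inner integral
  set g : ℝ → V → ℂ := fun t ξ =>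
    ((t⁻¹ * (π / t) ^ (d / 2) * Real.exp (-(π ^ 2 * ‖ξ‖ ^ 2 / t)) : ℝ) : ℂ) * a ξ with hg
  have hin : EqOn (fun t : ℝ => ∫ x : V, f x t) (fun t => ∫ ξ : V, g t ξ) (Ioi 0) := by
    intro t ht
    have ht : 0 < t := ht
    have i1 : Integrable (fun x : V => ((Real.exp (-(t * ‖x‖ ^ 2)) : ℝ) : ℂ) * 𝓕⁻ a x) := by
      refine hψ.norm.mono' ?_ (Eventually.of_forall fun x => ?_)
      · exact (gauss_int ht).aestronglyMeasurable.mul hψ.aestronglyMeasurable
      · rw [norm_mul, Complex.norm_real, Real.norm_eq_abs, Real.abs_exp]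
        have : Real.exp (-(t * ‖x‖ ^ 2)) ≤ 1 := Real.exp_le_one_iff.mpr (by
          have : 0 ≤ t * ‖x‖ ^ 2 := by positivity
          linarith)
        exact mul_le_of_le_one_left (norm_nonneg _) this
    have i2 : Integrable (fun x : V => ((Real.exp (-t) : ℝ) : ℂ) * 𝓕⁻ a x) := hψ.const_mul _
    have e2 : ∀ x, f x t = ((t⁻¹ : ℝ) : ℂ) *
        (((Real.exp (-(t * ‖x‖ ^ 2)) : ℝ) : ℂ) * 𝓕⁻ a x - ((Real.exp (-t) : ℝ) : ℂ) * 𝓕⁻ a x) := by
      intro x
      simp only [hf]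
      push_cast
      ring
    simp only
    simp_rw [e2]
    rw [integral_const_mul, integral_sub i1 i2, integral_const_mul, h0, mul_zero, sub_zero,
      gauss_swap ha ht, ← integral_const_mul]
    apply integral_congr_ae
    refine Eventually.of_forall fun ξ => ?_
    simp only [hg, ← hd]
    push_cast
    ring
  rw [setIntegral_congr_fun measurableSet_Ioi hin]
  -- second exchange
  have hgξ : ∀ ξ : V, ξ ≠ 0 →
      IntegrableOn (fun t : ℝ => t⁻¹ * (π / t) ^ (d / 2) * Real.exp (-(π ^ 2 * ‖ξ‖ ^ 2 / t)))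
        (Ioi 0) ∧
      ∫ t in Ioi (0 : ℝ), t⁻¹ * (π / t) ^ (d / 2) * Real.exp (-(π ^ 2 * ‖ξ‖ ^ 2 / t)) =
        cst d * ‖ξ‖ ^ (-d) := by
    intro ξ hξ
    have hξ' : 0 < ‖ξ‖ := norm_pos_iff.mpr hξ
    obtain ⟨h1, h2⟩ := gamma_int (k := d / 2) (c := π ^ 2 * ‖ξ‖ ^ 2) (by positivity) (by positivity)
    refine ⟨h1, ?_⟩
    rw [h2]
    have e3 : (π ^ 2 * ‖ξ‖ ^ 2) ^ (-(d / 2)) = π ^ (-d) * ‖ξ‖ ^ (-d) := by
      rw [← mul_pow, ← Real.rpow_natCast, ← Real.rpow_mul (by positivity),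
        Real.mul_rpow Real.pi_pos.le hξ'.le]
      congr 2 <;> push_cast <;> ring
    rw [e3]
    unfold cst
    have e4 : π ^ (d / 2) * π ^ (-d) = π ^ (-(d / 2)) := by
      rw [← Real.rpow_add Real.pi_pos]
      congr 1
      ring
    calc π ^ (d / 2) * Real.Gamma (d / 2) * (π ^ (-d) * ‖ξ‖ ^ (-d))
        = (π ^ (d / 2) * π ^ (-d)) * Real.Gamma (d / 2) * ‖ξ‖ ^ (-d) := by ring
      _ = _ := by rw [e4]
  have hgi : Integrable (Function.uncurry fun (ξ : V) (t : ℝ) => g t ξ)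
      (volume.prod (volume.restrict (Ioi (0 : ℝ)))) := by
    rw [integrable_prod_iff]
    · constructor
      · filter_upwards [ae_ne_zero] with ξ hξ
        have h5 := ((hgξ ξ hξ).1.ofReal (𝕜 := ℂ)).mul_const (a ξ)
        exact h5
      · have h2 : Integrable (fun ξ : V => cst d *
            ‖((‖ξ‖ ^ (-d) : ℝ) : ℂ) * a ξ‖) := ha'.norm.const_mul _
        refine h2.congr ?_
        filter_upwards [ae_ne_zero] with ξ hξ
        have h4 : EqOn (fun t : ℝ => ‖Function.uncurry (fun (ξ : V) (t : ℝ) => g t ξ) (ξ, t)‖)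
            (fun t => (t⁻¹ * (π / t) ^ (d / 2) * Real.exp (-(π ^ 2 * ‖ξ‖ ^ 2 / t))) * ‖a ξ‖)
            (Ioi 0) := by
          intro t ht
          have ht : 0 < t := ht
          have h6 : 0 ≤ t⁻¹ * (π / t) ^ (d / 2) * Real.exp (-(π ^ 2 * ‖ξ‖ ^ 2 / t)) := by
            positivity
          simp only [Function.uncurry, hg]
          rw [norm_mul, Complex.norm_real, Real.norm_eq_abs, abs_of_nonneg h6]
        rw [setIntegral_congr_fun measurableSet_Ioi h4, integral_mul_const, (hgξ ξ hξ).2, norm_mul,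
          Complex.norm_real, Real.norm_eq_abs, abs_of_nonneg (Real.rpow_nonneg (norm_nonneg _) _)]
        ring
    · have m1 : Measurable (fun p : V × ℝ =>
          ((p.2⁻¹ * (π / p.2) ^ (d / 2) * Real.exp (-(π ^ 2 * ‖p.1‖ ^ 2 / p.2)) : ℝ) : ℂ)) := by
        have : Measurable (fun p : V × ℝ => (π / p.2) ^ (d / 2)) :=
          Measurable.pow_const (by fun_prop) _
        fun_prop
      exact m1.aestronglyMeasurable.mul ha.aestronglyMeasurable.comp_fst
  rw [← integral_integral_swap hgi, ← integral_const_mul]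
  apply integral_congr_ae
  filter_upwards [ae_ne_zero] with ξ hξ
  simp only [hg]
  rw [integral_mul_const, integral_complex_ofReal, (hgξ ξ hξ).2]
  push_cast
  ring

end Pool.Agent.QCurv
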