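import Mathlib

/-!
One-dimensional integrals: a Frullani integral and a Gamma integral.
-/

namespace Pool.Agent.QCurv

open MeasureTheory Real Set Filter
open scoped ENNReal NNReal Topology

lemma frullani {u v : ℝ} (hu : 0 < u) (huv : u ≤ v) :
    IntegrableOn (fun t : ℝ => (Real.exp (-(t * u)) - Real.exp (-(t * v))) / t) (Ioi 0) ∧
      ∫ t in Ioi (0 : ℝ), (Real.exp (-(t * u)) - Real.exp (-(t * v))) / t = Real.log (v / u) := by
  have hexp : ∀ s : ℝ, 0 < s → IntegrableOn (fun t : ℝ => Real.exp (-(t * s))) (Ioi 0) := by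
    intro s hs
    have := integrableOn_exp_mul_Ioi (a := -s) (by linarith) 0
    refine this.congr_fun (fun t _ => ?_) measurableSet_Ioi
    simp only
    congr 1
    ring
  have hprod : Integrable (Function.uncurry fun (t s : ℝ) => Real.exp (-(t * s)))
      ((volume.restrict (Ioi 0)).prod (volume.restrict (Ioc u v))) := by
    have h1 : Integrable (fun _ : ℝ => (1 : ℝ)) (volume.restrict (Ioc u v)) := integrable_const _
    have h2 := (hexp u hu).mul_prod h1
    refine h2.mono' ?_ ?_
    · apply Measurable.aestronglyMeasurable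
      fun_prop
    · rw [Measure.prod_restrict]
      refine (ae_restrict_mem (measurableSet_Ioi.prod measurableSet_Ioc)).mono ?_
      rintro ⟨t, s⟩ ⟨ht, hs⟩
      have ht : (0 : ℝ) < t := ht
      have hs1 : u < s := hs.1
      simp only [Function.uncurry, mul_one]
      rw [Real.norm_eq_abs, Real.abs_exp]
      apply Real.exp_le_exp.mpr
      nlinarith
  have hin : ∀ t : ℝ, 0 < t → ∫ s in Ioc u v, Real.exp (-(t * s)) =
      (Real.exp (-(t * u)) - Real.exp (-(t * v))) / t := by
    intro t ht
    rw [← intervalIntegral.integral_of_le huv]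
    have hd : ∀ s ∈ uIcc u v, HasDerivAt (fun s : ℝ => -Real.exp (-(t * s)) / t)
        (Real.exp (-(t * s))) s := by
      intro s _
      have h1 : HasDerivAt (fun s : ℝ => -(t * s)) (-(t * 1)) s :=
        ((hasDerivAt_id s).const_mul t).neg
      have h2 := (h1.exp.neg).div_const t
      have e : Real.exp (-(t * s)) = -(Real.exp (-(t * s)) * -(t * 1)) / t := by
        rw [mul_one, mul_neg, neg_neg, mul_div_assoc, div_self ht.ne', mul_one]
      rw [e]
      exact h2
    rw [intervalIntegral.integral_eq_sub_of_hasDerivAt hd]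
    · ring
    · exact Continuous.intervalIntegrable (by fun_prop) _ _
  have hfun : EqOn (fun t : ℝ => ∫ s in Ioc u v, Real.exp (-(t * s)))
      (fun t => (Real.exp (-(t * u)) - Real.exp (-(t * v))) / t) (Ioi 0) := fun t ht => hin t ht
  constructor
  · exact (hprod.integral_prod_left).congr
      ((ae_restrict_mem measurableSet_Ioi).mono fun t ht => hfun ht)
  · rw [← setIntegral_congr_fun measurableSet_Ioi hfun, integral_integral_swap hprod]
    have : EqOn (fun s : ℝ => ∫ t in Ioi (0 : ℝ), Real.exp (-(t * s))) (fun s => s⁻¹) (Ioc u v) := by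
      intro s hs
      have hs0 : 0 < s := lt_trans hu hs.1
      have h1 := integral_exp_mul_Ioi (a := -s) (by linarith) 0
      simp only
      have h2 : ∀ t : ℝ, Real.exp (-(t * s)) = Real.exp (-s * t) := by
        intro t
        congr 1
        ring
      simp_rw [h2]
      rw [h1]
      simp
    rw [setIntegral_congr_fun measurableSet_Ioc this, ← intervalIntegral.integral_of_le huv,
      integral_inv_of_pos hu (lt_of_lt_of_le hu huv)]

lemma frullani_log {z : ℝ} (hz : 0 < z) :
    IntegrableOn (fun t : ℝ => (Real.exp (-(t * z)) - Real.exp (-t)) / t) (Ioi 0) ∧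
      ∫ t in Ioi (0 : ℝ), (Real.exp (-(t * z)) - Real.exp (-t)) / t = - Real.log z ∧
      ∫ t in Ioi (0 : ℝ), |(Real.exp (-(t * z)) - Real.exp (-t)) / t| = |Real.log z| := by
  rcases le_total z 1 with h | h
  · obtain ⟨h1, h2⟩ := frullani hz h
    simp only [mul_one] at h1 h2
    rw [one_div, Real.log_inv] at h2
    refine ⟨h1, h2, ?_⟩
    have e : EqOn (fun t : ℝ => |(Real.exp (-(t * z)) - Real.exp (-t)) / t|)
        (fun t => (Real.exp (-(t * z)) - Real.exp (-t)) / t) (Ioi 0) := by
      intro t ht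
      have ht : (0 : ℝ) < t := ht
      apply abs_of_nonneg
      apply div_nonneg _ ht.le
      rw [sub_nonneg]
      apply Real.exp_le_exp.mpr
      nlinarith
    rw [setIntegral_congr_fun measurableSet_Ioi e, h2, abs_of_nonpos (Real.log_nonpos hz.le h)]
  · obtain ⟨h1, h2⟩ := frullani one_pos h
    simp only [mul_one, div_one] at h1 h2
    have e0 : ∀ t : ℝ, (Real.exp (-(t * z)) - Real.exp (-t)) / t =
        -((Real.exp (-t) - Real.exp (-(t * z))) / t) := by
      intro t
      ring
    simp_rw [e0]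
    refine ⟨h1.neg, ?_, ?_⟩
    · rw [integral_neg, h2]
    · have e : EqOn (fun t : ℝ => |-((Real.exp (-t) - Real.exp (-(t * z))) / t)|)
          (fun t => (Real.exp (-t) - Real.exp (-(t * z))) / t) (Ioi 0) := by
        intro t ht
        have ht : (0 : ℝ) < t := ht
        simp only [abs_neg]
        apply abs_of_nonneg
        apply div_nonneg _ ht.le
        rw [sub_nonneg]
        apply Real.exp_le_exp.mpr
        nlinarith
      rw [setIntegral_congr_fun measurableSet_Ioi e, h2, abs_of_nonneg (Real.log_nonneg h)]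

lemma gamma_int {k c : ℝ} (hk : 0 < k) (hc : 0 < c) :
    IntegrableOn (fun t : ℝ => t⁻¹ * (π / t) ^ k * Real.exp (-(c / t))) (Ioi 0) ∧
      ∫ t in Ioi (0 : ℝ), t⁻¹ * (π / t) ^ k * Real.exp (-(c / t)) =
        π ^ k * Real.Gamma k * c ^ (-k) := by
  have e : EqOn (fun x : ℝ => (|(-1 : ℝ)| * x ^ ((-1 : ℝ) - 1)) •
        (fun s : ℝ => π ^ k * (s ^ (k - 1) * Real.exp (-(c * s)))) (x ^ (-1 : ℝ)))
      (fun t : ℝ => t⁻¹ * (π / t) ^ k * Real.exp (-(c / t))) (Ioi 0) := by
    intro t ht
    have ht : (0 : ℝ) < t := ht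
    simp only [smul_eq_mul, abs_neg, abs_one, one_mul]
    have h1 : (t ^ (-1 : ℝ)) = t⁻¹ := Real.rpow_neg_one t
    rw [h1, Real.div_rpow Real.pi_pos.le ht.le, Real.inv_rpow ht.le]
    have h2 : t ^ ((-1 : ℝ) - 1) * (t ^ (k - 1))⁻¹ = t⁻¹ * (t ^ k)⁻¹ := by
      rw [← Real.rpow_neg ht.le, ← Real.rpow_neg ht.le, ← Real.rpow_neg_one t,
        ← Real.rpow_add ht, ← Real.rpow_add ht]
      congr 1
      ring
    calc t ^ ((-1 : ℝ) - 1) * (π ^ k * ((t ^ (k - 1))⁻¹ * Real.exp (-(c * t⁻¹))))
        = (t ^ ((-1 : ℝ) - 1) * (t ^ (k - 1))⁻¹) * π ^ k * Real.exp (-(c * t⁻¹)) := by ring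
      _ = _ := by
        rw [h2, div_eq_mul_inv c t]
        ring
  have hG : IntegrableOn (fun s : ℝ => π ^ k * (s ^ (k - 1) * Real.exp (-(c * s)))) (Ioi 0) := by
    have := integrableOn_rpow_mul_exp_neg_mul_rpow (p := 1) (s := k - 1) (b := c) (by linarith)
      one_pos hc
    refine Integrable.const_mul (this.congr_fun (fun s _ => ?_) measurableSet_Ioi) _
    simp only [Real.rpow_one]
    ring_nf
  constructor
  · have := (integrableOn_Ioi_comp_rpow_iff
      (fun s : ℝ => π ^ k * (s ^ (k - 1) * Real.exp (-(c * s)))) (p := -1) (by norm_num)).mpr hG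
    exact this.congr_fun e measurableSet_Ioi
  · rw [← setIntegral_congr_fun measurableSet_Ioi e,
      integral_comp_rpow_Ioi (fun s : ℝ => π ^ k * (s ^ (k - 1) * Real.exp (-(c * s))))
        (p := -1) (by norm_num), integral_const_mul, Real.integral_rpow_mul_exp_neg_mul_Ioi hk hc, one_div,
      Real.inv_rpow hc.le, ← Real.rpow_neg hc.le]
    ring

end Pool.Agent.QCurv
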