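import Mathlib

/-!
Pointwise estimates of the logarithmic kernel along a coordinate axis.
-/

namespace Pool.Agent.QCurv

open MeasureTheory Real

/-- the euclidean space of dimension `m + 2` -/
abbrev Ed (m : ℕ) := EuclideanSpace ℝ (Fin (m + 2))

variable {m : ℕ}

/-- first basis vector -/
noncomputable def e0 : Ed m := EuclideanSpace.single 0 1

/-- The logarithmic kernel. -/
noncomputable def ker (x y : Ed m) : ℝ := Real.log ((1 + ‖y‖) / ‖x - y‖)

/-- sine-like quantity -/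
noncomputable def sn (y : Ed m) : ℝ := |y 1| / ‖y‖

lemma norm_e0 : ‖(e0 : Ed m)‖ = 1 := by simp [e0]

lemma coord_le (y : Ed m) (i : Fin (m + 2)) : |y i| ≤ ‖y‖ := by
  have := PiLp.norm_apply_le y i
  simpa using this

lemma sn_nonneg (y : Ed m) : 0 ≤ sn y := by unfold sn; positivity

lemma sn_le_one (y : Ed m) : sn y ≤ 1 := by
  unfold sn
  exact div_le_one_of_le₀ (coord_le y 1) (norm_nonneg _)

lemma sq_add_sq_le (y : Ed m) : y 0 ^ 2 + y 1 ^ 2 ≤ ‖y‖ ^ 2 := by
  rw [EuclideanSpace.norm_sq_eq, Fin.sum_univ_succ, Fin.sum_univ_succ]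
  simp only [Real.norm_eq_abs, sq_abs]
  have : 0 ≤ ∑ i : Fin m, y (Fin.succ (Fin.succ i)) ^ 2 := Finset.sum_nonneg (fun i _ => sq_nonneg _)
  have h1 : (Fin.succ 0 : Fin (m + 2)) = 1 := rfl
  rw [h1]
  linarith

lemma norm_sub_sq_e0 (r : ℝ) (y : Ed m) : ‖r • e0 - y‖ ^ 2 = r ^ 2 - 2 * r * y 0 + ‖y‖ ^ 2 := by
  rw [norm_sub_sq_real]
  simp only [norm_smul, e0, inner_smul_left, Real.norm_eq_abs, EuclideanSpace.inner_single_left]
  simp
  ring

lemma norm_sub_ge (r : ℝ) (y : Ed m) : max r ‖y‖ * sn y ≤ ‖r • e0 - y‖ := by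
  rcases eq_or_ne y 0 with rfl | hy
  · simp [sn]
  have hy' : 0 < ‖y‖ := norm_pos_iff.mpr hy
  unfold sn
  rw [mul_div_assoc', div_le_iff₀ hy', max_mul_of_nonneg _ _ (abs_nonneg _)]
  apply max_le
  · have h := sq_add_sq_le y
    have h1 := norm_sub_sq_e0 r y
    have h2 : (r * |y 1|) ^ 2 ≤ (‖r • e0 - y‖ * ‖y‖) ^ 2 := by
      rw [mul_pow, mul_pow, h1, sq_abs]
      nlinarith [sq_nonneg (‖y‖ ^ 2 - r * y 0), mul_nonneg (sq_nonneg r) (sub_nonneg.mpr h)]
    exact le_of_sq_le_sq h2 (by positivity)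
  · have := coord_le (r • e0 - y) 1
    have h1 : (r • (e0 : Ed m) - y) 1 = - y 1 := by
      simp [e0]
    rw [h1, abs_neg] at this
    rw [mul_comm]
    exact mul_le_mul_of_nonneg_right this hy'.le

/-- the averaged majorant -/
noncomputable def qf (δ : ℝ) (y : Ed m) : ℝ := sn y ^ (-δ)

lemma qf_nonneg (δ : ℝ) (y : Ed m) : 0 ≤ qf δ y := Real.rpow_nonneg (sn_nonneg y) _

lemma log_inv_sn_le {δ : ℝ} (hδ : 0 < δ) {y : Ed m} (hy : 0 < sn y) :
    Real.log (1 / sn y) ≤ qf δ y / δ := by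
  have := Real.log_le_rpow_div (x := 1 / sn y) (by positivity) hδ
  rwa [one_div, Real.inv_rpow hy.le, ← Real.rpow_neg hy.le, ← one_div] at this

lemma ker_le {δ : ℝ} (hδ : 0 < δ) {r : ℝ} (hr : 0 < r) {y : Ed m} (hy : 0 < sn y) :
    ker (r • e0) y ≤ Real.log (1 + 1 / max r ‖y‖) + qf δ y / δ := by
  have h1 := norm_sub_ge r y
  have hm : 0 < max r ‖y‖ := lt_max_of_lt_left hr
  have h2 : (1 + ‖y‖) / ‖r • e0 - y‖ ≤ (1 + 1 / max r ‖y‖) * (1 / sn y) := by
    rw [div_le_iff₀ (lt_of_lt_of_le (by positivity) h1)]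
    calc 1 + ‖y‖ ≤ 1 + max r ‖y‖ := by linarith [le_max_right r ‖y‖]
      _ = (1 + 1 / max r ‖y‖) * (1 / sn y) * (max r ‖y‖ * sn y) := by
        field_simp
        ring
      _ ≤ _ := by
        apply mul_le_mul_of_nonneg_left h1
        positivity
  have h3 : 0 < (1 + ‖y‖) / ‖r • e0 - y‖ := by
    have : 0 < ‖r • e0 - y‖ := lt_of_lt_of_le (by positivity) h1
    positivity
  calc ker (r • e0) y ≤ Real.log ((1 + 1 / max r ‖y‖) * (1 / sn y)) := Real.log_le_log h3 h2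
    _ = Real.log (1 + 1 / max r ‖y‖) + Real.log (1 / sn y) :=
      Real.log_mul (by positivity) (by positivity)
    _ ≤ _ := by linarith [log_inv_sn_le hδ hy]

lemma ker_ge (x y : Ed m) : - Real.log (1 + ‖x‖) ≤ ker x y := by
  unfold ker
  rcases eq_or_ne (x - y) 0 with h | h
  · rw [h]
    simp only [norm_zero, div_zero, Real.log_zero, Left.neg_nonpos_iff]
    exact Real.log_nonneg (by linarith [norm_nonneg x])
  · have h' : 0 < ‖x - y‖ := norm_pos_iff.mpr h
    rw [← Real.log_inv]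
    apply Real.log_le_log (by positivity)
    rw [inv_eq_one_div, div_le_div_iff₀ (by positivity) h']
    have := norm_sub_le x y
    nlinarith [norm_nonneg x, norm_nonneg y]

lemma log_one_add_le {δ t : ℝ} (hδ : 0 < δ) (hδ1 : δ ≤ 1) (ht : 0 ≤ t) :
    Real.log (1 + t) ≤ t ^ δ / δ := by
  have h1 : (1 + t) ^ δ ≤ 1 + t ^ δ := by
    have := Real.rpow_add_le_add_rpow (a := 1) (b := t) (p := δ) (by norm_num) ht hδ.le hδ1
    simpa using this
  have h2 : Real.log ((1 + t) ^ δ) ≤ (1 + t) ^ δ - 1 := Real.log_le_sub_one_of_pos (by positivity)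
  rw [Real.log_rpow (by positivity)] at h2
  rw [le_div_iff₀ hδ]
  linarith

lemma log_div_le {δ a b c d : ℝ} (hδ : 0 < δ) (hδ1 : δ ≤ 1) (ha : 0 < a) (hb : 0 < b) (hc : 0 < c)
    (hac : c ≤ a) (hab : |a - b| ≤ d) : Real.log (b / a) ≤ (d / c) ^ δ / δ := by
  have hd : 0 ≤ d := le_trans (abs_nonneg _) hab
  have h1 : b / a ≤ 1 + d / c := by
    rw [div_le_iff₀ ha]
    have h2 : b ≤ a + d := by linarith [(abs_le.mp hab).1]
    have h3 : d ≤ d / c * a := by
      rw [div_mul_eq_mul_div, le_div_iff₀ hc]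
      exact mul_le_mul_of_nonneg_left hac hd
    linarith
  calc Real.log (b / a) ≤ Real.log (1 + d / c) := Real.log_le_log (by positivity) h1
    _ ≤ _ := log_one_add_le hδ hδ1 (by positivity)

/-- the modulus of continuity at `1` -/
noncomputable def th (δ r : ℝ) : ℝ := (|r - 1| / min r 1) ^ δ

lemma th_nonneg {δ r : ℝ} (hr : 0 < r) : 0 ≤ th δ r := by
  unfold th
  have : 0 < min r 1 := lt_min hr one_pos
  positivity

lemma abs_ker_sub_le {δ : ℝ} (hδ : 0 < δ) (hδ1 : δ ≤ 1) {r : ℝ} (hr : 0 < r) {y : Ed m}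
    (hy : 0 < sn y) :
    |ker (r • e0) y - ker ((1 : ℝ) • e0) y| ≤ th δ r * (qf δ y / δ) := by
  have hmin : 0 < min r 1 := lt_min hr one_pos
  have ha : min r 1 * sn y ≤ ‖r • e0 - y‖ := by
    refine le_trans ?_ (norm_sub_ge r y)
    exact mul_le_mul_of_nonneg_right (le_trans (min_le_left _ _) (le_max_left _ _)) hy.le
  have hb : min r 1 * sn y ≤ ‖(1 : ℝ) • e0 - y‖ := by
    refine le_trans ?_ (norm_sub_ge 1 y)
    exact mul_le_mul_of_nonneg_right (le_trans (min_le_right _ _) (le_max_left _ _)) hy.le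
  have hc : 0 < min r 1 * sn y := by positivity
  have ha' := lt_of_lt_of_le hc ha
  have hb' := lt_of_lt_of_le hc hb
  have hab : |‖r • e0 - y‖ - ‖(1 : ℝ) • e0 - y‖| ≤ |r - 1| := by
    refine le_trans (abs_norm_sub_norm_le _ _) ?_
    have : r • e0 - y - ((1 : ℝ) • e0 - y) = (r - 1) • (e0 : Ed m) := by module
    rw [this, norm_smul, norm_e0, mul_one, Real.norm_eq_abs]
  have e : (|r - 1| / (min r 1 * sn y)) ^ δ / δ = th δ r * (qf δ y / δ) := by
    unfold th qf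
    rw [← div_div, Real.div_rpow (by positivity) hy.le, Real.rpow_neg hy.le]
    field_simp
  rw [← e]
  have e1 : ker (r • e0) y - ker ((1 : ℝ) • e0) y
      = Real.log (‖(1 : ℝ) • e0 - y‖ / ‖r • e0 - y‖) := by
    unfold ker
    rw [Real.log_div (by positivity) ha'.ne', Real.log_div (by positivity) hb'.ne',
      Real.log_div hb'.ne' ha'.ne']
    ring
  rw [abs_le]
  constructor
  · have := log_div_le (d := |r - 1|) hδ hδ1 hb' ha' hc hb (by rwa [abs_sub_comm])
    rw [Real.log_div ha'.ne' hb'.ne'] at this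
    rw [e1, Real.log_div hb'.ne' ha'.ne']
    linarith
  · rw [e1]
    exact log_div_le hδ hδ1 ha' hb' hc ha hab

end Pool.Agent.QCurv
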