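import Mathlib

/-!
The operator `(-Δ) ^ (n / 2)` on test functions, and the weak solutions of
`(-Δ) ^ (n / 2) u = |x| ^ (n α) exp (n u)` with finite total curvature.
-/

namespace Pool.Agent.QCurv

open FourierTransform MeasureTheory
open scoped SchwartzMap ContDiff

variable {V : Type*} [NormedAddCommGroup V] [InnerProductSpace ℝ V] [FiniteDimensional ℝ V]

/-- `(-Δ) ^ (n / 2) φ = (-1) ^ (n / 2) Δ ^ (n / 2) φ` for even `n` and a smooth function `φ`,
with `Δ` the Laplacian. -/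
noncomputable def evenLap (n : ℕ) (φ : V → ℝ) (x : V) : ℝ :=
  (-1) ^ (n / 2) * ((Laplacian.laplacian : (V → ℝ) → (V → ℝ))^[n / 2] φ) x

/-- `(-Δ) ^ (n / 2) φ = 𝓕⁻¹ (|2 π ξ| ^ n 𝓕 φ)`, where `𝓕 φ ξ = ∫ exp (-2 π i x·ξ) φ x dx`, for a
Schwartz function `φ`. -/
noncomputable def fracLap [MeasurableSpace V] [BorelSpace V] (n : ℕ) (φ : 𝓢(V, ℂ)) : V → ℂ :=
  𝓕⁻ (fun ξ : V => (((2 * Real.pi * ‖ξ‖) ^ n : ℝ) : ℂ) * 𝓕 (φ : V → ℂ) ξ)

/-- The function `u` on `ℝⁿ` is a weak solution of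
`(-Δ) ^ (n / 2) u = |x| ^ (n α) exp (n u)` with `∫ exp (n u) |x| ^ (n α) < ∞`.

For even `n`: `u` is locally integrable and the equation holds against all smooth compactly
supported functions.  For odd `n`: `u / (1 + |x| ^ (2 n))` is integrable and the equation
holds against all Schwartz functions. -/
structure IsSolution (n : ℕ) (α : ℝ) (u : EuclideanSpace ℝ (Fin n) → ℝ) : Prop where
  finite : Integrable (fun x => Real.exp (n * u x) * ‖x‖ ^ (n * α))
  even : Even n → LocallyIntegrable u ∧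
    ∀ φ : EuclideanSpace ℝ (Fin n) → ℝ, ContDiff ℝ ∞ φ → HasCompactSupport φ →
      Integrable (fun x => u x * evenLap n φ x) ∧
      ∫ x, u x * evenLap n φ x = ∫ x, ‖x‖ ^ (n * α) * Real.exp (n * u x) * φ x
  odd : Odd n → Integrable (fun x => |u x| * (1 + ‖x‖ ^ (2 * n))⁻¹) ∧
    ∀ φ : 𝓢(EuclideanSpace ℝ (Fin n), ℂ),
      Integrable (fun x => (u x : ℂ) * fracLap n φ x) ∧
      ∫ x, (u x : ℂ) * fracLap n φ x =
        ∫ x, ((‖x‖ ^ (n * α) * Real.exp (n * u x) : ℝ) : ℂ) * φ x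

end Pool.Agent.QCurv
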