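import Pool.Agent.Lib.MP_83d6ff_an.Moment
import Pool.Agent.Lib.MP_83d6ff_an.LapDefs

/-!
Properties of the fractional Laplacian of a Schwartz function.
-/

namespace Pool.Agent.QCurv

open MeasureTheory Real Set Filter FourierTransform
open scoped ENNReal NNReal Topology InnerProductSpace SchwartzMap ContDiff

variable {V : Type*} [NormedAddCommGroup V] [InnerProductSpace ℝ V] [FiniteDimensional ℝ V]
  [MeasurableSpace V] [BorelSpace V]

/-- the symbol times the transform -/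
noncomputable def symb (n : ℕ) (φ : 𝓢(V, ℂ)) (ξ : V) : ℂ :=
  (((2 * π * ‖ξ‖) ^ n : ℝ) : ℂ) * 𝓕 (φ : V → ℂ) ξ

lemma fracLap_eq (n : ℕ) (φ : 𝓢(V, ℂ)) : fracLap n φ = 𝓕⁻ (symb n φ) := rfl

lemma continuous_fourier_schwartz (φ : 𝓢(V, ℂ)) : Continuous (𝓕 (φ : V → ℂ)) := by
  rw [← SchwartzMap.fourier_coe]
  exact (𝓕 φ).continuous

lemma continuous_symb (n : ℕ) (φ : 𝓢(V, ℂ)) : Continuous (symb n φ) := by
  unfold symb
  exact (Complex.continuous_ofReal.comp (by fun_prop)).mul (continuous_fourier_schwartz φ)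

lemma integrable_symb (n : ℕ) (φ : 𝓢(V, ℂ)) : Integrable (symb n φ) := by
  have h := ((𝓕 φ).integrable_pow_mul (volume : Measure V) n).const_mul ((2 * π) ^ n)
  rw [SchwartzMap.fourier_coe] at h
  refine h.mono' (continuous_symb n φ).aestronglyMeasurable (Eventually.of_forall fun ξ => ?_)
  unfold symb
  rw [norm_mul, Complex.norm_real, Real.norm_eq_abs, abs_of_nonneg (by positivity), mul_pow]
  apply le_of_eq
  ring

lemma symb_le (n : ℕ) (hn : 5 ≤ n) (φ : 𝓢(V, ℂ)) : ∃ C : ℝ, ∀ ξ, ‖symb n φ ξ‖ ≤ C * ‖ξ‖ ^ 5 := by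
  obtain ⟨C, hC⟩ := (𝓕 φ).decay (n - 5) 0
  refine ⟨(2 * π) ^ n * C, fun ξ => ?_⟩
  have h := hC.2 ξ
  simp only [norm_iteratedFDeriv_zero] at h
  rw [SchwartzMap.fourier_coe] at h
  unfold symb
  rw [norm_mul, Complex.norm_real, Real.norm_eq_abs, abs_of_nonneg (by positivity), mul_pow]
  have e : ‖ξ‖ ^ n = ‖ξ‖ ^ (n - 5) * ‖ξ‖ ^ 5 := by
    rw [← pow_add]
    congr 1
    omega
  rw [e]
  calc (2 * π) ^ n * (‖ξ‖ ^ (n - 5) * ‖ξ‖ ^ 5) * ‖𝓕 (φ : V → ℂ) ξ‖
      = (2 * π) ^ n * (‖ξ‖ ^ (n - 5) * ‖𝓕 (φ : V → ℂ) ξ‖) * ‖ξ‖ ^ 5 := by ring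
    _ ≤ (2 * π) ^ n * C * ‖ξ‖ ^ 5 := by gcongr

lemma continuous_fracLap (n : ℕ) (φ : 𝓢(V, ℂ)) : Continuous (fracLap n φ) := by
  rw [fracLap_eq]
  have h : 𝓕⁻ (symb n φ) = fun x => 𝓕 (symb n φ) (-x) := by
    ext x
    exact Real.fourierInv_eq_fourier_neg _ _
  rw [h]
  have h2 : Continuous (𝓕 (symb n φ)) :=
    VectorFourier.fourierIntegral_continuous Real.continuous_fourierChar
      (innerSL ℝ).continuous₂ (integrable_symb n φ)
  exact h2.comp continuous_neg

lemma norm_fracLap_le (n : ℕ) (φ : 𝓢(V, ℂ)) (x : V) :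
    ‖fracLap n φ x‖ ≤ ∫ ξ, ‖symb n φ ξ‖ := by
  rw [fracLap_eq, Real.fourierInv_eq]
  apply (norm_integral_le_integral_norm _).trans
  simp_rw [Circle.norm_smul]
  exact le_rfl

lemma wt_fracLap [Nontrivial V] {n : ℕ} (hn : 5 ≤ n) (φ : 𝓢(V, ℂ)) :
    ∫⁻ x, wt x * ‖fracLap n φ x‖ₑ < ⊤ := by
  rcases Nat.even_or_odd n with he | ho
  · obtain ⟨k, hk⟩ := he
    obtain ⟨Θ, hΘ⟩ := exists_theta k φ
    have e : ∀ x, fracLap n φ x = (((2 * π) ^ n : ℝ) : ℂ) * Θ x := by
      intro x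
      have h1 : Θ x = 𝓕⁻ (𝓕 (Θ : V → ℂ)) x := by
        rw [← SchwartzMap.fourier_coe, ← SchwartzMap.fourierInv_coe,
          FourierTransform.fourierInv_fourier_eq]
      rw [h1, fracLap_eq, Real.fourierInv_eq, Real.fourierInv_eq, ← integral_const_mul]
      apply integral_congr_ae
      refine Eventually.of_forall fun ξ => ?_
      simp only [symb]
      rw [hΘ, mul_smul_comm, ← mul_assoc, ← Complex.ofReal_mul]
      congr 3
      rw [mul_pow, ← pow_mul, hk]
      ring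
    have e2 : ∀ x, wt x * ‖fracLap n φ x‖ₑ = ‖(((2 * π) ^ n : ℝ) : ℂ)‖ₑ * (wt x * ‖Θ x‖ₑ) := by
      intro x
      rw [e, enorm_mul]
      ring
    simp_rw [e2]
    rw [lintegral_const_mul' _ _ enorm_ne_top]
    exact ENNReal.mul_lt_top enorm_lt_top (wt_lint_schwartz Θ)
  · obtain ⟨j, hj⟩ := ho
    have hk : 3 ≤ j + 1 := by omega
    have hn' : n = 2 * (j + 1) - 1 := by omega
    have h := wt_lint_odd hk φ
    have e : ∀ x, fracLap n φ x = (((2 * π) ^ n : ℝ) : ℂ) *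
        𝓕⁻ (fun ξ : V => ((‖ξ‖ ^ (2 * (j + 1) - 1) : ℝ) : ℂ) * 𝓕 (φ : V → ℂ) ξ) x := by
      intro x
      rw [fracLap_eq, Real.fourierInv_eq, Real.fourierInv_eq, ← integral_const_mul]
      apply integral_congr_ae
      refine Eventually.of_forall fun ξ => ?_
      simp only [symb]
      rw [mul_smul_comm, ← mul_assoc, ← Complex.ofReal_mul, mul_pow, hn']
    have e2 : ∀ x, wt x * ‖fracLap n φ x‖ₑ = ‖(((2 * π) ^ n : ℝ) : ℂ)‖ₑ * (wt x *
        ‖𝓕⁻ (fun ξ : V => ((‖ξ‖ ^ (2 * (j + 1) - 1) : ℝ) : ℂ) * 𝓕 (φ : V → ℂ) ξ) x‖ₑ) := by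
      intro x
      rw [e, enorm_mul]
      ring
    simp_rw [e2]
    rw [lintegral_const_mul' _ _ enorm_ne_top]
    exact ENNReal.mul_lt_top enorm_lt_top h

lemma integrable_fracLap [Nontrivial V] {n : ℕ} (hn : 5 ≤ n) (φ : 𝓢(V, ℂ)) :
    Integrable (fracLap n φ) :=
  integrable_of_wt (continuous_fracLap n φ).aestronglyMeasurable (wt_fracLap hn φ)

lemma fourier_fracLap [Nontrivial V] {n : ℕ} (hn : 5 ≤ n) (φ : 𝓢(V, ℂ)) :
    𝓕 (fracLap n φ) = symb n φ := by
  rw [fracLap_eq]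
  refine Continuous.fourier_fourierInv_eq (continuous_symb n φ) (integrable_symb n φ) ?_
  have h := (integrable_fracLap hn φ).comp_neg
  refine h.congr (Eventually.of_forall fun x => ?_)
  simp only
  rw [fracLap_eq, Real.fourierInv_eq_fourier_neg, neg_neg]

lemma integral_fracLap [Nontrivial V] {n : ℕ} (hn : 5 ≤ n) (φ : 𝓢(V, ℂ)) :
    ∫ x, fracLap n φ x = 0 := by
  have h := congrFun (fourier_fracLap hn φ) 0
  rw [Real.fourier_eq] at h
  simp only [inner_zero_right, neg_zero, AddChar.map_zero_eq_one, one_smul] at h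
  rw [h]
  unfold symb
  rw [norm_zero, mul_zero, zero_pow (by omega)]
  simp

lemma moments_fracLap [Nontrivial V] {n : ℕ} (hn : 5 ≤ n) (φ : 𝓢(V, ℂ)) (v : V) :
    ∫ x, (((inner ℝ x v) ^ 2 : ℝ) : ℂ) * fracLap n φ x = 0 ∧
      ∫ x, (((inner ℝ x v) ^ 4 : ℝ) : ℂ) * fracLap n φ x = 0 := by
  obtain ⟨C, hC⟩ := symb_le n hn φ
  exact moments (continuous_fracLap n φ).aestronglyMeasurable (wt_fracLap hn φ) (C := C)
    (by rw [fourier_fracLap hn φ]; exact hC) v

/-- an integrable majorant of the logarithm -/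
noncomputable def LL (s : ℝ) : ℝ := s + 1 + Real.exp 1 * (s⁻¹ * Real.exp (-s))

lemma inv_le_LL {s : ℝ} (hs : 0 < s) : s⁻¹ ≤ 1 + Real.exp 1 * (s⁻¹ * Real.exp (-s)) := by
  rcases le_total 1 s with h | h
  · have h1 : s⁻¹ ≤ 1 := inv_le_one_of_one_le₀ h
    have : 0 ≤ Real.exp 1 * (s⁻¹ * Real.exp (-s)) := by positivity
    linarith
  · have h1 : 1 ≤ Real.exp 1 * Real.exp (-s) := by
      rw [← Real.exp_add]
      exact Real.one_le_exp (by linarith)
    have h2 : 0 < s⁻¹ := by positivity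
    nlinarith

lemma abs_log_le_LL {s : ℝ} (hs : 0 ≤ s) : |Real.log s| ≤ LL s := by
  unfold LL
  rcases hs.eq_or_lt with rfl | h0
  · simp
  have h1 := inv_le_LL h0
  have h2 : Real.log s ≤ s := (Real.log_le_sub_one_of_pos h0).trans (by linarith)
  have h3 : -Real.log s ≤ s⁻¹ := by
    rw [← Real.log_inv]
    exact (Real.log_le_sub_one_of_pos (by positivity)).trans (by linarith)
  have h4 : 0 ≤ Real.exp 1 * (s⁻¹ * Real.exp (-s)) := by positivity
  rw [abs_le]
  constructor <;> linarith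

lemma int_invexp (hd : 2 ≤ Module.finrank ℝ V) :
    Integrable (fun x : V => ‖x‖⁻¹ * Real.exp (-‖x‖)) := by
  have : Nontrivial V := Module.nontrivial_of_finrank_pos (R := ℝ) (by omega)
  rw [integrable_fun_norm_addHaar (volume : Measure V) (f := fun r => r⁻¹ * Real.exp (-r))]
  have h := Real.GammaIntegral_convergent (s := (Module.finrank ℝ V : ℝ) - 1) (by
    have : (2 : ℝ) ≤ Module.finrank ℝ V := by exact_mod_cast hd
    linarith)
  refine h.congr_fun (fun y hy => ?_) measurableSet_Ioi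
  have hy : (0 : ℝ) < y := hy
  simp only [smul_eq_mul]
  have e : y ^ (Module.finrank ℝ V - 1) * y⁻¹ = y ^ ((Module.finrank ℝ V : ℝ) - 1 - 1) := by
    rw [← Real.rpow_natCast, ← Real.rpow_neg_one, ← Real.rpow_add hy]
    congr 1
    rw [Nat.cast_sub (by omega)]
    push_cast
    ring
  rw [← mul_assoc, e]
  ring

lemma integrable_log_mul (hd : 2 ≤ Module.finrank ℝ V) {ψ : V → ℂ} (hm : AEStronglyMeasurable ψ)
    (hw : ∫⁻ x, wt x * ‖ψ x‖ₑ < ⊤) {B : ℝ} (hB : ∀ x, ‖ψ x‖ ≤ B) (y : V) {g : V → ℝ}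
    (hg : Measurable g) (hgb : ∀ x, x ≠ y → |g x| ≤ LL ‖x - y‖) :
    Integrable (fun x => ((g x : ℝ) : ℂ) * ψ x) := by
  have : Nontrivial V := Module.nontrivial_of_finrank_pos (R := ℝ) (by omega)
  have hB0 : 0 ≤ B := le_trans (norm_nonneg _) (hB 0)
  have i1 : Integrable (fun x => (((‖x - y‖ + 1 : ℝ)) : ℂ) * ψ x) := by
    refine int_of_wt hm hw (C := 1 + ‖y‖) ?_ (fun x => ?_)
    · exact (by fun_prop : Measurable fun x => ((‖x - y‖ + 1 : ℝ) : ℂ)).aestronglyMeasurable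
    · rw [Complex.norm_real, Real.norm_eq_abs, abs_of_nonneg (by positivity)]
      have h1 := norm_sub_le x y
      have h2 : (1 + ‖x‖) ≤ (1 + ‖x‖) ^ 4 := le_self_pow₀ (by linarith [norm_nonneg x]) (by norm_num)
      calc ‖x - y‖ + 1 ≤ ‖x‖ + ‖y‖ + 1 := by linarith
        _ ≤ (1 + ‖y‖) * (1 + ‖x‖) := by nlinarith [norm_nonneg x, norm_nonneg y]
        _ ≤ (1 + ‖y‖) * (1 + ‖x‖) ^ 4 := by gcongr
  have i2 : Integrable (fun x : V => Real.exp 1 * B * (‖x - y‖⁻¹ * Real.exp (-‖x - y‖))) :=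
    ((int_invexp hd).comp_sub_right y).const_mul _
  refine (i1.norm.add i2).mono' ?_ ?_
  · exact (Complex.measurable_ofReal.comp hg).aestronglyMeasurable.mul hm
  · have hy : ∀ᵐ x : V, x ≠ y := by
      rw [ae_iff]
      simp
    filter_upwards [hy] with x hx
    simp only [Pi.add_apply]
    rw [norm_mul, norm_mul, Complex.norm_real, Complex.norm_real, Real.norm_eq_abs,
      Real.norm_eq_abs, abs_of_nonneg (by positivity : 0 ≤ ‖x - y‖ + 1)]
    have h1 := mul_le_mul_of_nonneg_right (hgb x hx) (norm_nonneg (ψ x))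
    unfold LL at h1
    have h2 : 0 ≤ Real.exp 1 * (‖x - y‖⁻¹ * Real.exp (-‖x - y‖)) := by positivity
    have h3 := mul_le_mul_of_nonneg_left (hB x) h2
    linarith

/-- The logarithmic kernel is a fundamental solution. -/
theorem log_pairing {n : ℕ} (hn : 5 ≤ n) (hd : Module.finrank ℝ V = n) (φ : 𝓢(V, ℂ)) (y : V) :
    2 * ∫ x : V, ((-Real.log ‖x - y‖ : ℝ) : ℂ) * fracLap n φ x =
      ((cst n * (2 * π) ^ n : ℝ) : ℂ) * φ y := by
  have : Nontrivial V := Module.nontrivial_of_finrank_pos (R := ℝ) (by omega)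
  set a : V → ℂ := fun ξ => 𝐞 (inner ℝ ξ y) • symb n φ ξ with ha
  have hac : Continuous a := by
    have h2 : Continuous (fun ξ : V => 𝐞 (inner ℝ ξ y)) :=
      Real.continuous_fourierChar.comp (by fun_prop)
    exact h2.smul (continuous_symb n φ)
  have hai : Integrable a := by
    refine (integrable_symb n φ).norm.mono' hac.aestronglyMeasurable
      (Eventually.of_forall fun ξ => ?_)
    simp only [ha]
    rw [Circle.norm_smul]
  have hinv : ∀ x, 𝓕⁻ a x = fracLap n φ (x + y) := by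
    intro x
    rw [fracLap_eq, Real.fourierInv_eq, Real.fourierInv_eq]
    apply integral_congr_ae
    refine Eventually.of_forall fun ξ => ?_
    simp only [ha]
    rw [smul_smul, ← AddChar.map_add_eq_mul, inner_add_right]
  have hinv' : 𝓕⁻ a = fun x => fracLap n φ (x + y) := funext hinv
  have hlogi := integrable_log_mul (ψ := fracLap n φ) (by omega)
    (continuous_fracLap n φ).aestronglyMeasurable (wt_fracLap hn φ) (norm_fracLap_le n φ) y
    (g := fun x => Real.log ‖x - y‖) (by fun_prop) (fun x _ => abs_log_le_LL (norm_nonneg _))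
  have key := log_pairing0 (a := a) hai (by
      have h1 : Integrable (fun ξ : V => (((2 * π) ^ n : ℝ) : ℂ) *
          (𝐞 (inner ℝ ξ y) • 𝓕 (φ : V → ℂ) ξ)) := by
        apply Integrable.const_mul
        have hc : Continuous (fun ξ : V => 𝐞 (inner ℝ ξ y) • 𝓕 (φ : V → ℂ) ξ) :=
          (Real.continuous_fourierChar.comp (by fun_prop)).smul (continuous_fourier_schwartz φ)
        have hF := (𝓕 φ).integrable (μ := (volume : Measure V))
        rw [SchwartzMap.fourier_coe] at hF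
        refine hF.norm.mono' hc.aestronglyMeasurable (Eventually.of_forall fun ξ => ?_)
        rw [Circle.norm_smul]
      refine h1.congr ?_
      filter_upwards [ae_ne_zero] with ξ hξ
      have hξ' : 0 < ‖ξ‖ := norm_pos_iff.mpr hξ
      simp only [ha, symb, hd]
      rw [mul_smul_comm, mul_smul_comm, ← mul_assoc, ← Complex.ofReal_mul]
      congr 3
      rw [mul_pow (2 * π) ‖ξ‖ n, Real.rpow_neg hξ'.le, Real.rpow_natCast]
      field_simp)
    (by
      rw [hinv']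
      exact (integrable_fracLap hn φ).comp_add_right y)
    (by
      rw [hinv', integral_add_right_eq_self (fun x => fracLap n φ x) y]
      exact integral_fracLap hn φ)
    (by
      rw [hinv']
      have := hlogi.comp_add_right y
      refine this.congr (Eventually.of_forall fun x => ?_)
      simp)
  rw [hd] at key
  have e1 : ∫ x : V, ((-Real.log ‖x‖ : ℝ) : ℂ) * 𝓕⁻ a x =
      ∫ x : V, ((-Real.log ‖x - y‖ : ℝ) : ℂ) * fracLap n φ x := by
    rw [← integral_add_right_eq_self (fun x => ((-Real.log ‖x - y‖ : ℝ) : ℂ) * fracLap n φ x) y]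
    apply integral_congr_ae
    refine Eventually.of_forall fun x => ?_
    simp only [add_sub_cancel_right]
    rw [hinv]
  rw [← e1, key]
  have e2 : ∫ ξ : V, ((‖ξ‖ ^ (-(n : ℝ)) : ℝ) : ℂ) * a ξ = (((2 * π) ^ n : ℝ) : ℂ) * φ y := by
    have h1 : φ y = 𝓕⁻ (𝓕 (φ : V → ℂ)) y := by
      rw [← SchwartzMap.fourier_coe, ← SchwartzMap.fourierInv_coe,
        FourierTransform.fourierInv_fourier_eq]
    rw [h1, Real.fourierInv_eq, ← integral_const_mul]
    apply integral_congr_ae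
    filter_upwards [ae_ne_zero] with ξ hξ
    have hξ' : 0 < ‖ξ‖ := norm_pos_iff.mpr hξ
    simp only [ha, symb]
    rw [mul_smul_comm, mul_smul_comm, ← mul_assoc, ← Complex.ofReal_mul]
    congr 3
    rw [mul_pow (2 * π) ‖ξ‖ n, Real.rpow_neg hξ'.le, Real.rpow_natCast]
    field_simp
  rw [e2]
  push_cast
  ring

end Pool.Agent.QCurv
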