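import Pool.Agent.Lib.MP_83d6ff_an.Final

/-!
Continuity of the potential, and the main theorem.
-/

namespace Pool.Agent.QCurv

open MeasureTheory Real Set Filter FourierTransform Metric
open scoped ENNReal NNReal Topology InnerProductSpace SchwartzMap ContDiff

variable {m : ℕ}

lemma continuous_pot {F : ℝ → ℝ} (hF : Measurable F) (hFi : Integrable (fun y : Ed m => F ‖y‖))
    (hFl : Integrable (fun y : Ed m => Real.log (1 + 1 / ‖y‖) * F ‖y‖)) :
    Continuous (fun x : Ed m => pot m F ‖x‖) := by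
  have hδ : (0 : ℝ) < 1 / 2 := by norm_num
  have hδ1 : (1 / 2 : ℝ) < 1 := by norm_num
  have hc : ContinuousOn (pot m F) (Ici 0) := by
    intro r₀ hr₀
    have hr₀ : (0 : ℝ) ≤ r₀ := hr₀
    unfold pot
    refine tendsto_integral_filter_of_dominated_convergence
      (fun y : Ed m => Real.log (2 + r₀) * |F ‖y‖| + |Real.log (1 + 1 / ‖y‖) * F ‖y‖| +
        (qf (1 / 2) y * |F ‖y‖|) / (1 / 2)) ?_ ?_ ?_ ?_
    · refine Eventually.of_forall fun r => ?_
      exact ((measurable_ker_left _).mul (hF.comp measurable_norm)).aestronglyMeasurable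
    · have h1 : ∀ᶠ r in 𝓝[Ici 0] r₀, r ≤ r₀ + 1 := by
        apply mem_nhdsWithin_of_mem_nhds
        exact Iic_mem_nhds (by linarith)
      filter_upwards [h1, self_mem_nhdsWithin] with r hr hr0
      have hr0 : (0 : ℝ) ≤ r := hr0
      filter_upwards [ae_sn_pos] with y hy
      have hy0 : y ≠ 0 := by
        rintro rfl
        simp [sn] at hy
      have hyn : 0 < ‖y‖ := norm_pos_iff.mpr hy0
      have hl : 0 ≤ Real.log (1 + 1 / ‖y‖) := Real.log_nonneg (by
        have : 0 < 1 / ‖y‖ := by positivity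
        linarith)
      have hq := qf_nonneg (m := m) (1 / 2) y
      have hl2 : 0 ≤ Real.log (2 + r₀) := Real.log_nonneg (by linarith)
      have key : |ker (r • e0) y| ≤ Real.log (2 + r₀) + Real.log (1 + 1 / ‖y‖) +
          qf (1 / 2) y / (1 / 2) := by
        have hlow := ker_ge (r • (e0 : Ed m)) y
        rw [norm_smul, norm_e0, mul_one, Real.norm_eq_abs, abs_of_nonneg hr0] at hlow
        have hlow2 : Real.log (1 + r) ≤ Real.log (2 + r₀) :=
          Real.log_le_log (by linarith) (by linarith)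
        have hq' : 0 ≤ qf (1 / 2) y / (1 / 2 : ℝ) := by positivity
        have hup : ker (r • e0) y ≤ Real.log (1 + 1 / ‖y‖) + qf (1 / 2) y / (1 / 2) := by
          rcases hr0.eq_or_lt with rfl | hpos
          · unfold ker
            rw [zero_smul, zero_sub, norm_neg]
            have e : (1 + ‖y‖) / ‖y‖ = 1 + 1 / ‖y‖ := by
              field_simp
              ring
            rw [e]
            linarith
          · have h2 := ker_le hδ hpos hy
            have h3 : Real.log (1 + 1 / max r ‖y‖) ≤ Real.log (1 + 1 / ‖y‖) := by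
              have hm : 0 < max r ‖y‖ := lt_max_of_lt_left hpos
              apply Real.log_le_log (by positivity)
              have := one_div_le_one_div_of_le hyn (le_max_right r ‖y‖)
              linarith
            linarith
        rw [abs_le]
        constructor <;> linarith
      rw [norm_mul, Real.norm_eq_abs, Real.norm_eq_abs, abs_mul, abs_of_nonneg hl]
      have := mul_le_mul_of_nonneg_right key (abs_nonneg (F ‖y‖))
      calc _ ≤ _ := this
        _ = _ := by ring
    · exact ((hFi.abs.const_mul _).add hFl.abs).add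
        ((integrable_qf (m := m) hδ hδ1 (F := fun r => |F r|) hF.abs hFi.abs).div_const _)
    · have hy : ∀ᵐ y : Ed m, y ≠ r₀ • e0 := by
        rw [ae_iff]
        simp
      filter_upwards [hy] with y hy
      apply Tendsto.mul_const
      unfold ker
      have hne : ‖r₀ • (e0 : Ed m) - y‖ ≠ 0 := by
        rw [norm_ne_zero_iff, sub_ne_zero]
        exact fun h => hy h.symm
      have hcont : ContinuousAt (fun r : ℝ => Real.log ((1 + ‖y‖) / ‖r • (e0 : Ed m) - y‖)) r₀ := by
        apply ContinuousAt.log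
        · exact ContinuousAt.div (by fun_prop) (by fun_prop) hne
        · have : 0 < 1 + ‖y‖ := by positivity
          exact div_ne_zero this.ne' hne
      exact hcont.tendsto.mono_left nhdsWithin_le_nhds
  exact hc.comp_continuous continuous_norm (fun x => norm_nonneg x)

lemma cst_pos {d : ℝ} (hd : 0 < d) : 0 < cst d := by
  unfold cst
  have := Real.Gamma_pos_of_pos (show 0 < d / 2 by positivity)
  positivity

/-- Growth of the solutions. -/
lemma growth {n : ℕ} (hn : 5 ≤ n) (hd : m + 2 = n) {u : Ed m → ℝ} (hu : Continuous u) {C : ℝ}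
    (hC : ∀ x : Ed m, 1 ≤ ‖x‖ → |u x| ≤ C * (1 + ‖x‖) ^ 4) :
    Integrable (fun x : Ed m => |u x| * (1 + ‖x‖ ^ (2 * n))⁻¹) := by
  obtain ⟨C', hC'⟩ := (isCompact_closedBall (0 : Ed m) 1).exists_bound_of_continuousOn hu.continuousOn
  set B := max C C' with hB
  have hB0 : 0 ≤ B := by
    have := hC' 0 (by simp)
    exact le_trans (le_trans (norm_nonneg _) this) (le_max_right _ _)
  have hb : ∀ x : Ed m, |u x| ≤ B * (1 + ‖x‖) ^ 4 := by
    intro x
    have h1 : (1 : ℝ) ≤ (1 + ‖x‖) ^ 4 := one_le_pow₀ (by linarith [norm_nonneg x])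
    rcases le_total 1 ‖x‖ with h | h
    · refine le_trans (hC x h) ?_
      exact mul_le_mul_of_nonneg_right (le_max_left _ _) (by positivity)
    · have h2 := hC' x (by simpa using h)
      rw [Real.norm_eq_abs] at h2
      calc |u x| ≤ C' := h2
        _ ≤ B := le_max_right _ _
        _ ≤ B * (1 + ‖x‖) ^ 4 := le_mul_of_one_le_right hB0 h1
  have hint := (integrable_one_add_norm (E := Ed m) (μ := volume) (r := ((2 * n - 4 : ℕ) : ℝ)) (by
    have : Module.finrank ℝ (Ed m) = n := by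
      rw [← hd]
      simp
    rw [this]
    exact_mod_cast (by omega : n < 2 * n - 4))).const_mul (B * 4 ^ n)
  refine hint.mono' ?_ (Eventually.of_forall fun x => ?_)
  · apply Continuous.aestronglyMeasurable
    apply hu.abs.mul
    apply Continuous.inv₀ (by fun_prop)
    intro x
    positivity
  · rw [Real.norm_eq_abs, abs_of_nonneg (by positivity)]
    have h1 : (1 + ‖x‖) ^ (2 * n) ≤ 4 ^ n * (1 + ‖x‖ ^ (2 * n)) := by
      have h2 : 1 + ‖x‖ ≤ 2 * max 1 ‖x‖ := by
        have := le_max_left 1 ‖x‖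
        have := le_max_right 1 ‖x‖
        linarith
      have h3 : (max 1 ‖x‖) ^ (2 * n) ≤ 1 + ‖x‖ ^ (2 * n) := by
        rcases le_total 1 ‖x‖ with h | h
        · rw [max_eq_right h]
          linarith
        · rw [max_eq_left h, one_pow]
          have : 0 ≤ ‖x‖ ^ (2 * n) := by positivity
          linarith
      calc (1 + ‖x‖) ^ (2 * n) ≤ (2 * max 1 ‖x‖) ^ (2 * n) :=
            pow_le_pow_left₀ (by positivity) h2 _
        _ = 4 ^ n * (max 1 ‖x‖) ^ (2 * n) := by
            rw [mul_pow, pow_mul]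
            norm_num
        _ ≤ _ := by gcongr
    have hpos : 0 < 1 + ‖x‖ := by positivity
    have h4 : (1 + ‖x‖) ^ (-((2 * n - 4 : ℕ) : ℝ)) = (1 + ‖x‖) ^ 4 / (1 + ‖x‖) ^ (2 * n) := by
      rw [Real.rpow_neg hpos.le, Real.rpow_natCast]
      have : (1 + ‖x‖) ^ (2 * n) = (1 + ‖x‖) ^ (2 * n - 4) * (1 + ‖x‖) ^ 4 := by
        rw [← pow_add]
        congr 1
        omega
      rw [this]
      field_simp
    rw [h4]
    calc |u x| * (1 + ‖x‖ ^ (2 * n))⁻¹ ≤ (B * (1 + ‖x‖) ^ 4) * (1 + ‖x‖ ^ (2 * n))⁻¹ := by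
          gcongr
          exact hb x
      _ ≤ (B * (1 + ‖x‖) ^ 4) * (4 ^ n / (1 + ‖x‖) ^ (2 * n)) := by
          gcongr
          rw [inv_eq_one_div, div_le_div_iff₀ (by positivity) (by positivity), one_mul]
          exact h1
      _ = _ := by ring

/-- Main theorem. -/
theorem main (n : ℕ) (hn : 5 ≤ n) (α : ℝ) (hα : -1 < α) (L : ℝ) (hL : 0 < L) :
    ∃ u : EuclideanSpace ℝ (Fin n) → ℝ, Continuous u ∧ (∀ x y, ‖x‖ = ‖y‖ → u x = u y) ∧
      IsSolution n α u ∧ ∫ x, Real.exp (n * u x) * ‖x‖ ^ (n * α) = L := by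
  obtain ⟨m, rfl⟩ : ∃ m, n = m + 2 := ⟨n - 2, by omega⟩
  set n := m + 2 with hn'
  set N : ℝ := (n : ℝ) with hN'
  have hN : 0 < N := by
    rw [hN']
    exact_mod_cast (by omega : 0 < n)
  set γ : ℝ := cst n * (2 * π) ^ n / 2 with hγ
  have hγ0 : 0 < γ := by
    have := cst_pos (d := (n : ℝ)) hN
    positivity
  set b := L / γ with hb'
  have hb : 0 < b := by positivity
  set a := N * α with ha'
  have ha : 0 < (m : ℝ) + 2 + a := by
    have e : (m : ℝ) + 2 + a = N * (1 + α) := by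
      rw [ha', hN', hn']
      push_cast
      ring
    rw [e]
    exact mul_pos hN (by linarith)
  obtain ⟨l, F, hF, hFi, hFl, hF0, hF1, hZ, hfix⟩ := exists_fixed m hN hb ha
  set Z := ∫ y : Ed m, den m N a b l F ‖y‖ with hZ'
  set c := Real.log (L / Z) / N with hc'
  set u : Ed m → ℝ := fun x => b * pot m F ‖x‖ + l * (2 * ‖x‖ ^ 2 - ‖x‖ ^ 4) + c with hu
  have hcu : Continuous u := by
    have h1 := continuous_pot hF hFi hFl
    simp only [hu]
    fun_prop
  have hexp : ∀ x, Real.exp (N * u x) * ‖x‖ ^ a = L / Z * den m N a b l F ‖x‖ := by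
    intro x
    have h1 : N * u x = N * (b * pot m F ‖x‖ + l * (2 * ‖x‖ ^ 2 - ‖x‖ ^ 4)) + Real.log (L / Z) := by
      simp only [hu, hc']
      field_simp
    rw [h1, Real.exp_add, Real.exp_log (by positivity)]
    unfold den
    ring
  have hexp' : ∀ᵐ x : Ed m, Real.exp (N * u x) * ‖x‖ ^ a = L * F ‖x‖ := by
    filter_upwards [hfix] with x hx
    rw [hexp, hx]
    field_simp
  have hfin : Integrable (fun x : Ed m => Real.exp (N * u x) * ‖x‖ ^ a) :=
    (hFi.const_mul L).congr (by filter_upwards [hexp'] with x hx using hx.symm)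
  have htot : ∫ x : Ed m, Real.exp (N * u x) * ‖x‖ ^ a = L := by
    rw [integral_congr_ae hexp', integral_const_mul, hF1, mul_one]
  -- the weak equation against Schwartz functions
  have hweak : ∀ φ : 𝓢(Ed m, ℂ), Integrable (fun x => (u x : ℂ) * fracLap n φ x) ∧
      ∫ x, (u x : ℂ) * fracLap n φ x =
        ∫ x : Ed m, ((‖x‖ ^ a * Real.exp (N * u x) : ℝ) : ℂ) * φ x := by
    intro φ
    obtain ⟨p1, p2⟩ := pot_pairing hn rfl hF hFi φ
    obtain ⟨⟨q1, q2⟩, ⟨q3, q4⟩⟩ := poly_pairing (m := m) hn φ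
    have q5 := integrable_fracLap (V := Ed m) hn φ
    have q6 := integral_fracLap (V := Ed m) hn φ
    have e : ∀ x : Ed m, (u x : ℂ) * fracLap n φ x =
        (b : ℂ) * (((pot m F ‖x‖ : ℝ) : ℂ) * fracLap n φ x) +
        (2 * l : ℂ) * (((‖x‖ ^ 2 : ℝ) : ℂ) * fracLap n φ x) +
        (-l : ℂ) * (((‖x‖ ^ 4 : ℝ) : ℂ) * fracLap n φ x) + (c : ℂ) * fracLap n φ x := by
      intro x
      simp only [hu]
      push_cast
      ring
    have i1 : Integrable (fun x : Ed m => (b : ℂ) * (((pot m F ‖x‖ : ℝ) : ℂ) * fracLap n φ x)) :=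
      p1.const_mul _
    have i2 : Integrable (fun x : Ed m => (2 * l : ℂ) * (((‖x‖ ^ 2 : ℝ) : ℂ) * fracLap n φ x)) :=
      q1.const_mul _
    have i3 : Integrable (fun x : Ed m => (-l : ℂ) * (((‖x‖ ^ 4 : ℝ) : ℂ) * fracLap n φ x)) :=
      q3.const_mul _
    have i4 : Integrable (fun x : Ed m => (c : ℂ) * fracLap n φ x) := q5.const_mul _
    have i12 : Integrable (fun x : Ed m => (b : ℂ) * (((pot m F ‖x‖ : ℝ) : ℂ) * fracLap n φ x) +
        (2 * l : ℂ) * (((‖x‖ ^ 2 : ℝ) : ℂ) * fracLap n φ x)) := i1.add i2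
    have i123 : Integrable (fun x : Ed m => (b : ℂ) * (((pot m F ‖x‖ : ℝ) : ℂ) * fracLap n φ x) +
        (2 * l : ℂ) * (((‖x‖ ^ 2 : ℝ) : ℂ) * fracLap n φ x) +
        (-l : ℂ) * (((‖x‖ ^ 4 : ℝ) : ℂ) * fracLap n φ x)) := i12.add i3
    simp_rw [e]
    refine ⟨i123.add i4, ?_⟩
    rw [integral_add i123 i4, integral_add i12 i3, integral_add i1 i2, integral_const_mul,
      integral_const_mul, integral_const_mul, integral_const_mul, q2, q4, q6]
    have h7 : ∫ x : Ed m, ((‖x‖ ^ a * Real.exp (N * u x) : ℝ) : ℂ) * φ x =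
        (L : ℂ) * ∫ y : Ed m, ((F ‖y‖ : ℝ) : ℂ) * φ y := by
      rw [← integral_const_mul]
      apply integral_congr_ae
      filter_upwards [hexp'] with x hx
      rw [mul_comm (‖x‖ ^ a), hx]
      push_cast
      ring
    rw [h7]
    have h8 : ∫ x : Ed m, ((pot m F ‖x‖ : ℝ) : ℂ) * fracLap n φ x =
        (γ : ℂ) * ∫ y : Ed m, ((F ‖y‖ : ℝ) : ℂ) * φ y := by
      have h9 : (γ : ℂ) = ((cst n * (2 * π) ^ n : ℝ) : ℂ) / 2 := by
        rw [hγ]
        push_cast
        ring
      rw [h9, div_mul_eq_mul_div, ← p2]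
      ring
    rw [h8, ← mul_assoc, ← Complex.ofReal_mul]
    have h10 : b * γ = L := by
      rw [hb']
      field_simp
    rw [h10]
    ring
  refine ⟨u, hcu, ?_, ⟨hfin, ?_, ?_⟩, htot⟩
  · intro x y hxy
    simp only [hu]
    rw [hxy]
  · intro he
    refine ⟨hcu.locallyIntegrable, fun φ h1 h2 => ?_⟩
    obtain ⟨w1, w2⟩ := hweak (cplx h1 h2)
    have e1 : ∀ x : Ed m, (u x : ℂ) * fracLap n (cplx h1 h2) x =
        ((u x * evenLap n φ x : ℝ) : ℂ) := by
      intro x
      rw [fracLap_cplx he]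
      push_cast
      ring
    simp_rw [e1] at w1 w2
    constructor
    · have := w1.re
      simpa using this
    · rw [integral_complex_ofReal] at w2
      have e2 : ∫ x : Ed m, ((‖x‖ ^ a * Real.exp (N * u x) : ℝ) : ℂ) * (cplx h1 h2) x =
          ((∫ x : Ed m, ‖x‖ ^ a * Real.exp (N * u x) * φ x : ℝ) : ℂ) := by
        rw [← integral_complex_ofReal]
        apply integral_congr_ae
        refine Eventually.of_forall fun x => ?_
        have : (cplx h1 h2) x = ((φ x : ℝ) : ℂ) := rfl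
        simp only [this]
        push_cast
        ring
      rw [e2] at w2
      exact_mod_cast w2
  · intro _
    refine ⟨?_, hweak⟩
    refine growth hn rfl hcu (C := b * (2 + avg m (1 / 2) / (1 / 2)) + 3 * |l| + |c|) ?_
    intro x hx
    have hx0 : x ≠ 0 := by
      rintro rfl
      simp at hx
      linarith
    have hp : |pot m F ‖x‖| ≤ (2 + avg m (1 / 2) / (1 / 2)) * (1 + ‖x‖) ^ 4 := by
      have h1 := int_abs_ker_le hF hFi hx0
      have h2 : ∫ y : Ed m, |F ‖y‖| = 1 := by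
        rw [← hF1]
        apply integral_congr_ae
        filter_upwards [hF0] with y hy using abs_of_nonneg hy
      rw [h2, mul_one] at h1
      have h3 : |pot m F ‖x‖| ≤ ∫ y : Ed m, |ker x y * F ‖y‖| := by
        rw [pot_norm]
        exact abs_integral_le_integral_abs
      have h4 : Real.log (1 + ‖x‖) ≤ ‖x‖ := by
        have := Real.log_le_sub_one_of_pos (show 0 < 1 + ‖x‖ by positivity)
        linarith
      have h5 : Real.log (1 + 1 / ‖x‖) ≤ 1 := by
        have h6 : 0 < ‖x‖ := by linarith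
        have := Real.log_le_sub_one_of_pos (show 0 < 1 + 1 / ‖x‖ by positivity)
        have h7 : 1 / ‖x‖ ≤ 1 := by
          rw [div_le_one h6]
          exact hx
        linarith
      have h8 : (1 : ℝ) ≤ (1 + ‖x‖) ^ 4 := one_le_pow₀ (by linarith [norm_nonneg x])
      have h9 : (1 + ‖x‖) ≤ (1 + ‖x‖) ^ 4 := le_self_pow₀ (by linarith [norm_nonneg x]) (by norm_num)
      have hA : (0 : ℝ) ≤ avg m (1 / 2) / (1 / 2) := by positivity
      nlinarith
    have h8 : (1 : ℝ) ≤ (1 + ‖x‖) ^ 4 := one_le_pow₀ (by linarith [norm_nonneg x])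
    have hpoly : |2 * ‖x‖ ^ 2 - ‖x‖ ^ 4| ≤ 3 * (1 + ‖x‖) ^ 4 := by
      have h1 : ‖x‖ ^ 4 ≤ (1 + ‖x‖) ^ 4 := pow_le_pow_left₀ (norm_nonneg _) (by linarith) 4
      have h2 : ‖x‖ ^ 2 ≤ ‖x‖ ^ 4 := pow_le_pow_right₀ hx (by norm_num)
      have h3 : 0 ≤ ‖x‖ ^ 2 := by positivity
      rw [abs_le]
      constructor <;> linarith
    simp only [hu]
    calc |b * pot m F ‖x‖ + l * (2 * ‖x‖ ^ 2 - ‖x‖ ^ 4) + c|
        ≤ |b * pot m F ‖x‖| + |l * (2 * ‖x‖ ^ 2 - ‖x‖ ^ 4)| + |c| := by
          refine le_trans (abs_add_le _ _) ?_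
          gcongr
          exact abs_add_le _ _
      _ = b * |pot m F ‖x‖| + |l| * |2 * ‖x‖ ^ 2 - ‖x‖ ^ 4| + |c| := by
          rw [abs_mul, abs_mul, abs_of_pos hb]
      _ ≤ b * ((2 + avg m (1 / 2) / (1 / 2)) * (1 + ‖x‖) ^ 4) + |l| * (3 * (1 + ‖x‖) ^ 4) +
          |c| * (1 + ‖x‖) ^ 4 := by
          gcongr
          exact le_mul_of_one_le_right (abs_nonneg _) h8
      _ = _ := by ring

end Pool.Agent.QCurv
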