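import Pool.Agent.Lib.MP_83d6ff_an.Decay2

/-!
Vanishing moments.
-/

namespace Pool.Agent.QCurv

open MeasureTheory Real Set Filter FourierTransform
open scoped ENNReal NNReal Topology InnerProductSpace SchwartzMap ContDiff

variable {V : Type*} [NormedAddCommGroup V] [InnerProductSpace ℝ V] [FiniteDimensional ℝ V]
  [MeasurableSpace V] [BorelSpace V]

omit [InnerProductSpace ℝ V] [FiniteDimensional ℝ V] [MeasurableSpace V] [BorelSpace V] in
lemma wt_eq (x : V) : wt x = ENNReal.ofReal ((1 + ‖x‖) ^ 4) := by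
  unfold wt
  rw [ENNReal.ofReal_pow (by positivity), ENNReal.ofReal_add (by norm_num) (norm_nonneg _),
    ENNReal.ofReal_one, ofReal_norm]

lemma int_of_wt {ψ : V → ℂ} (hm : AEStronglyMeasurable ψ) (hw : ∫⁻ x, wt x * ‖ψ x‖ₑ < ⊤)
    {g : V → ℂ} (hg : AEStronglyMeasurable g) {C : ℝ} (hC : ∀ x, ‖g x‖ ≤ C * (1 + ‖x‖) ^ 4) :
    Integrable (fun x => g x * ψ x) := by
  have hC0 : 0 ≤ C := by
    have := le_trans (norm_nonneg _) (hC 0)
    simpa using this
  refine ⟨hg.mul hm, ?_⟩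
  rw [hasFiniteIntegral_def]
  refine lt_of_le_of_lt (lintegral_mono (g := fun x => ENNReal.ofReal C * (wt x * ‖ψ x‖ₑ))
    fun x => ?_) ?_
  · rw [enorm_mul]
    simp only
    rw [← mul_assoc]
    refine mul_le_mul' ?_ le_rfl
    rw [wt_eq, ← ENNReal.ofReal_mul hC0, ← ofReal_norm]
    exact ENNReal.ofReal_le_ofReal (hC x)
  · rw [lintegral_const_mul' _ _ ENNReal.ofReal_ne_top]
    exact ENNReal.mul_lt_top ENNReal.ofReal_lt_top hw

lemma integrable_of_wt {ψ : V → ℂ} (hm : AEStronglyMeasurable ψ)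
    (hw : ∫⁻ x, wt x * ‖ψ x‖ₑ < ⊤) : Integrable ψ := by
  have := int_of_wt hm hw (g := fun _ => 1) (C := 1) aestronglyMeasurable_const (fun x => by
    rw [norm_one, one_mul]
    exact one_le_pow₀ (by linarith [norm_nonneg x]))
  simpa using this

lemma two_sub_cos_nonneg (z : ℝ) : 0 ≤ 2 - 2 * Real.cos z := by
  linarith [Real.cos_le_one z]

lemma two_sub_cos_le (z : ℝ) : 2 - 2 * Real.cos z ≤ z ^ 2 := by
  linarith [Real.one_sub_sq_div_two_le_cos (x := z)]

lemma tendsto_quot (u : ℝ) :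
    Tendsto (fun s : ℝ => (2 - 2 * Real.cos (s * u)) / s ^ 2) (𝓝[>] 0) (𝓝 (u ^ 2)) := by
  have h1 : Tendsto (fun s : ℝ => (5 / 48) * u ^ 4 * s ^ 2) (𝓝[>] 0) (𝓝 0) := by
    have : Tendsto (fun s : ℝ => (5 / 48) * u ^ 4 * s ^ 2) (𝓝 0) (𝓝 ((5 / 48) * u ^ 4 * 0 ^ 2)) :=
      Continuous.tendsto (by fun_prop) 0
    simp only [ne_eq, OfNat.ofNat_ne_zero, not_false_eq_true, zero_pow, mul_zero] at this
    exact this.mono_left nhdsWithin_le_nhds
  rw [tendsto_iff_norm_sub_tendsto_zero]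
  refine squeeze_zero' (Eventually.of_forall fun s => norm_nonneg _) ?_ h1
  have h2 : ∀ᶠ s : ℝ in 𝓝[>] 0, |s * u| ≤ 1 := by
    have h3 : Tendsto (fun s : ℝ => |s * u|) (𝓝[>] 0) (𝓝 0) := by
      have : Tendsto (fun s : ℝ => |s * u|) (𝓝 0) (𝓝 |0 * u|) := Continuous.tendsto (by fun_prop) 0
      simp only [zero_mul, abs_zero] at this
      exact this.mono_left nhdsWithin_le_nhds
    filter_upwards [h3.eventually (gt_mem_nhds one_pos)] with s hs using hs.le
  filter_upwards [h2, self_mem_nhdsWithin] with s hs hs0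
  have hs0 : 0 < s := hs0
  have h4 := Real.cos_bound hs
  rw [Real.norm_eq_abs]
  have e : (2 - 2 * Real.cos (s * u)) / s ^ 2 - u ^ 2 =
      -2 * (Real.cos (s * u) - (1 - (s * u) ^ 2 / 2)) / s ^ 2 := by
    field_simp
    ring
  rw [e, abs_div, abs_mul, abs_of_pos (by positivity : 0 < s ^ 2), div_le_iff₀ (by positivity)]
  have h5 : |s * u| ^ 4 = s ^ 4 * u ^ 4 := by
    rw [abs_mul, mul_pow, ← abs_pow, ← abs_pow, abs_of_nonneg (by positivity),
      abs_of_nonneg (by positivity)]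
  rw [h5] at h4
  norm_num
  nlinarith

/-- Vanishing second and fourth moments. -/
lemma moments {ψ : V → ℂ} (hm : AEStronglyMeasurable ψ) (hw : ∫⁻ x, wt x * ‖ψ x‖ₑ < ⊤)
    {C : ℝ} (hC : ∀ ξ : V, ‖𝓕 ψ ξ‖ ≤ C * ‖ξ‖ ^ 5) (v : V) :
    ∫ x, (((inner ℝ x v) ^ 2 : ℝ) : ℂ) * ψ x = 0 ∧
      ∫ x, (((inner ℝ x v) ^ 4 : ℝ) : ℂ) * ψ x = 0 := by
  have hψ := integrable_of_wt hm hw
  set u : V → ℝ := fun x => 2 * π * inner ℝ x v with hu
  have hum : Measurable u := by fun_prop
  have hub : ∀ x, |u x| ≤ 2 * π * ‖v‖ * ‖x‖ := by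
    intro x
    have h1 := abs_real_inner_le_norm x v
    simp only [hu]
    rw [abs_mul, abs_of_pos (by positivity : 0 < 2 * π)]
    have := mul_le_mul_of_nonneg_left h1 (by positivity : 0 ≤ 2 * π)
    linarith
  -- the cosine transform
  set c : ℝ → ℂ := fun s => ∫ x, ((Real.cos (s * u x) : ℝ) : ℂ) * ψ x with hc
  have hci : ∀ s, Integrable (fun x => ((Real.cos (s * u x) : ℝ) : ℂ) * ψ x) := by
    intro s
    refine hψ.norm.mono' ?_ (Eventually.of_forall fun x => ?_)
    · refine AEStronglyMeasurable.mul ?_ hm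
      exact (by fun_prop : Measurable fun x => ((Real.cos (s * u x) : ℝ) : ℂ)).aestronglyMeasurable
    · rw [norm_mul, Complex.norm_real, Real.norm_eq_abs]
      exact mul_le_of_le_one_left (norm_nonneg _) (Real.abs_cos_le_one _)
  have hcF : ∀ s, 2 * c s = 𝓕 ψ (s • v) + 𝓕 ψ (-(s • v)) := by
    intro s
    have i1 : ∀ w : V, Integrable (fun x => Complex.exp (↑(-2 * π * inner ℝ x w) * Complex.I) • ψ x) := by
      intro w
      have := (Real.fourierIntegral_convergent_iff (μ := volume) (f := ψ) w).mpr hψ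
      refine this.congr (Eventually.of_forall fun x => ?_)
      simp only [Circle.smul_def, Real.fourierChar_apply, mul_neg, neg_mul]
    rw [Real.fourier_eq', Real.fourier_eq', ← integral_add (i1 _) (i1 _), hc,
      ← integral_const_mul]
    apply integral_congr_ae
    refine Eventually.of_forall fun x => ?_
    simp only [smul_eq_mul]
    rw [← mul_assoc, ← add_mul]
    congr 1
    push_cast
    rw [Complex.cos, inner_neg_right, inner_smul_right]
    simp only [hu]
    push_cast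
    have e1 : (-2 * (π : ℂ) * ((s : ℂ) * (inner ℝ x v : ℂ))) * Complex.I =
        -((s : ℂ) * (2 * π * (inner ℝ x v : ℂ))) * Complex.I := by ring
    have e2 : (-2 * (π : ℂ) * -((s : ℂ) * (inner ℝ x v : ℂ))) * Complex.I =
        ((s : ℂ) * (2 * π * (inner ℝ x v : ℂ))) * Complex.I := by ring
    rw [e1, e2]
    ring
  have hcb : ∀ s : ℝ, 0 ≤ s → ‖c s‖ ≤ C * ‖v‖ ^ 5 * s ^ 5 := by
    intro s hs
    have h1 := hC (s • v)
    have h2 := hC (-(s • v))
    rw [norm_neg] at h2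
    rw [norm_smul, Real.norm_eq_abs, abs_of_nonneg hs, mul_pow] at h1 h2
    have h3 : ‖2 * c s‖ ≤ C * (s ^ 5 * ‖v‖ ^ 5) + C * (s ^ 5 * ‖v‖ ^ 5) := by
      rw [hcF]
      exact le_trans (norm_add_le _ _) (add_le_add h1 h2)
    rw [norm_mul] at h3
    norm_num at h3
    linarith
  have hc0 : ∫ x, ψ x = 0 := by
    have h1 := hcb 0 le_rfl
    simp only [hc] at h1
    simpa using h1
  -- rate
  have hrate : ∀ (j : ℕ) (b : ℝ), 0 < b → j ≤ 4 →
      Tendsto (fun s : ℝ => c (b * s) / ((s ^ j : ℝ) : ℂ)) (𝓝[>] 0) (𝓝 0) := by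
    intro j b hb hj
    have h1 : Tendsto (fun s : ℝ => C * ‖v‖ ^ 5 * b ^ 5 * s ^ (5 - j)) (𝓝[>] 0) (𝓝 0) := by
      have : Tendsto (fun s : ℝ => C * ‖v‖ ^ 5 * b ^ 5 * s ^ (5 - j)) (𝓝 0)
          (𝓝 (C * ‖v‖ ^ 5 * b ^ 5 * 0 ^ (5 - j))) := Continuous.tendsto (by fun_prop) 0
      rw [zero_pow (by omega), mul_zero] at this
      exact this.mono_left nhdsWithin_le_nhds
    apply squeeze_zero_norm' _ h1
    filter_upwards [self_mem_nhdsWithin] with s hs
    have hs : 0 < s := hs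
    rw [norm_div, Complex.norm_real, Real.norm_eq_abs, abs_of_pos (by positivity),
      div_le_iff₀ (by positivity)]
    refine le_trans (hcb (b * s) (by positivity)) (le_of_eq ?_)
    have : s ^ 5 = s ^ (5 - j) * s ^ j := by
      rw [← pow_add]
      congr 1
      omega
    rw [mul_pow, this]
    ring
  -- the quotients
  set D : ℝ → V → ℝ := fun s x => (2 - 2 * Real.cos (s * u x)) / s ^ 2 with hD
  have hD0 : ∀ s x, 0 ≤ D s x := fun s x => div_nonneg (two_sub_cos_nonneg _) (sq_nonneg _)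
  have hDle : ∀ s x, 0 < s → D s x ≤ (u x) ^ 2 := by
    intro s x hs
    simp only [hD]
    rw [div_le_iff₀ (by positivity)]
    have := two_sub_cos_le (s * u x)
    nlinarith
  have hDm : ∀ s, Measurable (D s) := by
    intro s
    simp only [hD]
    fun_prop
  have hu2 : ∀ x, (u x) ^ 2 ≤ (2 * π * ‖v‖) ^ 2 * (1 + ‖x‖) ^ 2 := by
    intro x
    rw [← sq_abs, ← mul_pow]
    apply pow_le_pow_left₀ (abs_nonneg _)
    refine le_trans (hub x) ?_
    apply mul_le_mul_of_nonneg_left _ (by positivity)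
    linarith
  -- limits
  have lim : ∀ (j : ℕ), 1 ≤ j → j ≤ 2 → Tendsto (fun s : ℝ => ∫ x, ((D s x ^ j : ℝ) : ℂ) * ψ x)
      (𝓝[>] 0) (𝓝 (∫ x, ((((u x) ^ 2) ^ j : ℝ) : ℂ) * ψ x)) := by
    intro j hj1 hj2
    refine tendsto_integral_filter_of_dominated_convergence
      (fun x => ‖((((u x) ^ 2) ^ j : ℝ) : ℂ) * ψ x‖) ?_ ?_ ?_ ?_
    · refine Eventually.of_forall fun s => ?_
      refine AEStronglyMeasurable.mul ?_ hm
      exact (Complex.measurable_ofReal.comp ((hDm s).pow_const j)).aestronglyMeasurable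
    · filter_upwards [self_mem_nhdsWithin] with s hs
      refine Eventually.of_forall fun x => ?_
      rw [norm_mul, norm_mul, Complex.norm_real, Complex.norm_real, Real.norm_eq_abs,
        Real.norm_eq_abs, abs_of_nonneg (pow_nonneg (hD0 s x) j),
        abs_of_nonneg (pow_nonneg (sq_nonneg _) j)]
      exact mul_le_mul_of_nonneg_right (pow_le_pow_left₀ (hD0 s x) (hDle s x hs) j) (norm_nonneg _)
    · apply Integrable.norm
      refine int_of_wt hm hw (C := ((2 * π * ‖v‖) ^ 2) ^ j) ?_ (fun x => ?_)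
      · exact (Complex.measurable_ofReal.comp ((hum.pow_const 2).pow_const j)).aestronglyMeasurable
      · rw [Complex.norm_real, Real.norm_eq_abs, abs_of_nonneg (pow_nonneg (sq_nonneg _) j)]
        refine le_trans (pow_le_pow_left₀ (sq_nonneg _) (hu2 x) j) ?_
        rw [mul_pow, ← pow_mul (1 + ‖x‖)]
        apply mul_le_mul_of_nonneg_left _ (by positivity)
        exact pow_le_pow_right₀ (by linarith [norm_nonneg x]) (by omega)
    · refine Eventually.of_forall fun x => ?_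
      apply Tendsto.mul_const
      have h1 := (tendsto_quot (u x)).pow j
      exact (Complex.continuous_ofReal.tendsto _).comp h1
  have lim1 : Tendsto (fun s : ℝ => ∫ x, ((D s x ^ 1 : ℝ) : ℂ) * ψ x) (𝓝[>] 0) (𝓝 0) := by
    have h1 := (hrate 2 1 one_pos (by norm_num)).const_mul (-2 : ℂ)
    rw [mul_zero] at h1
    refine h1.congr' ?_
    filter_upwards [self_mem_nhdsWithin] with s hs
    have hs : (0 : ℝ) < s := hs
    have hs' : ((s : ℝ) : ℂ) ≠ 0 := by exact_mod_cast hs.ne'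
    have e : ∀ x, ((D s x ^ 1 : ℝ) : ℂ) * ψ x = (2 / ((s : ℂ) ^ 2)) * ψ x -
        (2 / ((s : ℂ) ^ 2)) * (((Real.cos (s * u x) : ℝ) : ℂ) * ψ x) := by
      intro x
      simp only [hD, pow_one]
      push_cast
      field_simp
    simp_rw [e]
    rw [integral_sub (hψ.const_mul _) ((hci s).const_mul _), integral_const_mul,
      integral_const_mul, hc0]
    simp only [hc, one_mul]
    push_cast
    ring
  have lim2 : Tendsto (fun s : ℝ => ∫ x, ((D s x ^ 2 : ℝ) : ℂ) * ψ x) (𝓝[>] 0) (𝓝 0) := by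
    have h1 := ((hrate 4 1 one_pos (by norm_num)).const_mul (-8 : ℂ)).add
      ((hrate 4 2 two_pos (by norm_num)).const_mul (2 : ℂ))
    rw [mul_zero, mul_zero, add_zero] at h1
    refine h1.congr' ?_
    filter_upwards [self_mem_nhdsWithin] with s hs
    have hs : (0 : ℝ) < s := hs
    have hs' : ((s : ℝ) : ℂ) ≠ 0 := by exact_mod_cast hs.ne'
    have e : ∀ x, ((D s x ^ 2 : ℝ) : ℂ) * ψ x = ((6 / ((s : ℂ) ^ 4)) * ψ x -
        (8 / ((s : ℂ) ^ 4)) * (((Real.cos (s * u x) : ℝ) : ℂ) * ψ x)) +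
        (2 / ((s : ℂ) ^ 4)) * (((Real.cos (2 * s * u x) : ℝ) : ℂ) * ψ x) := by
      intro x
      have h2 : Real.cos (2 * s * u x) = 2 * Real.cos (s * u x) ^ 2 - 1 := by
        rw [mul_assoc, Real.cos_two_mul]
      rw [h2]
      simp only [hD]
      push_cast
      field_simp
      ring
    simp_rw [e]
    have i3 : Integrable (fun x => (6 / ((s : ℂ) ^ 4)) * ψ x -
        (8 / ((s : ℂ) ^ 4)) * (((Real.cos (s * u x) : ℝ) : ℂ) * ψ x)) :=
      (hψ.const_mul _).sub ((hci s).const_mul _)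
    rw [integral_add i3 ((hci (2 * s)).const_mul _),
      integral_sub (hψ.const_mul _) ((hci s).const_mul _), integral_const_mul,
      integral_const_mul, integral_const_mul, hc0]
    simp only [hc, one_mul]
    push_cast
    ring
  have r1 := tendsto_nhds_unique (lim 1 le_rfl (by norm_num)) lim1
  have r2 := tendsto_nhds_unique (lim 2 (by norm_num) le_rfl) lim2
  have hpi : ((2 * π : ℝ) : ℂ) ≠ 0 := by
    exact_mod_cast (by positivity : (2 * π : ℝ) ≠ 0)
  constructor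
  · have e : ∀ x, ((((u x) ^ 2) ^ 1 : ℝ) : ℂ) * ψ x =
        ((2 * π : ℝ) : ℂ) ^ 2 * ((((inner ℝ x v) ^ 2 : ℝ) : ℂ) * ψ x) := by
      intro x
      simp only [hu, pow_one]
      push_cast
      ring
    simp_rw [e] at r1
    rw [integral_const_mul] at r1
    exact (mul_eq_zero.mp r1).resolve_left (pow_ne_zero _ hpi)
  · have e : ∀ x, ((((u x) ^ 2) ^ 2 : ℝ) : ℂ) * ψ x =
        ((2 * π : ℝ) : ℂ) ^ 4 * ((((inner ℝ x v) ^ 4 : ℝ) : ℂ) * ψ x) := by
      intro x
      simp only [hu]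
      push_cast
      ring
    simp_rw [e] at r2
    rw [integral_const_mul] at r2
    exact (mul_eq_zero.mp r2).resolve_left (pow_ne_zero _ hpi)

end Pool.Agent.QCurv
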