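import Pool.Agent.Lib.MP_83d6ff_an.Avg

/-!
Logarithmic potentials of radial densities.
-/

namespace Pool.Agent.QCurv

open MeasureTheory Real Set Metric Filter
open scoped ENNReal NNReal

variable {m : ℕ}

lemma ae_sn_pos : ∀ᵐ y : Ed m, 0 < sn y := by
  have h1 : ∀ᵐ y : Ed m, y 1 ≠ 0 := by
    let p : Ed m →ₗ[ℝ] ℝ := (EuclideanSpace.proj (1 : Fin (m + 2)) : Ed m →L[ℝ] ℝ).toLinearMap
    have hp : LinearMap.ker p ≠ ⊤ := by
      intro h
      have h2 : (EuclideanSpace.single 1 1 : Ed m) ∈ LinearMap.ker p := by rw [h]; trivial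
      rw [LinearMap.mem_ker] at h2
      simp [p] at h2
    have h3 := Measure.addHaar_submodule (volume : Measure (Ed m)) (LinearMap.ker p) hp
    rw [ae_iff]
    convert h3 using 2
    ext y
    simp [p]
  filter_upwards [h1] with y hy
  have : y ≠ 0 := by
    rintro rfl
    simp at hy
  unfold sn
  positivity

/-- the averaging constant -/
noncomputable def avg (m : ℕ) (δ : ℝ) : ℝ≥0 :=
  if h : 0 ≤ δ ∧ δ < 1 then (exists_avg (m := m) h.1 h.2).choose else 0

lemma avg_spec {δ : ℝ} (hδ0 : 0 ≤ δ) (hδ1 : δ < 1) {F : ℝ → ℝ≥0∞} (hF : Measurable F) :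
    ∫⁻ y : Ed m, ENNReal.ofReal (qf δ y) * F ‖y‖ = avg m δ * ∫⁻ y : Ed m, F ‖y‖ := by
  unfold avg
  rw [dif_pos ⟨hδ0, hδ1⟩]
  exact (exists_avg (m := m) hδ0 hδ1).choose_spec F hF

section

variable {δ : ℝ} (hδ : 0 < δ) (hδ1 : δ < 1)
include hδ hδ1

lemma integrable_qf {F : ℝ → ℝ} (hF : Measurable F) (hFi : Integrable (fun y : Ed m => F ‖y‖)) :
    Integrable (fun y : Ed m => qf δ y * F ‖y‖) := by
  refine ⟨((measurable_qf δ).mul (hF.comp measurable_norm)).aestronglyMeasurable, ?_⟩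
  have h := avg_spec (m := m) hδ.le hδ1 (F := fun r => ‖F r‖ₑ) hF.enorm
  have h2 : HasFiniteIntegral (fun y : Ed m => F ‖y‖) := hFi.2
  rw [hasFiniteIntegral_def] at h2 ⊢
  have e : ∀ y : Ed m, ‖qf δ y * F ‖y‖‖ₑ = ENNReal.ofReal (qf δ y) * ‖F ‖y‖‖ₑ := by
    intro y
    rw [enorm_mul, Real.enorm_of_nonneg (qf_nonneg δ y)]
  simp_rw [e]
  rw [h]
  exact ENNReal.mul_lt_top ENNReal.coe_lt_top h2

lemma integral_qf {F : ℝ → ℝ} (hF : Measurable F) (hFi : Integrable (fun y : Ed m => F ‖y‖))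
    (h0 : ∀ᵐ y : Ed m, 0 ≤ F ‖y‖) :
    ∫ y : Ed m, qf δ y * F ‖y‖ = avg m δ * ∫ y : Ed m, F ‖y‖ := by
  have h := avg_spec (m := m) hδ.le hδ1 (F := fun r => ENNReal.ofReal (F r)) hF.ennreal_ofReal
  rw [integral_eq_lintegral_of_nonneg_ae, integral_eq_lintegral_of_nonneg_ae h0
    hFi.aestronglyMeasurable]
  · have e : ∀ y : Ed m, ENNReal.ofReal (qf δ y * F ‖y‖) =
        ENNReal.ofReal (qf δ y) * ENNReal.ofReal (F ‖y‖) := fun y =>
      ENNReal.ofReal_mul (qf_nonneg δ y)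
    simp_rw [e]
    rw [h, ENNReal.toReal_mul]
    rfl
  · filter_upwards [h0] with y hy using mul_nonneg (qf_nonneg δ y) hy
  · exact (integrable_qf hδ hδ1 hF hFi).aestronglyMeasurable

omit hδ1 in
lemma abs_ker_le {r : ℝ} (hr : 0 < r) {y : Ed m} (hy : 0 < sn y) :
    |ker (r • e0) y| ≤ (Real.log (1 + r) + Real.log (1 + 1 / r)) + qf δ y / δ := by
  have h1 := ker_le hδ hr hy
  have h2 := ker_ge (r • (e0 : Ed m)) y
  rw [norm_smul, norm_e0, mul_one, Real.norm_eq_abs, abs_of_pos hr] at h2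
  have h3 : 0 ≤ Real.log (1 + r) := Real.log_nonneg (by linarith)
  have h4 : 0 ≤ Real.log (1 + 1 / r) := Real.log_nonneg (by linarith [one_div_pos.mpr hr])
  have h5 : 0 ≤ qf δ y / δ := div_nonneg (qf_nonneg δ y) hδ.le
  have h6 : Real.log (1 + 1 / max r ‖y‖) ≤ Real.log (1 + 1 / r) := by
    apply Real.log_le_log
    · have : 0 < max r ‖y‖ := lt_max_of_lt_left hr
      positivity
    · have := one_div_le_one_div_of_le hr (le_max_left r ‖y‖)
      linarith
  rw [abs_le]
  constructor <;> linarith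

omit hδ hδ1 in
lemma measurable_ker_left (x : Ed m) : Measurable (fun y : Ed m => ker x y) := by
  unfold ker
  fun_prop

lemma integrable_ker {F : ℝ → ℝ} (hF : Measurable F) (hFi : Integrable (fun y : Ed m => F ‖y‖))
    {r : ℝ} (hr : 0 < r) : Integrable (fun y : Ed m => ker (r • e0) y * F ‖y‖) := by
  have h1 := (hFi.abs.const_mul (Real.log (1 + r) + Real.log (1 + 1 / r))).add
    ((integrable_qf (m := m) hδ hδ1 (F := fun r => |F r|) hF.abs hFi.abs).div_const δ)
  refine h1.mono' ?_ ?_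
  · exact ((measurable_ker_left _).mul (hF.comp measurable_norm)).aestronglyMeasurable
  · filter_upwards [ae_sn_pos] with y hy
    rw [norm_mul, Real.norm_eq_abs, Real.norm_eq_abs]
    have := mul_le_mul_of_nonneg_right (abs_ker_le hδ hr hy) (abs_nonneg (F ‖y‖))
    simp only [Pi.add_apply]
    calc _ ≤ _ := this
      _ = _ := by ring

end

/-- The logarithmic potential of the radial density `F`, at distance `r` of the origin. -/
noncomputable def pot (m : ℕ) (F : ℝ → ℝ) (r : ℝ) : ℝ := ∫ y : Ed m, ker (r • e0) y * F ‖y‖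

section

variable {δ : ℝ} (hδ : 0 < δ) (hδ1 : δ < 1)
include hδ hδ1

lemma pot_diff {F₁ F₂ : ℝ → ℝ} (h₁ : Measurable F₁) (i₁ : Integrable (fun y : Ed m => F₁ ‖y‖))
    (h₂ : Measurable F₂) (i₂ : Integrable (fun y : Ed m => F₂ ‖y‖)) {r : ℝ} (hr : 0 < r) :
    |(pot m F₁ r - pot m F₂ r) - (pot m F₁ 1 - pot m F₂ 1)| ≤
      avg m δ / δ * th δ r * ∫ y : Ed m, |F₁ ‖y‖ - F₂ ‖y‖| := by
  have a1 := integrable_ker hδ hδ1 h₁ i₁ hr
  have a2 := integrable_ker hδ hδ1 h₂ i₂ hr
  have b1 := integrable_ker hδ hδ1 h₁ i₁ one_pos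
  have b2 := integrable_ker hδ hδ1 h₂ i₂ one_pos
  have hd : Integrable (fun y : Ed m => |F₁ ‖y‖ - F₂ ‖y‖|) := (i₁.sub i₂).abs
  have hdm : Measurable (fun r => |F₁ r - F₂ r|) := (h₁.sub h₂).abs
  have s1 : Integrable (fun y : Ed m => ker (r • e0) y * F₁ ‖y‖ - ker (r • e0) y * F₂ ‖y‖) :=
    a1.sub a2
  have s2 : Integrable (fun y : Ed m =>
      ker ((1 : ℝ) • e0) y * F₁ ‖y‖ - ker ((1 : ℝ) • e0) y * F₂ ‖y‖) := b1.sub b2
  unfold pot
  rw [← integral_sub a1 a2, ← integral_sub b1 b2, ← integral_sub s1 s2]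
  have hI := integrable_qf (m := m) hδ hδ1 hdm hd
  have hV := integral_qf (m := m) hδ hδ1 hdm hd (Eventually.of_forall fun y => abs_nonneg _)
  calc |∫ y : Ed m, (ker (r • e0) y * F₁ ‖y‖ - ker (r • e0) y * F₂ ‖y‖ -
          (ker ((1 : ℝ) • e0) y * F₁ ‖y‖ - ker ((1 : ℝ) • e0) y * F₂ ‖y‖))|
      ≤ ∫ y : Ed m, th δ r / δ * (qf δ y * |F₁ ‖y‖ - F₂ ‖y‖|) := by
        rw [← Real.norm_eq_abs]
        refine norm_integral_le_of_norm_le (hI.const_mul _) ?_
        filter_upwards [ae_sn_pos] with y hy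
        have := abs_ker_sub_le hδ hδ1.le hr hy
        have e : ker (r • e0) y * F₁ ‖y‖ - ker (r • e0) y * F₂ ‖y‖ -
          (ker ((1 : ℝ) • e0) y * F₁ ‖y‖ - ker ((1 : ℝ) • e0) y * F₂ ‖y‖) =
          (ker (r • e0) y - ker ((1 : ℝ) • e0) y) * (F₁ ‖y‖ - F₂ ‖y‖) := by ring
        rw [e, norm_mul, Real.norm_eq_abs, Real.norm_eq_abs]
        calc _ ≤ th δ r * (qf δ y / δ) * |F₁ ‖y‖ - F₂ ‖y‖| :=
              mul_le_mul_of_nonneg_right this (abs_nonneg _)
          _ = _ := by ring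
    _ = _ := by
        rw [integral_const_mul, hV]
        ring

lemma pot_le {F : ℝ → ℝ} (hF : Measurable F) (hFi : Integrable (fun y : Ed m => F ‖y‖))
    (hF0 : ∀ᵐ y : Ed m, 0 ≤ F ‖y‖) (hF1 : ∫ y : Ed m, F ‖y‖ = 1) {ε : ℝ}
    (hFs : ∫ y : Ed m, (if ‖y‖ < 1 / 2 then F ‖y‖ else 0) ≤ ε) {r : ℝ} (hr : 0 < r) :
    pot m F r ≤ Real.log 3 + avg m δ / δ + ε * Real.log (1 + 1 / r) := by
  have a1 := integrable_ker hδ hδ1 hF hFi hr
  have hq := integrable_qf (m := m) hδ hδ1 hF hFi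
  have hqi := integral_qf (m := m) hδ hδ1 hF hFi hF0
  have hs : Integrable (fun y : Ed m => if ‖y‖ < 1 / 2 then F ‖y‖ else 0) := by
    have := hFi.indicator (measurableSet_lt measurable_norm measurable_const :
      MeasurableSet {y : Ed m | ‖y‖ < 1 / 2})
    refine this.congr (Eventually.of_forall fun y => ?_)
    simp only [indicator, mem_ofPred_eq]
  have hl0 : 0 ≤ Real.log (1 + 1 / r) := Real.log_nonneg (by linarith [one_div_pos.mpr hr])
  calc pot m F r ≤ ∫ y : Ed m, (Real.log 3 * F ‖y‖ +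
        Real.log (1 + 1 / r) * (if ‖y‖ < 1 / 2 then F ‖y‖ else 0) + (qf δ y * F ‖y‖) / δ) := by
        unfold pot
        refine integral_mono_ae a1 (((hFi.const_mul _).add (hs.const_mul _)).add (hq.div_const _)) ?_
        filter_upwards [ae_sn_pos, hF0] with y hy h0
        have h1 := ker_le hδ hr hy
        have hm : 0 < max r ‖y‖ := lt_max_of_lt_left hr
        have h3 : Real.log (1 + 1 / max r ‖y‖) * F ‖y‖ ≤ Real.log 3 * F ‖y‖ +
            Real.log (1 + 1 / r) * (if ‖y‖ < 1 / 2 then F ‖y‖ else 0) := by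
          by_cases hh : ‖y‖ < 1 / 2
          · rw [if_pos hh]
            have h4 : Real.log (1 + 1 / max r ‖y‖) ≤ Real.log (1 + 1 / r) := by
              apply Real.log_le_log (by positivity)
              have := one_div_le_one_div_of_le hr (le_max_left r ‖y‖)
              linarith
            have h5 : 0 ≤ Real.log 3 := Real.log_nonneg (by norm_num)
            have := mul_le_mul_of_nonneg_right h4 h0
            have := mul_nonneg h5 h0
            linarith
          · rw [if_neg hh, mul_zero, add_zero]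
            apply mul_le_mul_of_nonneg_right _ h0
            apply Real.log_le_log (by positivity)
            push Not at hh
            have h6 : (1 : ℝ) / 2 ≤ max r ‖y‖ := le_trans hh (le_max_right _ _)
            have := one_div_le_one_div_of_le (by norm_num : (0 : ℝ) < 1 / 2) h6
            norm_num at this ⊢
            linarith
        have h7 := mul_le_mul_of_nonneg_right h1 h0
        calc _ ≤ _ := h7
          _ = Real.log (1 + 1 / max r ‖y‖) * F ‖y‖ + qf δ y * F ‖y‖ / δ := by ring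
          _ ≤ _ := by linarith
    _ = Real.log 3 + Real.log (1 + 1 / r) * (∫ y : Ed m, (if ‖y‖ < 1 / 2 then F ‖y‖ else 0)) +
          avg m δ / δ := by
        have s1 : Integrable (fun y : Ed m => Real.log 3 * F ‖y‖ +
          Real.log (1 + 1 / r) * (if ‖y‖ < 1 / 2 then F ‖y‖ else 0)) :=
          (hFi.const_mul _).add (hs.const_mul _)
        rw [integral_add s1 (hq.div_const _),
          integral_add (hFi.const_mul _) (hs.const_mul _), integral_const_mul, integral_const_mul,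
          integral_div, hqi, hF1]
        ring
    _ ≤ _ := by
        have := mul_le_mul_of_nonneg_left hFs hl0
        linarith

lemma pot_ge {F : ℝ → ℝ} (hF : Measurable F) (hFi : Integrable (fun y : Ed m => F ‖y‖))
    (hF0 : ∀ᵐ y : Ed m, 0 ≤ F ‖y‖) (hF1 : ∫ y : Ed m, F ‖y‖ = 1) {r : ℝ} (hr : 0 < r) :
    - Real.log (1 + r) ≤ pot m F r := by
  have a1 := integrable_ker hδ hδ1 hF hFi hr
  calc - Real.log (1 + r) = ∫ y : Ed m, - Real.log (1 + r) * F ‖y‖ := by
        rw [integral_const_mul, hF1, mul_one]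
    _ ≤ _ := by
        unfold pot
        refine integral_mono_ae (hFi.const_mul _) a1 ?_
        filter_upwards [hF0] with y h0
        have h2 := ker_ge (r • (e0 : Ed m)) y
        rw [norm_smul, norm_e0, mul_one, Real.norm_eq_abs, abs_of_pos hr] at h2
        exact mul_le_mul_of_nonneg_right h2 h0

end

end Pool.Agent.QCurv
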