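import Pool.Agent.Lib.MP_83d6ff_an.Conc

/-!
Integrability of the weights, and their concentration near the unit sphere.
-/

namespace Pool.Agent.QCurv

open MeasureTheory Real Set Metric Filter
open scoped ENNReal NNReal Topology

variable {m : ℕ}

lemma one_add_th_le {δ r : ℝ} (hδ : 0 < δ) (hr : 0 < r) :
    1 + th δ r ≤ 2 * ((1 + r) ^ 2 / r) ^ δ := by
  have hmin : 0 < min r 1 := lt_min hr one_pos
  have h0 : (1 : ℝ) ≤ (1 + r) ^ 2 / r := by
    rw [le_div_iff₀ hr]
    nlinarith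
  have h1 : |r - 1| / min r 1 ≤ (1 + r) ^ 2 / r := by
    rcases le_total r 1 with h | h
    · rw [min_eq_left h, abs_of_nonpos (by linarith)]
      apply div_le_div_of_nonneg_right _ hr.le
      nlinarith
    · rw [min_eq_right h, abs_of_nonneg (by linarith), div_one, le_div_iff₀ hr]
      nlinarith
  have h2 : th δ r ≤ ((1 + r) ^ 2 / r) ^ δ := Real.rpow_le_rpow (by positivity) h1 hδ.le
  have h3 : 1 ≤ ((1 + r) ^ 2 / r) ^ δ := Real.one_le_rpow h0 hδ.le
  linarith

lemma exp_quad_le {K N y : ℝ} (hN : 0 < N) (hK : 0 ≤ K) :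
    K * y - N * (y ^ 2 - 1) ^ 2 ≤ -y + ((K + 1) + (K + 1) ^ 2 / (16 * N)) := by
  have h1 : (K + 1) * y ≤ (K + 1) * ((1 + y ^ 2) / 2) :=
    mul_le_mul_of_nonneg_left (by nlinarith [sq_nonneg (y - 1)]) (by linarith)
  have h2 : (K + 1) * ((y ^ 2 - 1) / 2) ≤ N * (y ^ 2 - 1) ^ 2 + (K + 1) ^ 2 / (16 * N) := by
    have h3 : 0 ≤ (4 * N * (y ^ 2 - 1) - (K + 1)) ^ 2 / (16 * N) := by positivity
    have h4 : (4 * N * (y ^ 2 - 1) - (K + 1)) ^ 2 / (16 * N) =
        N * (y ^ 2 - 1) ^ 2 - (K + 1) * ((y ^ 2 - 1) / 2) + (K + 1) ^ 2 / (16 * N) := by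
      field_simp
      ring
    linarith
  linarith

/-- the weight, without its exponential factor -/
noncomputable def wU (a p r : ℝ) : ℝ := r ^ a * (1 + 1 / r) ^ p

lemma wU_nonneg {a p r : ℝ} (hr : 0 ≤ r) : 0 ≤ wU a p r := by
  unfold wU
  positivity

lemma th_nonneg' {δ r : ℝ} (hr : 0 ≤ r) : 0 ≤ th δ r := by
  unfold th
  have : 0 ≤ min r 1 := le_min hr zero_le_one
  positivity

lemma measurable_th (δ : ℝ) : Measurable (th δ) := by
  unfold th
  exact Measurable.pow_const (by fun_prop) _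

lemma measurable_wU (a p : ℝ) : Measurable (wU a p) := by
  unfold wU
  exact (Measurable.pow_const measurable_id _).mul (Measurable.pow_const (by fun_prop) _)

lemma int_weight {a p δ N : ℝ} (hδ : 0 < δ) (hp : 0 ≤ p) (hN : 0 < N)
    (h : p + δ < m + 2 + a) :
    Integrable (fun x : Ed m => (1 + th δ ‖x‖) * wU a p ‖x‖ *
      Real.exp (-(N * (‖x‖ ^ 2 - 1) ^ 2))) := by
  rw [integrable_fun_norm_addHaar (volume : Measure (Ed m))
    (f := fun r => (1 + th δ r) * wU a p r * Real.exp (-(N * (r ^ 2 - 1) ^ 2)))]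
  have hs : 0 < m + 2 + a - p - δ := by linarith
  set K := p + 2 * δ with hK
  set C := (K + 1) + (K + 1) ^ 2 / (16 * N) with hC
  have hG := (Real.GammaIntegral_convergent hs).const_mul (2 * Real.exp C)
  refine Integrable.mono' hG ?_ ?_
  · have hm1 : Measurable (fun r : ℝ => (1 + th δ r) * wU a p r *
        Real.exp (-(N * (r ^ 2 - 1) ^ 2))) :=
      ((measurable_const.add (measurable_th δ)).mul (measurable_wU a p)).mul (by fun_prop)
    exact ((measurable_id.pow_const (Module.finrank ℝ (Ed m) - 1)).smul hm1).aestronglyMeasurable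
  · refine (ae_restrict_mem measurableSet_Ioi).mono fun y hy => ?_
    have hy : (0 : ℝ) < y := hy
    have hth := th_nonneg' (δ := δ) hy.le
    have hwU := wU_nonneg (a := a) (p := p) hy.le
    have hdim : Module.finrank ℝ (Ed m) - 1 = m + 1 := by simp
    rw [hdim, norm_smul, Real.norm_eq_abs, Real.norm_eq_abs, abs_of_nonneg (by positivity),
      abs_of_nonneg (by positivity)]
    have h1 := one_add_th_le hδ hy
    have e1 : ((1 + y) ^ 2 / y) ^ δ = (1 + y) ^ (2 * δ) * y ^ (-δ) := by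
      rw [Real.div_rpow (by positivity) hy.le, Real.rpow_neg hy.le, div_eq_mul_inv,
        Real.rpow_mul (by positivity) 2 δ]
      norm_num
    have e2 : (1 + 1 / y) ^ p = (1 + y) ^ p * y ^ (-p) := by
      have : 1 + 1 / y = (1 + y) / y := by field_simp; ring
      rw [this, Real.div_rpow (by positivity) hy.le, Real.rpow_neg hy.le, div_eq_mul_inv]
    have e3 : (1 + y) ^ K ≤ Real.exp (K * y) := by
      have : (1 + y) ^ K ≤ (Real.exp y) ^ K :=
        Real.rpow_le_rpow (by positivity) (by linarith [Real.add_one_le_exp y]) (by positivity)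
      rwa [← Real.exp_mul, mul_comm] at this
    have e4 : Real.exp (K * y) * Real.exp (-(N * (y ^ 2 - 1) ^ 2)) ≤
        Real.exp C * Real.exp (-y) := by
      rw [← Real.exp_add, ← Real.exp_add]
      apply Real.exp_le_exp.mpr
      have := exp_quad_le (K := K) (y := y) hN (by positivity)
      linarith
    have e5 : y ^ (m + 1) * (y ^ (-δ) * (y ^ a * y ^ (-p))) = y ^ (m + 2 + a - p - δ - 1 : ℝ) := by
      rw [← Real.rpow_natCast, ← Real.rpow_add hy, ← Real.rpow_add hy, ← Real.rpow_add hy]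
      congr 1
      push_cast
      ring
    calc y ^ (m + 1) * ((1 + th δ y) * wU a p y * Real.exp (-(N * (y ^ 2 - 1) ^ 2)))
        ≤ y ^ (m + 1) * ((2 * ((1 + y) ^ 2 / y) ^ δ) * wU a p y *
            Real.exp (-(N * (y ^ 2 - 1) ^ 2))) := by gcongr
      _ = 2 * (y ^ (m + 1) * (y ^ (-δ) * (y ^ a * y ^ (-p)))) *
            ((1 + y) ^ (2 * δ) * (1 + y) ^ p) * Real.exp (-(N * (y ^ 2 - 1) ^ 2)) := by
          unfold wU
          rw [e1, e2]
          ring
      _ = 2 * (y ^ (m + 2 + a - p - δ - 1 : ℝ)) *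
            ((1 + y) ^ K) * Real.exp (-(N * (y ^ 2 - 1) ^ 2)) := by
          rw [e5, ← Real.rpow_add (by positivity), hK, add_comm (2 * δ) p]
      _ ≤ 2 * (y ^ (m + 2 + a - p - δ - 1 : ℝ)) *
            Real.exp (K * y) * Real.exp (-(N * (y ^ 2 - 1) ^ 2)) := by gcongr
      _ = 2 * (y ^ (m + 2 + a - p - δ - 1 : ℝ)) *
            (Real.exp (K * y) * Real.exp (-(N * (y ^ 2 - 1) ^ 2))) := by ring
      _ ≤ 2 * (y ^ (m + 2 + a - p - δ - 1 : ℝ)) * (Real.exp C * Real.exp (-y)) := by gcongr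
      _ = _ := by ring

lemma measurable_nsq : Measurable (fun x : Ed m => (‖x‖ ^ 2 - 1) ^ 2) := by fun_prop

lemma int_lower {a q N : ℝ} (hq : 0 ≤ q) (hN : 0 < N) (h : 0 < m + 2 + a) :
    Integrable (fun x : Ed m => ‖x‖ ^ a * (1 + ‖x‖) ^ (-q) *
      Real.exp (-(N * (‖x‖ ^ 2 - 1) ^ 2))) := by
  have h1 := int_weight (m := m) (a := a) (p := 0) (δ := (m + 2 + a) / 2) (N := N) (by positivity)
    le_rfl hN (by linarith)
  refine h1.mono' ?_ (Eventually.of_forall fun x => ?_)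
  · apply Measurable.aestronglyMeasurable
    exact ((measurable_norm.pow_const _).mul ((measurable_const.add measurable_norm).pow_const
      _)).mul (by fun_prop)
  · have hn := norm_nonneg x
    rw [Real.norm_eq_abs, abs_of_nonneg (by positivity)]
    have h2 : (1 + ‖x‖) ^ (-q) ≤ 1 := Real.rpow_le_one_of_one_le_of_nonpos (by linarith) (by linarith)
    have h3 := th_nonneg' (δ := (m + 2 + a) / 2) hn
    unfold wU
    rw [Real.rpow_zero, mul_one]
    have h4 : 0 ≤ ‖x‖ ^ a := Real.rpow_nonneg hn _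
    have h5 := Real.exp_nonneg (-(N * (‖x‖ ^ 2 - 1) ^ 2))
    have h6 : ‖x‖ ^ a * (1 + ‖x‖) ^ (-q) ≤ (1 + th ((m + 2 + a) / 2) ‖x‖) * ‖x‖ ^ a := by
      have := mul_le_mul_of_nonneg_left h2 h4
      have := mul_nonneg h3 h4
      linarith
    exact mul_le_mul_of_nonneg_right h6 h5

/-- Choice of the parameter: the weights concentrate near the unit sphere. -/
lemma exists_lam {a p q δ N C τ : ℝ} (hδ : 0 < δ) (hp : 0 ≤ p) (hq : 0 ≤ q) (hN : 0 < N)
    (h : p + δ < m + 2 + a) (hC : 0 ≤ C) (hτ : 0 < τ) :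
    ∃ l : ℝ, 1 ≤ l ∧
      ∫ x : Ed m, C * ((th δ ‖x‖ + (if ‖x‖ < 1 / 2 then 1 else 0)) * wU a p ‖x‖) *
        Real.exp (-(N * l * (‖x‖ ^ 2 - 1) ^ 2)) ≤
      τ * ∫ x : Ed m, ‖x‖ ^ a * (1 + ‖x‖) ^ (-q) * Real.exp (-(N * l * (‖x‖ ^ 2 - 1) ^ 2)) := by
  -- the neighbourhood of the sphere
  have hcont : ContinuousAt (fun r : ℝ => C * th δ r * (1 + 1 / r) ^ p * (1 + r) ^ q) 1 := by
    unfold th
    have c1 : ContinuousAt (fun r : ℝ => |r - 1| / min r 1) 1 := by
      apply ContinuousAt.div (by fun_prop) (by fun_prop)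
      simp
    have c2 : ContinuousAt (fun r : ℝ => (|r - 1| / min r 1) ^ δ) 1 :=
      c1.rpow_const (Or.inr hδ.le)
    have c3 : ContinuousAt (fun r : ℝ => (1 + 1 / r) ^ p) 1 := by
      apply ContinuousAt.rpow_const _ (Or.inl (by norm_num))
      exact continuousAt_const.add (continuousAt_const.div continuousAt_id one_ne_zero)
    have c4 : ContinuousAt (fun r : ℝ => (1 + r) ^ q) 1 :=
      ContinuousAt.rpow_const (by fun_prop) (Or.inl (by norm_num))
    exact ((continuousAt_const.mul c2).mul c3).mul c4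
  have h0 : C * th δ 1 * (1 + 1 / 1) ^ p * (1 + 1) ^ q = 0 := by
    simp [th, Real.zero_rpow hδ.ne']
  have hev : ∀ᶠ r in 𝓝 (1 : ℝ), C * th δ r * (1 + 1 / r) ^ p * (1 + r) ^ q < τ / 2 := by
    have := hcont.tendsto
    rw [h0] at this
    exact this.eventually (gt_mem_nhds (by positivity))
  obtain ⟨ρ, hρ, hρ1⟩ := Metric.eventually_nhds_iff.mp hev
  set σ := min (ρ / 2) (1 / 4) with hσ
  have hσ0 : 0 < σ := by positivity
  have hσ1 : σ ≤ 1 / 4 := min_le_right _ _
  have hσ2 : σ < ρ := lt_of_le_of_lt (min_le_left _ _) (by linarith)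
  have near : ∀ x : Ed m, (‖x‖ ^ 2 - 1) ^ 2 ≤ σ ^ 2 → |‖x‖ - 1| ≤ σ := by
    intro x hx
    have h1 : |‖x‖ ^ 2 - 1| ≤ σ := abs_le_of_sq_le_sq hx hσ0.le
    have h2 : ‖x‖ ^ 2 - 1 = (‖x‖ - 1) * (‖x‖ + 1) := by ring
    rw [h2, abs_mul] at h1
    have h3 : 1 ≤ |‖x‖ + 1| := by
      rw [abs_of_nonneg (by positivity)]
      linarith [norm_nonneg x]
    have := le_mul_of_one_le_right (abs_nonneg (‖x‖ - 1)) h3
    linarith
  apply laplace (μ := (volume : Measure (Ed m))) (κ := σ ^ 2 / 2) (κ' := σ ^ 2) measurable_nsq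
    (fun x => sq_nonneg _)
    (h := fun x => C * ((th δ ‖x‖ + (if ‖x‖ < 1 / 2 then 1 else 0)) * wU a p ‖x‖))
    (L := fun x => ‖x‖ ^ a * (1 + ‖x‖) ^ (-q)) _ _ hN _ (int_lower hq hN (by linarith)) hτ
    (by nlinarith) _ _
  · intro x
    have := th_nonneg' (δ := δ) (norm_nonneg x)
    have := wU_nonneg (a := a) (p := p) (norm_nonneg x)
    split_ifs <;> positivity
  · intro x
    positivity
  · have h1 := (int_weight (m := m) hδ hp hN h).const_mul C
    refine h1.mono' ?_ (Eventually.of_forall fun x => ?_)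
    · apply Measurable.aestronglyMeasurable
      refine Measurable.mul (measurable_const.mul (Measurable.mul (Measurable.add ?_ ?_) ?_)) ?_
      · exact (measurable_th δ).comp measurable_norm
      · exact Measurable.ite (measurableSet_lt measurable_norm measurable_const) measurable_const
          measurable_const
      · exact (measurable_wU a p).comp measurable_norm
      · fun_prop
    · have h2 := th_nonneg' (δ := δ) (norm_nonneg x)
      have h3 := wU_nonneg (a := a) (p := p) (norm_nonneg x)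
      have h5 := Real.exp_nonneg (-(N * (‖x‖ ^ 2 - 1) ^ 2))
      have h6 : (0 : ℝ) ≤ (if ‖x‖ < 1 / 2 then 1 else 0) := by split_ifs <;> norm_num
      have h7 : (if ‖x‖ < 1 / 2 then 1 else 0) ≤ (1 : ℝ) := by split_ifs <;> norm_num
      rw [Real.norm_eq_abs, abs_of_nonneg (by positivity)]
      calc C * ((th δ ‖x‖ + (if ‖x‖ < 1 / 2 then 1 else 0)) * wU a p ‖x‖) *
            Real.exp (-(N * (‖x‖ ^ 2 - 1) ^ 2))
          ≤ C * ((th δ ‖x‖ + 1) * wU a p ‖x‖) * Real.exp (-(N * (‖x‖ ^ 2 - 1) ^ 2)) := by gcongr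
        _ = _ := by ring
  · intro x hx
    have h1 := near x hx
    have h2 := abs_le.mp h1
    have hpos : 0 < ‖x‖ := by linarith
    have h3 : ¬ ‖x‖ < 1 / 2 := by linarith
    have h4 := hρ1 (y := ‖x‖) (by rw [Real.dist_eq]; linarith)
    rw [if_neg h3, add_zero]
    unfold wU
    have h5 : (1 + ‖x‖) ^ q * (1 + ‖x‖) ^ (-q) = 1 := by
      rw [← Real.rpow_add (by positivity)]
      simp
    have h6 : 0 ≤ ‖x‖ ^ a * (1 + ‖x‖) ^ (-q) := by positivity
    have h7 := mul_le_mul_of_nonneg_right h4.le h6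
    calc C * (th δ ‖x‖ * (‖x‖ ^ a * (1 + 1 / ‖x‖) ^ p))
        = C * th δ ‖x‖ * (1 + 1 / ‖x‖) ^ p * ((1 + ‖x‖) ^ q * (1 + ‖x‖) ^ (-q)) * ‖x‖ ^ a := by
          rw [h5]
          ring
      _ = C * th δ ‖x‖ * (1 + 1 / ‖x‖) ^ p * (1 + ‖x‖) ^ q * (‖x‖ ^ a * (1 + ‖x‖) ^ (-q)) := by
          ring
      _ ≤ _ := h7
  · have hL := int_lower (m := m) (a := a) hq hN (by linarith)
    rw [setIntegral_pos_iff_support_of_nonneg_ae (Eventually.of_forall fun x => by positivity)
      hL.integrableOn]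
    have hopen : IsOpen {x : Ed m | (‖x‖ ^ 2 - 1) ^ 2 < σ ^ 2 / 2} :=
      isOpen_lt (by fun_prop) continuous_const
    refine lt_of_lt_of_le (hopen.measure_pos volume ⟨e0, ?_⟩) (measure_mono ?_)
    · simp only [mem_ofPred_eq, norm_e0]
      norm_num
      positivity
    · intro x hx
      have hx : (‖x‖ ^ 2 - 1) ^ 2 < σ ^ 2 / 2 := hx
      have h1 := near x (by nlinarith [sq_nonneg σ])
      have h2 := abs_le.mp h1
      have hpos : 0 < ‖x‖ := by linarith
      refine ⟨?_, hx.le⟩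
      rw [Function.mem_support]
      positivity

end Pool.Agent.QCurv
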